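import Pool.Agent.MP_4e44b6_al.H30.Walk

/-! Three consecutive walks that sweep out two prescribed finite unions of intervals. -/

namespace Pool.Agent.MP_4e44b6_al.H30

open Set Pointwise

/-- A finite union of intervals with more than one point each. -/
def FU (S : Set ℝ) : Prop :=
  ∃ F : Set (Set ℝ), F.Finite ∧ (∀ I ∈ F, I.OrdConnected ∧ I.Nontrivial) ∧ ⋃₀ F = S

theorem move_of_family {ι : Type*} {s : Set ι} (hs : s.Finite) (J : ι → Set ℝ) (e : ι → ℝ)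
    (hJ : ∀ i ∈ s, (J i).OrdConnected) (hJn : ∀ i ∈ s, (J i).Nontrivial)
    (hJ1 : ∀ i ∈ s, J i ⊆ Icc (0 : ℝ) 1) (he : ∀ i ∈ s, e i = 1 ∨ e i = -1)
    (hconn : IsPreconnected (⋃ i ∈ s, closure (J i))) {b₀ b : ℝ}
    (hb₀ : b₀ ∈ ⋃ i ∈ s, closure (J i)) (hb : b ∈ ⋃ i ∈ s, closure (J i)) :
    ∃ T ⊆ ⋃ i ∈ s, (fun t => e i * t) '' J i, Move b₀ b T := by
  set S := ⋃ i ∈ s, (fun t => e i * t) '' J i with hS
  let R : ℝ → Prop := fun y => ∃ T ⊆ S, Move b₀ y T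
  have hR : ∀ i ∈ s, ∀ b ∈ closure (J i), ∀ c ∈ closure (J i), R b → R c := by
    rintro i hi b hb c hc ⟨T₁, s1, m1⟩
    obtain ⟨-, -, -, h⟩ := Move.sweep (hJ i hi) (hJn i hi) (hJ1 i hi) (he i hi)
    obtain ⟨T₃, s3, m3⟩ := h b hb c hc
    exact ⟨_, union_subset s1 (s3.trans
      (subset_biUnion_of_mem (u := fun i => (fun t => e i * t) '' J i) hi)), m1.trans m3⟩
  have hR0 : R b₀ := ⟨∅, empty_subset _, Move.refl _⟩
  have h := isPreconnected_iff_subset_of_disjoint_closed.1 hconn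
    (⋃ i ∈ {i ∈ s | ∀ b ∈ closure (J i), R b}, closure (J i))
    (⋃ i ∈ {i ∈ s | ∀ b ∈ closure (J i), ¬ R b}, closure (J i))
    ((hs.subset (sep_subset _ _)).isClosed_biUnion fun _ _ => isClosed_closure)
    ((hs.subset (sep_subset _ _)).isClosed_biUnion fun _ _ => isClosed_closure) ?_ ?_
  · rcases h with h | h
    · have := h hb
      simp only [mem_iUnion] at this
      obtain ⟨j, hj, hbj⟩ := this
      exact hj.2 b hbj
    · have := h hb₀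
      simp only [mem_iUnion] at this
      obtain ⟨j, hj, hbj⟩ := this
      exact absurd hR0 (hj.2 _ hbj)
  · intro x hx
    simp only [mem_iUnion] at hx
    obtain ⟨i, hi, hx⟩ := hx
    by_cases hRx : R x
    · exact Or.inl (mem_biUnion (x := i) ⟨hi, fun b hb => hR i hi x hx b hb hRx⟩ hx)
    · exact Or.inr (mem_biUnion (x := i) ⟨hi, fun b hb h => hRx (hR i hi b hb x hx h)⟩ hx)
  · rw [eq_empty_iff_forall_notMem]
    rintro x ⟨-, h1, h2⟩
    simp only [mem_iUnion] at h1 h2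
    obtain ⟨i, hi, hxi⟩ := h1
    obtain ⟨j, hj, hxj⟩ := h2
    exact hj.2 x hxj (hi.2 x hxi)

theorem FU.reach {S : Set ℝ} (hS : FU S) (h1 : S ⊆ Icc (-1) 1)
    (hconn : (closure ((fun c => |c|) '' S)).OrdConnected) {b₀ b : ℝ}
    (hb₀ : b₀ ∈ closure ((fun c => |c|) '' S)) (hb : b ∈ closure ((fun c => |c|) '' S)) :
    Reach b₀ S b := by
  obtain ⟨F, hfin, hF, hSF⟩ := hS
  let J : Set ℝ × ℝ → Set ℝ := fun z => {t | 0 ≤ t ∧ z.2 * t ∈ z.1}
  let s : Set (Set ℝ × ℝ) := {z | z.1 ∈ F ∧ (z.2 = 1 ∨ z.2 = -1) ∧ (J z).Nontrivial}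
  have hs : s.Finite := (hfin.prod (toFinite ({1, -1} : Set ℝ))).subset
    fun z hz => ⟨hz.1, hz.2.1⟩
  have hIS : ∀ I ∈ F, I ⊆ S := fun I hI => hSF ▸ subset_sUnion_of_mem hI
  have hcover : ∀ c ∈ S, ∃ z ∈ s, |c| ∈ J z ∧ z.2 * |c| = c := by
    intro c hc
    rw [← hSF] at hc
    obtain ⟨I, hI, hc⟩ := hc
    obtain ⟨hO, hN⟩ := hF I hI
    obtain ⟨c', hc', hne⟩ := hN.exists_ne c
    rcases lt_trichotomy c 0 with h | rfl | h
    · refine ⟨(I, -1), ⟨hI, Or.inr rfl, -c, ⟨by linarith, by simpa using hc⟩, ?_⟩,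
        ⟨abs_nonneg _, by simpa [abs_of_neg h] using hc⟩, by simp [abs_of_neg h]⟩
      by_cases h' : c' ≤ 0
      · exact ⟨-c', ⟨by linarith, by simpa using hc'⟩, fun h => hne (neg_injective h).symm⟩
      · exact ⟨0, ⟨le_rfl, by simpa using hO.out hc hc' ⟨h.le, (not_le.1 h').le⟩⟩, by linarith⟩
    · rcases lt_or_gt_of_ne hne with h' | h'
      · exact ⟨(I, -1), ⟨hI, Or.inr rfl, 0, ⟨le_rfl, by simpa using hc⟩, -c',
          ⟨by linarith, by simpa using hc'⟩, by linarith⟩, ⟨by simp, by simpa using hc⟩, by simp⟩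
      · exact ⟨(I, 1), ⟨hI, Or.inl rfl, 0, ⟨le_rfl, by simpa using hc⟩, c',
          ⟨h'.le, by simpa using hc'⟩, h'.ne⟩, ⟨by simp, by simpa using hc⟩, by simp⟩
    · refine ⟨(I, 1), ⟨hI, Or.inl rfl, c, ⟨h.le, by simpa using hc⟩, ?_⟩,
        ⟨abs_nonneg _, by simpa [abs_of_pos h] using hc⟩, by simp [abs_of_pos h]⟩
      by_cases h' : 0 ≤ c'
      · exact ⟨c', ⟨h', by simpa using hc'⟩, hne.symm⟩
      · exact ⟨0, ⟨le_rfl, by simpa using hO.out hc' hc ⟨(not_le.1 h').le, h.le⟩⟩, h.ne'⟩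
  have hU : (⋃ z ∈ s, J z) = (fun c => |c|) '' S := by
    ext t
    simp only [mem_iUnion]
    constructor
    · rintro ⟨z, hz, ht⟩
      refine ⟨z.2 * t, hIS _ hz.1 ht.2, ?_⟩
      rcases hz.2.1 with h | h <;> simp [h, abs_of_nonneg ht.1]
    · rintro ⟨c, hc, rfl⟩
      obtain ⟨z, hz, h, -⟩ := hcover c hc
      exact ⟨z, hz, h⟩
  have hcl : (⋃ z ∈ s, closure (J z)) = closure ((fun c => |c|) '' S) := by
    rw [← hU, hs.closure_biUnion]
  have hS' : (⋃ z ∈ s, (fun t => z.2 * t) '' J z) = S := by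
    ext c
    simp only [mem_iUnion]
    constructor
    · rintro ⟨z, hz, t, ht, rfl⟩
      exact hIS _ hz.1 ht.2
    · intro hc
      obtain ⟨z, hz, h, h'⟩ := hcover c hc
      exact ⟨z, hz, _, h, h'⟩
  have k1 : ∀ z ∈ s, (J z).OrdConnected := fun z hz => ⟨fun a ha b hb t ht => by
    refine ⟨ha.1.trans ht.1, ?_⟩
    have hO := (hF _ hz.1).1
    have h1 := ha.2
    have h2 := hb.2
    rcases hz.2.1 with h | h
    · rw [h, one_mul] at h1 h2 ⊢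
      exact hO.out h1 h2 ht
    · rw [h] at h1 h2 ⊢
      exact hO.out h2 h1 ⟨by linarith [ht.2], by linarith [ht.1]⟩⟩
  have k2 : ∀ z ∈ s, J z ⊆ Icc (0 : ℝ) 1 := fun z hz t ht => ⟨ht.1, by
    have := h1 (hIS _ hz.1 ht.2)
    rcases hz.2.1 with h | h <;> rw [h] at this
    · linarith [this.2]
    · linarith [this.1]⟩
  have k3 : IsPreconnected (⋃ z ∈ s, closure (J z)) := by rw [hcl]; exact hconn.isPreconnected
  have r := reach_of_family hs J (fun z => z.2) k1 (fun z hz => hz.2.2) k2 (fun z hz => hz.2.1) k3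
    (hcl ▸ hb₀)
  obtain ⟨T, hT, m⟩ := move_of_family hs J (fun z => z.2) k1 (fun z hz => hz.2.2) k2
    (fun z hz => hz.2.1) k3 (hcl ▸ hb₀) (hcl ▸ hb)
  have := m _ _ r
  rwa [union_eq_self_of_subset_right hT, hS'] at this

theorem FU.sep {S : Set ℝ} (hS : FU S) {u v : Set ℝ} (hu : IsOpen u) (hv : IsOpen v)
    (huv : Disjoint u v) (h : S ⊆ u ∪ v) : FU (S ∩ u) := by
  obtain ⟨F, hfin, hF, rfl⟩ := hS
  refine ⟨{I ∈ F | I ⊆ u}, hfin.subset (sep_subset _ _), fun I hI => hF I hI.1, ?_⟩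
  ext x
  constructor
  · rintro ⟨I, hI, hx⟩
    exact ⟨⟨I, hI.1, hx⟩, hI.2 hx⟩
  · rintro ⟨⟨I, hI, hx⟩, hxu⟩
    exact ⟨I, ⟨hI, (hF I hI).1.isPreconnected.subset_left_of_subset_union hu hv huv
      ((subset_sUnion_of_mem hI).trans h) ⟨x, hx, hxu⟩⟩, hx⟩

theorem FU.union_closure {S Z : Set ℝ} (hS : FU S) (hZ : Z ⊆ closure S) : FU (S ∪ Z) := by
  obtain ⟨F, hfin, hF, rfl⟩ := hS
  refine ⟨(fun I => I ∪ closure I ∩ Z) '' F, hfin.image _, ?_, ?_⟩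
  · rintro _ ⟨I, hI, rfl⟩
    exact ⟨((hF I hI).1.isPreconnected.subset_closure subset_union_left
      (union_subset subset_closure inter_subset_left)).ordConnected,
      (hF I hI).2.mono subset_union_left⟩
  · rw [hfin.closure_sUnion] at hZ
    ext x
    simp only [sUnion_image, mem_iUnion, mem_union, mem_sUnion]
    constructor
    · rintro ⟨I, hI, hx | hx⟩
      · exact Or.inl ⟨I, hI, hx⟩
      · exact Or.inr hx.2
    · rintro (⟨I, hI, hx⟩ | hx)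
      · exact ⟨I, hI, Or.inl hx⟩
      · have := hZ hx
        simp only [mem_iUnion] at this
        obtain ⟨I, hI, h⟩ := this
        exact ⟨I, hI, Or.inr ⟨h, hx⟩⟩

theorem FU.exists_pos {S : Set ℝ} (hS : FU S) (hne : S.Nonempty) :
    ∃ a ∈ closure ((fun c => |c|) '' S), 0 < a := by
  obtain ⟨F, -, hF, rfl⟩ := hS
  obtain ⟨_, I, hI, -⟩ := hne
  obtain ⟨c, hc, h⟩ := (hF I hI).2.exists_ne 0
  exact ⟨_, subset_closure ⟨c, ⟨I, hI, hc⟩, rfl⟩, abs_pos.2 h⟩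

section Arc

variable {A B : Set ℝ}

theorem zero_mem_of_Ioc (hA : IsClosed A) {a : ℝ} (ha : 0 < a) (h : Ioc 0 a ⊆ A) : 0 ∈ A :=
  hA.closure_subset_iff.2 h (by rw [closure_Ioc ha.ne]; exact left_mem_Icc.2 ha.le)

theorem mem_of_pos (hB : B ⊆ Icc 0 1) {z : ℝ} (hz : 0 < z) (h : z ∈ A ∪ -B) : z ∈ A :=
  h.resolve_right fun h' => by linarith [(hB h').1]

theorem arc_zero (hA : IsClosed A) (hA1 : A ⊆ Icc 0 1) (hB1 : B ⊆ Icc 0 1) (hA0 : ∃ a ∈ A, 0 < a)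
    (hB0 : ∃ a ∈ B, 0 < a) (h : (A ∪ -B).OrdConnected) : A.OrdConnected ∧ 0 ∈ A := by
  obtain ⟨a, ha, ha0⟩ := hA0
  obtain ⟨b, hb, hb0⟩ := hB0
  have h0 : 0 ∈ A := zero_mem_of_Ioc hA ha0 fun z hz => mem_of_pos hB1 hz.1
    (h.out (x := -b) (Or.inr (by simpa using hb)) (Or.inl ha) ⟨by linarith [hz.1], hz.2⟩)
  refine ⟨⟨fun x hx y hy z hz => ?_⟩, h0⟩
  rcases ((hA1 hx).1.trans hz.1).eq_or_lt with rfl | hz0
  · exact h0
  · exact mem_of_pos hB1 hz0 (h.out (Or.inl hx) (Or.inl hy) hz)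

theorem arc_one (hA1 : A ⊆ Icc 0 1) (hB1 : B ⊆ Icc 0 1) (h : ¬ (A ∪ -B).OrdConnected)
    (h' : (Icc (-1) 1 \ (A ∪ -B)).OrdConnected) : 1 ∈ A := by
  have hK : A ∪ -B ⊆ Icc (-1) 1 := by
    rintro x (hx | hx)
    · exact ⟨by linarith [(hA1 hx).1], (hA1 hx).2⟩
    · exact ⟨by linarith [(hB1 hx).2], by linarith [(hB1 hx).1]⟩
  refine mem_of_pos hB1 one_pos (by_contra fun h1 => h ⟨fun x hx y hy z hz => ?_⟩)
  by_contra hn
  exact (h'.out ⟨⟨(hK hx).1.trans hz.1, hz.2.trans (hK hy).2⟩, hn⟩ ⟨⟨by norm_num, le_rfl⟩, h1⟩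
    ⟨hz.2, (hK hy).2⟩).2 hy

theorem arc_split (hA : IsClosed A) (hB : IsClosed B) (hA1 : A ⊆ Icc 0 1) (hB1 : B ⊆ Icc 0 1)
    (h' : (Icc (-1) 1 \ (A ∪ -B)).OrdConnected) (h : ¬ A.OrdConnected) :
    B = Icc 0 1 ∧ 0 ∈ A ∧ ∃ c ∈ Icc (0 : ℝ) 1, c ∉ A ∧ (A ∩ Iic c).OrdConnected ∧
      (A ∩ Ici c).OrdConnected := by
  rw [ordConnected_iff] at h
  push Not at h
  obtain ⟨x, hx, y, hy, -, h⟩ := h
  obtain ⟨c, hc, hcA⟩ := not_subset.1 h
  have hc1 : c ∈ Icc (0 : ℝ) 1 := ⟨(hA1 hx).1.trans hc.1, hc.2.trans (hA1 hy).2⟩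
  have hc0 : 0 < c := (hA1 hx).1.trans_lt (lt_of_le_of_ne hc.1 fun e => hcA (e ▸ hx))
  have hcG : c ∈ Icc (-1) 1 \ (A ∪ -B) :=
    ⟨⟨by linarith, hc1.2⟩, fun h => hcA (mem_of_pos hB1 hc0 h)⟩
  have lo : ∀ u ∈ A, u ≤ c → ∀ z, -1 ≤ z → z ≤ u → z ∈ A ∪ -B := fun u hu huc z h1 h2 => by
    by_contra hn
    exact (h'.out ⟨⟨h1, h2.trans (hA1 hu).2⟩, hn⟩ hcG ⟨h2, huc⟩).2 (Or.inl hu)
  have hi : ∀ u ∈ A, c ≤ u → ∀ z, z ≤ 1 → u ≤ z → z ∈ A := fun u hu huc z h1 h2 => by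
    refine mem_of_pos hB1 (hc0.trans_le (huc.trans h2)) (by_contra fun hn => ?_)
    exact (h'.out hcG ⟨⟨by linarith, h1⟩, hn⟩ ⟨huc, h2⟩).2 (Or.inl hu)
  have hB' : Ioc 0 1 ⊆ B := fun z hz => by
    rcases lo x hx hc.1 (-z) (by linarith [hz.2]) (by linarith [hz.1, (hA1 hx).1]) with h | h
    · linarith [(hA1 h).1, hz.1]
    · simpa using h
  have h0 : 0 ∈ A := by
    rcases (hA1 hx).1.eq_or_lt with e | e
    · exact e ▸ hx
    · exact zero_mem_of_Ioc hA e fun z hz =>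
        mem_of_pos hB1 hz.1 (lo x hx hc.1 z (by linarith [hz.1]) hz.2)
  refine ⟨subset_antisymm hB1 fun z hz => ?_, h0, c, hc1, hcA,
    ⟨fun u hu v hv z hz => ⟨?_, hz.2.trans hv.2⟩⟩, ⟨fun u hu v hv z hz =>
      ⟨hi u hu.1 hu.2 z (hz.2.trans (hA1 hv.1).2) hz.1, le_trans hu.2 hz.1⟩⟩⟩
  · rcases hz.1.eq_or_lt with rfl | e
    · exact zero_mem_of_Ioc hB one_pos hB'
    · exact hB' ⟨e, hz.2⟩
  · rcases ((hA1 hu.1).1.trans hz.1).eq_or_lt with rfl | e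
    · exact h0
    · exact mem_of_pos hB1 e (lo v hv.1 hv.2 z (by linarith) hz.2)

theorem ordConnected_neg {K : Set ℝ} (h : K.OrdConnected) : (-K).OrdConnected :=
  ⟨fun x hx y hy _ hz => h.out (x := -y) (y := -x) hy hx ⟨neg_le_neg hz.2, neg_le_neg hz.1⟩⟩

theorem neg_arc : -(A ∪ -B) = B ∪ -A := by
  ext x; simp [or_comm]

theorem neg_arc' : -(Icc (-1) 1 \ (A ∪ -B)) = Icc (-1) 1 \ (B ∪ -A) := by
  ext x; simp [or_comm, and_comm, neg_le]

end Arc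

/-- Three walks: the outer two sweep out `S`, the middle one sweeps out `U`. -/
def Three (S U : Set ℝ) : Prop :=
  ∃ (b₁ b₂ : ℝ) (S₁ S₃ : Set ℝ), (b₁ = 0 ∨ b₁ = 1) ∧ (b₂ = 0 ∨ b₂ = 1) ∧ S₁.Nonempty ∧
    U.Nonempty ∧ S₃.Nonempty ∧ S₁ ∪ S₃ = S ∧ Reach b₁ S₁ b₁ ∧ Reach b₁ U b₂ ∧ Reach b₂ S₃ b₂

theorem closure_abs_subset {S : Set ℝ} (h : S ⊆ Icc (-1) 1) :
    closure ((fun c => |c|) '' S) ⊆ Icc 0 1 :=
  closure_minimal (by rintro _ ⟨c, hc, rfl⟩; exact ⟨abs_nonneg _, abs_le.2 (h hc)⟩) isClosed_Icc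

theorem three_of_split {S U : Set ℝ} (hS : FU S) (hU : FU U) (hS1 : S ⊆ Icc (-1) 1)
    (hU1 : U ⊆ Icc (-1) 1) (hU0 : U.Nonempty)
    (h' : (Icc (-1) 1 \ (closure ((fun c => |c|) '' S) ∪
      -closure ((fun c => |c|) '' U))).OrdConnected)
    (h1 : 1 ∈ closure ((fun c => |c|) '' S))
    (h : ¬ (closure ((fun c => |c|) '' S)).OrdConnected) : Three S U := by
  obtain ⟨hB, h0, c, hc, hcA, k1, k2⟩ := arc_split isClosed_closure isClosed_closure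
    (closure_abs_subset hS1) (closure_abs_subset hU1) h' h
  have o1 : IsOpen {x : ℝ | |x| < c} := isOpen_lt continuous_abs continuous_const
  have o2 : IsOpen {x : ℝ | c < |x|} := isOpen_lt continuous_const continuous_abs
  have hd : Disjoint {x : ℝ | |x| < c} {x : ℝ | c < |x|} :=
    disjoint_left.2 fun x (h : |x| < c) (h' : c < |x|) => lt_asymm h h'
  have hsub : S ⊆ {x : ℝ | |x| < c} ∪ {x : ℝ | c < |x|} := fun x hx =>
    lt_or_gt_of_ne fun e => hcA (subset_closure ⟨x, hx, e⟩)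
  have hun : S ∩ {x : ℝ | |x| < c} ∪ S ∩ {x : ℝ | c < |x|} = S := by
    rw [← inter_union_distrib_left, inter_eq_left.2 hsub]
  have c1 : closure ((fun c => |c|) '' (S ∩ {x : ℝ | |x| < c})) ⊆ Iic c :=
    closure_minimal (by rintro _ ⟨x, hx, rfl⟩; exact le_of_lt (b := c) hx.2) isClosed_Iic
  have c2 : closure ((fun c => |c|) '' (S ∩ {x : ℝ | c < |x|})) ⊆ Ici c :=
    closure_minimal (by rintro _ ⟨x, hx, rfl⟩; exact le_of_lt (a := c) hx.2) isClosed_Ici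
  have hcl : closure ((fun c => |c|) '' S) = closure ((fun c => |c|) '' (S ∩ {x : ℝ | |x| < c})) ∪
      closure ((fun c => |c|) '' (S ∩ {x : ℝ | c < |x|})) := by
    rw [← closure_union, ← image_union, hun]
  have e1 : closure ((fun c => |c|) '' (S ∩ {x : ℝ | |x| < c})) =
      closure ((fun c => |c|) '' S) ∩ Iic c := by
    refine subset_antisymm (subset_inter (closure_mono (image_mono inter_subset_left)) c1) ?_
    rintro z ⟨hz, hzc⟩
    exact (hcl ▸ hz).resolve_right fun h => hcA (le_antisymm (a := z) hzc (c2 h) ▸ hz)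
  have e2 : closure ((fun c => |c|) '' (S ∩ {x : ℝ | c < |x|})) =
      closure ((fun c => |c|) '' S) ∩ Ici c := by
    refine subset_antisymm (subset_inter (closure_mono (image_mono inter_subset_left)) c2) ?_
    rintro z ⟨hz, hzc⟩
    exact (hcl ▸ hz).resolve_left fun h => hcA (le_antisymm (a := z) (c1 h) hzc ▸ hz)
  have m1 : (0 : ℝ) ∈ closure ((fun c => |c|) '' (S ∩ {x : ℝ | |x| < c})) := e1 ▸ ⟨h0, hc.1⟩
  have m2 : (1 : ℝ) ∈ closure ((fun c => |c|) '' (S ∩ {x : ℝ | c < |x|})) := e2 ▸ ⟨h1, hc.2⟩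
  exact ⟨0, 1, _, _, Or.inl rfl, Or.inr rfl,
    image_nonempty.1 (closure_nonempty_iff.1 ⟨_, m1⟩), hU0,
    image_nonempty.1 (closure_nonempty_iff.1 ⟨_, m2⟩), hun,
    (hS.sep o1 o2 hd hsub).reach (inter_subset_left.trans hS1) (e1 ▸ k1) m1 m1,
    hU.reach hU1 (hB ▸ ordConnected_Icc) (hB ▸ left_mem_Icc.2 zero_le_one)
      (hB ▸ right_mem_Icc.2 zero_le_one),
    (hS.sep o2 o1 hd.symm (union_comm _ _ ▸ hsub)).reach (inter_subset_left.trans hS1) (e2 ▸ k2)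
      m2 m2⟩

theorem exists_three {S U : Set ℝ} (hS : FU S) (hU : FU U) (hS1 : S ⊆ Icc (-1) 1)
    (hU1 : U ⊆ Icc (-1) 1) (hS0 : S.Nonempty) (hU0 : U.Nonempty)
    (h : (closure ((fun c => |c|) '' S) ∪ -closure ((fun c => |c|) '' U)).OrdConnected ∨
      (Icc (-1) 1 \ (closure ((fun c => |c|) '' S) ∪
        -closure ((fun c => |c|) '' U))).OrdConnected) : Three S U ∨ Three U S := by
  have a1 := closure_abs_subset hS1
  have a2 := closure_abs_subset hU1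
  by_cases h0 : (closure ((fun c => |c|) '' S) ∪ -closure ((fun c => |c|) '' U)).OrdConnected
  · obtain ⟨k1, k2⟩ := arc_zero isClosed_closure a1 a2 (hS.exists_pos hS0) (hU.exists_pos hU0) h0
    obtain ⟨k3, k4⟩ := arc_zero isClosed_closure a2 a1 (hU.exists_pos hU0) (hS.exists_pos hS0)
      (neg_arc ▸ ordConnected_neg h0)
    exact Or.inl ⟨0, 0, S, S, Or.inl rfl, Or.inl rfl, hS0, hU0, hS0, union_self _,
      hS.reach hS1 k1 k2 k2, hU.reach hU1 k3 k4 k4, hS.reach hS1 k1 k2 k2⟩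
  have h1 := h.resolve_left h0
  have h2 := neg_arc' ▸ ordConnected_neg h1
  have k2 := arc_one a1 a2 h0 h1
  have k4 := arc_one a2 a1 (fun h => h0 (neg_arc ▸ ordConnected_neg h)) h2
  by_cases k1 : (closure ((fun c => |c|) '' S)).OrdConnected
  · by_cases k3 : (closure ((fun c => |c|) '' U)).OrdConnected
    · exact Or.inl ⟨1, 1, S, S, Or.inr rfl, Or.inr rfl, hS0, hU0, hS0, union_self _,
        hS.reach hS1 k1 k2 k2, hU.reach hU1 k3 k4 k4, hS.reach hS1 k1 k2 k2⟩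
    · exact Or.inr (three_of_split hU hS hU1 hS1 hS0 h2 k4 k3)
  · exact Or.inl (three_of_split hS hU hS1 hU1 hU0 h1 k2 k1)

/-- The set swept out by one step. -/
def Walk.step (w : Walk) (l : ℕ) : Set ℝ :=
  {c | (∃ t ∈ uIoo (w.y l) (w.y (l + 1)), c = w.ε l * t) ∨
    (l + 1 < w.L ∧ w.keep l ∧ c = w.ε l * w.y (l + 1))}

theorem Walk.mem_cover (w : Walk) (c : ℝ) : c ∈ w.cover ↔ ∃ l < w.L, c ∈ w.step l := by
  constructor
  · rintro (⟨l, hl, h⟩ | ⟨l, hl, h⟩)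
    · exact ⟨l, hl, Or.inl h⟩
    · exact ⟨l, by omega, Or.inr ⟨hl, h⟩⟩
  · rintro ⟨l, hl, h | h⟩
    · exact Or.inl ⟨l, hl, h⟩
    · exact Or.inr ⟨l, h⟩

/-- Concatenation of walks. -/
def Walk.append (w₁ w₂ : Walk) : Walk where
  L := w₁.L + w₂.L
  y l := if l ≤ w₁.L then w₁.y l else w₂.y (l - w₁.L)
  ε l := if l < w₁.L then w₁.ε l else w₂.ε (l - w₁.L)
  keep l := if l < w₁.L then l + 1 < w₁.L ∧ w₁.keep l else w₂.keep (l - w₁.L)

theorem Walk.append_y_left (w₁ w₂ : Walk) {l : ℕ} (h : l ≤ w₁.L) :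
    (w₁.append w₂).y l = w₁.y l := if_pos h

theorem Walk.append_y_right {w₁ w₂ : Walk} (h : w₁.y w₁.L = w₂.y 0) (l : ℕ) :
    (w₁.append w₂).y (w₁.L + l) = w₂.y l := by
  simp only [Walk.append]
  split_ifs with h'
  · obtain rfl : l = 0 := by omega
    exact h
  · rw [Nat.add_sub_cancel_left]

theorem Walk.step_left (w₁ w₂ : Walk) {l : ℕ} (h : l < w₁.L) :
    (w₁.append w₂).step l = w₁.step l := by
  ext c
  simp only [Walk.step, Walk.append_y_left w₁ w₂ h.le, Walk.append_y_left w₁ w₂ (l := l + 1) h]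
  simp only [Walk.append, if_pos h, mem_ofPred_eq]
  exact or_congr_right
    ⟨fun k => ⟨k.2.1.1, k.2.1.2, k.2.2⟩, fun k => ⟨by omega, ⟨k.1, k.2.1⟩, k.2.2⟩⟩

theorem Walk.step_right {w₁ w₂ : Walk} (h : w₁.y w₁.L = w₂.y 0) (l : ℕ) :
    (w₁.append w₂).step (w₁.L + l) = w₂.step l := by
  ext c
  simp only [Walk.step, add_assoc, Walk.append_y_right h]
  simp only [Walk.append, if_neg (show ¬ w₁.L + l < w₁.L by omega), mem_ofPred_eq,
    Nat.add_sub_cancel_left, add_lt_add_iff_left]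

theorem Walk.Valid.append {w₁ w₂ : Walk} (h₁ : w₁.Valid) (h₂ : w₂.Valid)
    (h : w₁.y w₁.L = w₂.y 0) : (w₁.append w₂).Valid := by
  refine ⟨fun l hl => ?_, fun l hl => ?_, fun l => ?_, fun l hl hk => ?_⟩
  · rcases le_total l w₁.L with h' | h'
    · rw [Walk.append_y_left _ _ h']
      exact h₁.mem l h'
    · obtain ⟨k, rfl⟩ := Nat.exists_eq_add_of_le h'
      rw [Walk.append_y_right h]
      exact h₂.mem k (Nat.le_of_add_le_add_left hl)
  · rcases lt_or_ge l w₁.L with h' | h'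
    · rw [Walk.append_y_left _ _ h'.le, Walk.append_y_left _ _ (l := l + 1) h']
      exact h₁.ne l h'
    · obtain ⟨k, rfl⟩ := Nat.exists_eq_add_of_le h'
      rw [add_assoc, Walk.append_y_right h, Walk.append_y_right h]
      exact h₂.ne k (Nat.lt_of_add_lt_add_left hl)
  · simp only [Walk.append]
    split_ifs
    · exact h₁.sign l
    · exact h₂.sign _
  · simp only [Walk.append] at hl hk ⊢
    by_cases h' : l < w₁.L
    · rw [if_pos h'] at hk ⊢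
      rw [if_pos hk.1]
      exact h₁.keep l hk.1 hk.2
    · rw [if_neg h'] at hk ⊢
      rw [if_neg (by omega), show l + 1 - w₁.L = l - w₁.L + 1 by omega]
      exact h₂.keep _ (by omega) hk

theorem exists_nodes {a b : ℝ} (ha : a < -1) (hb : 0 < b) {n₁ n₂ n₃ : ℕ} (h₁ : 0 < n₁)
    (h₂ : 0 < n₂) (h₃ : 0 < n₃) : ∃ θ : ℕ → ℝ, StrictMono θ ∧ θ 0 = a ∧ θ n₁ = -1 ∧
      θ (n₁ + n₂) = 0 ∧ θ (n₁ + n₂ + n₃) = b := by
  let d : ℕ → ℝ := fun i =>
    if i < n₁ then (-1 - a) / n₁ else if i < n₁ + n₂ then 1 / n₂ else b / n₃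
  have k₁ : (0 : ℝ) < n₁ := by exact_mod_cast h₁
  have k₂ : (0 : ℝ) < n₂ := by exact_mod_cast h₂
  have k₃ : (0 : ℝ) < n₃ := by exact_mod_cast h₃
  have hd : ∀ i, 0 < d i := fun i => by
    simp only [d]
    split_ifs
    · exact div_pos (by linarith) k₁
    · positivity
    · positivity
  have e1 : ∑ i ∈ Finset.range n₁, d i = -1 - a := by
    rw [Finset.sum_congr rfl fun i hi => if_pos (Finset.mem_range.1 hi)]
    simp only [Finset.sum_const, Finset.card_range, nsmul_eq_mul]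
    field_simp
  have e2 : ∑ i ∈ Finset.range n₂, d (n₁ + i) = 1 := by
    rw [Finset.sum_congr rfl fun i hi => (if_neg (by omega)).trans
      (if_pos (by have := Finset.mem_range.1 hi; omega))]
    simp only [Finset.sum_const, Finset.card_range, nsmul_eq_mul]
    field_simp
  have e3 : ∑ i ∈ Finset.range n₃, d (n₁ + n₂ + i) = b := by
    rw [Finset.sum_congr rfl fun i hi => (if_neg (by omega)).trans (if_neg (by omega))]
    simp only [Finset.sum_const, Finset.card_range, nsmul_eq_mul]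
    field_simp
  refine ⟨fun l => a + ∑ i ∈ Finset.range l, d i, strictMono_nat_of_lt_succ fun l => ?_, by simp,
    ?_, ?_, ?_⟩
  · rw [Finset.sum_range_succ]
    linarith [hd l]
  · simp only [e1]; ring
  · simp only [Finset.sum_range_add, e1, e2]; ring
  · simp only [Finset.sum_range_add, e1, e2, e3]; ring

theorem Three.chain {S U : Set ℝ} (h : Three S U) {a b : ℝ} (ha : a < -1) (hb : 0 < b) :
    ∃ (w : Walk) (θ : ℕ → ℝ) (i₁ i₂ : ℕ), w.Valid ∧ StrictMono θ ∧ θ 0 = a ∧ θ i₁ = -1 ∧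
      θ i₂ = 0 ∧ θ w.L = b ∧
      (∀ j, j = 0 ∨ j = i₁ ∨ j = i₂ ∨ j = w.L → w.y j = 0 ∨ w.y j = 1) ∧
      (∀ l, l + 1 = i₁ ∨ l + 1 = i₂ → ¬ w.keep l) ∧
      (∀ c, c ∈ S ↔ ∃ l < w.L, (l < i₁ ∨ i₂ ≤ l) ∧ c ∈ w.step l) ∧
      ∀ c, c ∈ U ↔ ∃ l < w.L, (i₁ ≤ l ∧ l < i₂) ∧ c ∈ w.step l := by
  obtain ⟨b₁, b₂, S₁, S₃, hb₁, hb₂, n₁, n₂, n₃, rfl, ⟨w₁, v₁, s₁, t₁, rfl⟩, ⟨w₂, v₂, s₂, t₂, rfl⟩,
    ⟨w₃, v₃, s₃, t₃, rfl⟩⟩ := h
  have pos : ∀ w : Walk, w.cover.Nonempty → 0 < w.L := fun w ⟨c, hc⟩ => by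
    obtain ⟨l, hl, -⟩ := (w.mem_cover c).1 hc
    omega
  have p₁ := pos _ n₁
  have p₂ := pos _ n₂
  have p₃ := pos _ n₃
  obtain ⟨θ, hθ, e0, e1, e2, e3⟩ := exists_nodes ha hb p₁ p₂ p₃
  have j₁ : w₁.y w₁.L = w₂.y 0 := t₁.trans s₂.symm
  have j₂ : (w₁.append w₂).y (w₁.append w₂).L = w₃.y 0 :=
    (Walk.append_y_right j₁ _).trans (t₂.trans s₃.symm)
  have hL : (w₁.append w₂).L = w₁.L + w₂.L := rfl
  have hL' : ((w₁.append w₂).append w₃).L = w₁.L + w₂.L + w₃.L := rfl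
  have q₁ : ∀ l < w₁.L, ((w₁.append w₂).append w₃).step l = w₁.step l := fun l hl => by
    rw [Walk.step_left _ _ (by omega), Walk.step_left _ _ hl]
  have q₂ : ∀ l < w₂.L, ((w₁.append w₂).append w₃).step (w₁.L + l) = w₂.step l := fun l hl => by
    rw [Walk.step_left _ _ (by omega), Walk.step_right j₁]
  have q₃ : ∀ l, ((w₁.append w₂).append w₃).step (w₁.L + w₂.L + l) = w₃.step l :=
    Walk.step_right j₂
  refine ⟨(w₁.append w₂).append w₃, θ, w₁.L, w₁.L + w₂.L, (v₁.append v₂ j₁).append v₃ j₂, hθ,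
    e0, e1, e2, e3, ?_, ?_, fun c => ?_, fun c => ?_⟩
  · rintro j (rfl | rfl | rfl | rfl)
    · rw [Walk.append_y_left _ _ (Nat.zero_le _), Walk.append_y_left _ _ (Nat.zero_le _), s₁]
      exact hb₁
    · rw [Walk.append_y_left _ _ (by omega), Walk.append_y_left _ _ le_rfl, t₁]
      exact hb₁
    · rw [Walk.append_y_left _ _ hL.ge, Walk.append_y_right j₁, t₂]
      exact hb₂
    · rw [hL', ← hL, Walk.append_y_right j₂, t₃]
      exact hb₂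
  · intro l hl hk
    have h1 : l < (w₁.append w₂).L := by omega
    have h2 : l + 1 < (w₁.append w₂).L ∧ (w₁.append w₂).keep l := by
      simpa only [Walk.append.eq_1 (w₁.append w₂), if_pos h1] using hk
    have h3 : l < w₁.L := by omega
    have h4 : l + 1 < w₁.L ∧ w₁.keep l := by
      simpa only [Walk.append, if_pos h3] using h2.2
    omega
  · rw [mem_union, Walk.mem_cover, Walk.mem_cover]
    constructor
    · rintro (⟨l, hl, h⟩ | ⟨l, hl, h⟩)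
      · exact ⟨l, by omega, Or.inl hl, (q₁ l hl).symm ▸ h⟩
      · exact ⟨_, by omega, Or.inr (Nat.le_add_right _ l), (q₃ l).symm ▸ h⟩
    · rintro ⟨l, hl, h1 | h1, h⟩
      · exact Or.inl ⟨l, h1, q₁ l h1 ▸ h⟩
      · obtain ⟨k, rfl⟩ := Nat.exists_eq_add_of_le h1
        exact Or.inr ⟨k, by omega, q₃ k ▸ h⟩
  · rw [Walk.mem_cover]
    constructor
    · rintro ⟨l, hl, h⟩
      exact ⟨w₁.L + l, by omega, ⟨by omega, by omega⟩, (q₂ l hl).symm ▸ h⟩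
    · rintro ⟨l, hl, h1, h⟩
      obtain ⟨k, rfl⟩ := Nat.exists_eq_add_of_le h1.1
      exact ⟨k, by omega, q₂ k (by omega) ▸ h⟩

end Pool.Agent.MP_4e44b6_al.H30
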