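import Pool.Agent.MP_4e44b6_al.H30.Fiber

/-! The complement of a real algebraic hypersurface has finitely many connected components. -/

namespace Pool.Agent.MP_4e44b6_al.H30

open Set Polynomial Filter Topology

theorem exists_separable_model {R : Type*} [CommRing R] [IsDomain R] [CharZero R] {P : R[X]}
    (hP : P ≠ 0) : ∃ (H A B G : R[X]) (D e : R) (k : ℕ), H ≠ 0 ∧ D ≠ 0 ∧ e ≠ 0 ∧
      A * H + B * H.derivative = C D ∧ P * G = C e * H ^ k := by
  let K := FractionRing R
  have hinj : Function.Injective (algebraMap R K) := IsFractionRing.injective R K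
  have hmap : Function.Injective (Polynomial.map (algebraMap R K)) := map_injective _ hinj
  have hPK : P.map (algebraMap R K) ≠ 0 := fun h => hP (hmap (by rw [h, Polynomial.map_zero]))
  obtain ⟨H₀, k, hsq, -, γ, hγ⟩ := exists_squarefree_dvd_pow_of_ne_zero hPK
  obtain ⟨α, β, hαβ⟩ := (PerfectField.separable_iff_squarefree.2 hsq)
  have clear : ∀ Q : K[X], ∃ (Q' : R[X]) (b : R), b ≠ 0 ∧
      Q'.map (algebraMap R K) = C (algebraMap R K b) * Q := by
    intro Q
    obtain ⟨b, hb, h⟩ := IsLocalization.integerNormalization_spec (nonZeroDivisors R) Q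
    refine ⟨IsLocalization.integerNormalization (nonZeroDivisors R) Q, b,
      nonZeroDivisors.ne_zero hb, ?_⟩
    rw [h, ← smul_eq_C_mul, algebraMap_smul]
  obtain ⟨H, d, hd, hH⟩ := clear H₀
  obtain ⟨A, a, ha, hA⟩ := clear α
  obtain ⟨B, b, hb, hB⟩ := clear β
  obtain ⟨G, g, hg, hG⟩ := clear γ
  have hd' : algebraMap R K d ≠ 0 := fun h => hd (hinj (by rw [h, map_zero]))
  refine ⟨H, C b * A, C a * B, C (d ^ k) * G, a * b * d, g, k, ?_, by simp [ha, hb, hd], hg,
    ?_, ?_⟩
  · intro h
    rw [h, Polynomial.map_zero] at hH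
    rcases mul_eq_zero.1 hH.symm with h1 | h1
    · exact hd' (C_eq_zero.1 h1)
    · exact hsq.ne_zero h1
  · apply hmap
    simp only [Polynomial.map_add, Polynomial.map_mul, map_C, ← derivative_map, hH, hA, hB,
      derivative_mul, derivative_C, zero_mul, zero_add, map_mul]
    linear_combination (C (algebraMap R K a) * C (algebraMap R K b) * C (algebraMap R K d)) * hαβ
  · apply hmap
    simp only [Polynomial.map_mul, map_C, Polynomial.map_pow, hH, hG, map_pow, mul_pow]
    linear_combination (-(C (algebraMap R K g) * C (algebraMap R K d) ^ k)) * hγ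

theorem exists_line_poly {n : ℕ} (D : MvPolynomial (Fin n) ℝ) (a b : Fin n → ℝ) :
    ∃ p : ℝ[X], ∀ s : ℝ, p.eval s = MvPolynomial.eval (a + s • (b - a)) D := by
  induction D using MvPolynomial.induction_on with
  | C c => exact ⟨C c, fun s => by simp⟩
  | add p q hp hq =>
    obtain ⟨p', hp'⟩ := hp
    obtain ⟨q', hq'⟩ := hq
    exact ⟨p' + q', fun s => by simp [hp', hq']⟩
  | mul_X p i hp =>
    obtain ⟨p', hp'⟩ := hp
    exact ⟨p' * (C (a i) + X * C (b i - a i)), fun s => by simp [hp']⟩

theorem frequently_eval_ne_zero {p : ℝ[X]} (hp : p ≠ 0) (s : ℝ) :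
    ∃ᶠ t in 𝓝[≠] s, p.eval t ≠ 0 := by
  have hZ : {r | p.IsRoot r}.Finite := p.finite_setOfPred_isRoot hp
  have : ∀ᶠ t in 𝓝[≠] s, t ∉ {r | p.IsRoot r} := by
    have h1 : IsClosed ({r | p.IsRoot r} \ {s}) := (hZ.subset sdiff_subset).isClosed
    have h2 : ∀ᶠ t in 𝓝 s, t ∉ ({r | p.IsRoot r} \ {s}) := h1.isOpen_compl.mem_nhds (by simp)
    filter_upwards [nhdsWithin_le_nhds h2, self_mem_nhdsWithin] with t h3 h4 h5
    exact h3 ⟨h5, h4⟩
  exact this.frequently

theorem dense_eval_ne_zero {n : ℕ} {D : MvPolynomial (Fin n) ℝ} (hD : D ≠ 0) :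
    Dense {x : Fin n → ℝ | MvPolynomial.eval x D ≠ 0} := by
  have : ∃ b, MvPolynomial.eval b D ≠ 0 := by
    by_contra h
    push Not at h
    exact hD (MvPolynomial.funext fun x => by rw [h x, map_zero])
  obtain ⟨b, hb⟩ := this
  intro a
  obtain ⟨p, hp⟩ := exists_line_poly D a b
  have hp0 : p ≠ 0 := fun h => hb (by have := hp 1; simpa [h] using this.symm)
  have hc : Continuous fun s : ℝ => a + s • (b - a) := by fun_prop
  have ht : Tendsto (fun s : ℝ => a + s • (b - a)) (𝓝[≠] 0) (𝓝 a) := by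
    have := (hc.tendsto 0).mono_left (nhdsWithin_le_nhds (s := {0}ᶜ))
    simpa using this
  refine mem_closure_of_frequently_of_tendsto ?_ ht
  exact (frequently_eval_ne_zero hp0 0).mono fun t h => by rw [hp] at h; exact h

theorem finConn_eval_ne_zero (n : ℕ) (Q : MvPolynomial (Fin n) ℝ) :
    FinConn {x : Fin n → ℝ | MvPolynomial.eval x Q ≠ 0} := by
  induction n with
  | zero =>
    exact ⟨{{x | MvPolynomial.eval x Q ≠ 0}}, finite_singleton _,
      by rintro _ rfl; exact (subsingleton_of_subsingleton).isPreconnected, by simp⟩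
  | succ n ih =>
    set P := MvPolynomial.finSuccEquiv ℝ n Q with hP
    have hev : ∀ (x : Fin n → ℝ) (y : ℝ) (R : (MvPolynomial (Fin n) ℝ)[X]),
        MvPolynomial.eval (Fin.cons y x : Fin (n + 1) → ℝ) ((MvPolynomial.finSuccEquiv ℝ n).symm R)
          = (R.map (MvPolynomial.eval x)).eval y := fun x y R => by
      rw [MvPolynomial.eval_eq_eval_mv_eval', AlgEquiv.apply_symm_apply]
    by_cases hQ : Q = 0
    · exact ⟨∅, finite_empty, by simp, by simp [hQ]⟩
    have hP0 : P ≠ 0 := fun h => hQ ((MvPolynomial.finSuccEquiv ℝ n).injective (by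
      rw [← hP, h, map_zero]))
    obtain ⟨H, A, B, G, D, e, k, hH, hD, he, hAB, hG⟩ := exists_separable_model hP0
    set D' := D * e * H.leadingCoeff with hD'
    have hD'0 : D' ≠ 0 := by simp [hD', hD, he, hH]
    set U := {x : Fin n → ℝ | MvPolynomial.eval x D' ≠ 0} with hU
    have hUo : IsOpen U := isOpen_ne_fun D'.continuous_eval continuous_const
    have hfin := (ih D').finite_components subset_rfl
    have hU3 : ∀ x ∈ U, MvPolynomial.eval x D ≠ 0 ∧ MvPolynomial.eval x e ≠ 0 ∧
        MvPolynomial.eval x H.leadingCoeff ≠ 0 := fun x hx => by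
      have : MvPolynomial.eval x D' ≠ 0 := hx
      rw [hD', map_mul, map_mul] at this
      simp only [ne_eq, mul_eq_zero, not_or] at this
      exact ⟨this.1.1, this.1.2, this.2⟩
    have h1 : FinConn (⋃ K ∈ {K | ∃ x ∈ U, K = connectedComponentIn U x},
        {z : (Fin n → ℝ) × ℝ | z.1 ∈ K ∧ (H.map (MvPolynomial.eval z.1)).eval z.2 ≠ 0}) := by
      refine finConn_biUnion hfin ?_
      rintro _ ⟨x₀, -, rfl⟩
      refine finConn_fiber (n := H.natDegree) (h := fun x => H.map (MvPolynomial.eval x))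
        (fun i => ?_) (fun x => natDegree_map_le) hUo.connectedComponentIn
        isPreconnected_connectedComponentIn ?_ ?_
      · simp only [coeff_map]
        exact (H.coeff i).continuous_eval
      · intro x hx
        rw [coeff_map]
        exact (hU3 x (connectedComponentIn_subset _ _ hx)).2.2
      · intro x hx y hy hy'
        have := congrArg (fun R => (R.map (MvPolynomial.eval x)).eval y) hAB
        simp only [Polynomial.map_add, Polynomial.map_mul, eval_add, eval_mul, hy,
          ← derivative_map, hy', map_C, eval_C, mul_zero, add_zero] at this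
        exact (hU3 x (connectedComponentIn_subset _ _ hx)).1 this.symm
    have h2 : (⋃ K ∈ {K | ∃ x ∈ U, K = connectedComponentIn U x},
        {z : (Fin n → ℝ) × ℝ | z.1 ∈ K ∧ (H.map (MvPolynomial.eval z.1)).eval z.2 ≠ 0}) =
        {z : (Fin n → ℝ) × ℝ | z.1 ∈ U ∧ (H.map (MvPolynomial.eval z.1)).eval z.2 ≠ 0} := by
      ext z
      simp only [mem_iUnion]
      constructor
      · rintro ⟨_, ⟨x, -, rfl⟩, hz⟩
        exact ⟨connectedComponentIn_subset _ _ hz.1, hz.2⟩
      · intro hz
        exact ⟨_, ⟨z.1, hz.1, rfl⟩, mem_connectedComponentIn hz.1, hz.2⟩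
    rw [h2] at h1
    have hcons : Continuous fun z : (Fin n → ℝ) × ℝ => (Fin.cons z.2 z.1 : Fin (n + 1) → ℝ) :=
      Continuous.finCons continuous_snd continuous_fst
    have h3 := h1.image hcons.continuousOn
    have hVo : IsOpen {x : Fin (n + 1) → ℝ | MvPolynomial.eval x Q ≠ 0} :=
      isOpen_ne_fun Q.continuous_eval continuous_const
    refine finConn_of_reach h3 ?_ ?_
    · rintro _ ⟨⟨x, y⟩, ⟨hx, hy⟩, rfl⟩
      show MvPolynomial.eval (Fin.cons y x : Fin (n + 1) → ℝ) Q ≠ 0
      rw [MvPolynomial.eval_eq_eval_mv_eval', ← hP]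
      intro h0
      have := congrArg (fun R => (R.map (MvPolynomial.eval x)).eval y) hG
      simp only [Polynomial.map_mul, eval_mul, h0, zero_mul, map_C, eval_C, Polynomial.map_pow,
        eval_pow] at this
      rcases mul_eq_zero.1 this.symm with h | h
      · exact (hU3 x hx).2.1 h
      · exact hy (eq_zero_of_pow_eq_zero h)
    · intro v hv
      have hne : (MvPolynomial.finSuccEquiv ℝ n).symm (C D' * H) ≠ 0 := by
        simp [hD'0, hH]
      obtain ⟨u, hu1, hu2⟩ := (dense_eval_ne_zero hne).inter_open_nonempty _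
        hVo.connectedComponentIn ⟨v, mem_connectedComponentIn hv⟩
      refine ⟨u, ⟨(Fin.tail u, u 0), ?_, Fin.cons_self_tail u⟩, hu1⟩
      have h4 : MvPolynomial.eval u ((MvPolynomial.finSuccEquiv ℝ n).symm (C D' * H)) ≠ 0 := hu2
      rw [← Fin.cons_self_tail u, hev] at h4
      simp only [Polynomial.map_mul, map_C, eval_mul, eval_C, ne_eq, mul_eq_zero, not_or] at h4
      exact ⟨h4.1, h4.2⟩

end Pool.Agent.MP_4e44b6_al.H30
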