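import Mathlib

/-! Definitions: weighted homogeneous noncommutative polynomials, their images, and the sets that
occur on the quaternions. -/

namespace Pool.Agent.MP_4e44b6_al.H30

open Set Quaternion

/-- `p` is a linear combination of monomials of weighted degree `d` for the weights `w`. -/
def IsWHom {K : Type} [Field K] {m : ℕ} (w : Fin m → ℤ) (d : ℤ) (p : FreeAlgebra K (Fin m)) :
    Prop :=
  p ∈ Submodule.span K {q : FreeAlgebra K (Fin m) |
    ∃ l : List (Fin m), (l.map w).sum = d ∧ q = (l.map (FreeAlgebra.ι K)).prod}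

/-- The image of `p` on the algebra `A`. -/
def image {K : Type} [Field K] {m : ℕ} (A : Type) [Ring A] [Algebra K A]
    (p : FreeAlgebra K (Fin m)) : Set A :=
  range fun a : Fin m → A => FreeAlgebra.lift K a p

/-- Zero together with the nonzero quaternions `q` with `Re q / |q| ∈ S`. -/
def coneOver (S : Set ℝ) : Set ℍ[ℝ] := {q | q = 0 ∨ q.re / ‖q‖ ∈ S}

/-- The admissible sets of values of `Re q / |q|`. -/
def Admissible (S : Set ℝ) : Prop :=
  S ⊆ {-1, 1} ∨ S = {0} ∨
    (S ⊆ Icc (-1) 1 ∧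
      (∃ F : Finset (Set ℝ), (∀ I ∈ F, I.OrdConnected ∧ I.Nontrivial) ∧ S = ⋃ I ∈ F, I) ∧
      (closure ((fun c => |c|) '' S)).OrdConnected ∧
      (0 ∈ closure ((fun c => |c|) '' S) ∨ 1 ∈ closure ((fun c => |c|) '' S)))

end Pool.Agent.MP_4e44b6_al.H30
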