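import Mathlib

/-! The complement of the roots of a continuous family of separable real polynomials over a
connected base has finitely many connected components. -/

namespace Pool.Agent.MP_4e44b6_al.H30

open Set Polynomial Filter Topology

/-- `U` is a finite union of preconnected sets. -/
def FinConn {X : Type*} [TopologicalSpace X] (U : Set X) : Prop :=
  ∃ 𝒦 : Set (Set X), 𝒦.Finite ∧ (∀ K ∈ 𝒦, IsPreconnected K) ∧ ⋃₀ 𝒦 = U

theorem FinConn.finite_components {X : Type*} [TopologicalSpace X] {U V : Set X} (hU : FinConn U)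
    (hUV : U ⊆ V) : {K | ∃ x ∈ U, K = connectedComponentIn V x}.Finite := by
  classical
  obtain ⟨𝒦, hfin, hconn, rfl⟩ := hU
  refine (hfin.image fun K => if h : K.Nonempty then connectedComponentIn V h.some else ∅).subset ?_
  rintro _ ⟨x, ⟨K, hK, hx⟩, rfl⟩
  refine ⟨K, hK, ?_⟩
  have hne : K.Nonempty := ⟨x, hx⟩
  simp only [hne, dif_pos]
  have hKV : K ⊆ V := (subset_sUnion_of_mem hK).trans hUV
  exact (connectedComponentIn_eq
    ((hconn K hK).subset_connectedComponentIn hx hKV hne.some_mem)).symm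

theorem finConn_of_reach {X : Type*} [TopologicalSpace X] {U V : Set X} (hU : FinConn U)
    (hUV : U ⊆ V) (h : ∀ v ∈ V, ∃ u ∈ U, u ∈ connectedComponentIn V v) : FinConn V := by
  refine ⟨_, hU.finite_components hUV, ?_, ?_⟩
  · rintro _ ⟨x, -, rfl⟩
    exact isPreconnected_connectedComponentIn
  · apply subset_antisymm
    · rintro y ⟨_, ⟨x, -, rfl⟩, hy⟩
      exact connectedComponentIn_subset _ _ hy
    · intro v hv
      obtain ⟨u, hu, huv⟩ := h v hv
      refine ⟨_, ⟨u, hu, rfl⟩, ?_⟩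
      rw [← connectedComponentIn_eq huv]
      exact mem_connectedComponentIn hv

theorem FinConn.image {X Y : Type*} [TopologicalSpace X] [TopologicalSpace Y] {U : Set X}
    (hU : FinConn U) {f : X → Y} (hf : ContinuousOn f U) : FinConn (f '' U) := by
  obtain ⟨𝒦, hfin, hconn, rfl⟩ := hU
  refine ⟨(fun K => f '' K) '' 𝒦, hfin.image _, ?_, ?_⟩
  · rintro _ ⟨K, hK, rfl⟩
    exact (hconn K hK).image f (hf.mono (subset_sUnion_of_mem hK))
  · rw [sUnion_image, sUnion_eq_biUnion, image_iUnion₂]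

theorem finConn_biUnion {X ι : Type*} [TopologicalSpace X] {s : Set ι} (hs : s.Finite)
    {U : ι → Set X} (hU : ∀ i ∈ s, FinConn (U i)) : FinConn (⋃ i ∈ s, U i) := by
  choose! 𝒦 hfin hconn hU using hU
  refine ⟨⋃ i ∈ s, 𝒦 i, hs.biUnion hfin, ?_, ?_⟩
  · intro K hK
    simp only [mem_iUnion] at hK
    obtain ⟨i, hi, hK⟩ := hK
    exact hconn i hi K hK
  · ext x
    simp only [mem_sUnion, mem_iUnion]
    constructor
    · rintro ⟨K, ⟨i, hi, hK⟩, hx⟩
      exact ⟨i, hi, by rw [← hU i hi]; exact ⟨K, hK, hx⟩⟩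
    · rintro ⟨i, hi, hx⟩
      rw [← hU i hi] at hx
      obtain ⟨K, hK, hx⟩ := hx
      exact ⟨K, ⟨i, hi, hK⟩, hx⟩

theorem finConn_compl_finite {Z : Set ℝ} (hZ : Z.Finite) : FinConn Zᶜ := by
  refine ⟨(fun A => {y | y ∉ Z ∧ {z ∈ Z | z < y} = A}) '' (𝒫 Z), hZ.powerset.image _, ?_, ?_⟩
  · rintro _ ⟨A, -, rfl⟩
    apply OrdConnected.isPreconnected
    refine ⟨fun a ha b hb y hy => ?_⟩
    have key : ∀ z ∈ Z, z < b → z < a := fun z hz hzb => by
      have : z ∈ {z ∈ Z | z < b} := ⟨hz, hzb⟩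
      rw [hb.2, ← ha.2] at this
      exact this.2
    constructor
    · intro hyZ
      rcases hy.2.eq_or_lt with h | h
      · exact hb.1 (h ▸ hyZ)
      · exact absurd (key y hyZ h) (not_lt.2 hy.1)
    · rw [← ha.2]
      ext z
      exact ⟨fun h => ⟨h.1, key z h.1 (h.2.trans_le hy.2)⟩, fun h => ⟨h.1, h.2.trans_le hy.1⟩⟩
  · apply subset_antisymm
    · rintro y ⟨_, ⟨A, -, rfl⟩, hy⟩
      exact hy.1
    · intro y hy
      exact ⟨_, ⟨{z ∈ Z | z < y}, fun z hz => hz.1, rfl⟩, hy, rfl⟩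

variable {E : Type*} [NormedAddCommGroup E] [NormedSpace ℝ E]

omit [NormedSpace ℝ E] in
theorem continuous_eval_family {n : ℕ} {h : E → ℝ[X]} (hc : ∀ i, Continuous fun x => (h x).coeff i)
    (hn : ∀ x, (h x).natDegree ≤ n) : Continuous fun z : E × ℝ => (h z.1).eval z.2 := by
  have : (fun z : E × ℝ => (h z.1).eval z.2) =
      fun z => ∑ i ∈ Finset.range (n + 1), (h z.1).coeff i * z.2 ^ i := by
    funext z
    exact eval_eq_sum_range' (Nat.lt_succ_of_le (hn z.1)) _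
  rw [this]
  exact continuous_finsetSum _ fun i _ =>
    ((hc i).comp continuous_fst).mul (continuous_snd.pow i)

omit [NormedSpace ℝ E] in
theorem eventually_no_large_root {n : ℕ} {h : E → ℝ[X]}
    (hc : ∀ i, Continuous fun x => (h x).coeff i) (hn : ∀ x, (h x).natDegree ≤ n) {x₁ : E}
    (hx : (h x₁).coeff n ≠ 0) :
    ∃ M : ℝ, ∀ᶠ x in 𝓝 x₁, ∀ y, M ≤ |y| → (h x).eval y ≠ 0 := by
  have hcont : ContinuousAt
      (fun x => (∑ i ∈ Finset.range n, |(h x).coeff i|) / |(h x).coeff n| + 1) x₁ := by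
    refine ContinuousAt.add (ContinuousAt.div ?_ (hc n).abs.continuousAt (abs_ne_zero.2 hx))
      continuousAt_const
    exact (continuous_finsetSum _ fun i _ => (hc i).abs).continuousAt
  refine ⟨(∑ i ∈ Finset.range n, |(h x₁).coeff i|) / |(h x₁).coeff n| + 1 + 1, ?_⟩
  filter_upwards [hcont.eventually (gt_mem_nhds (lt_add_one _)),
    (hc n).continuousAt.eventually_ne hx] with x h1 h2 y hy hroot
  have hdeg : (h x).natDegree = n := le_antisymm (hn x) (le_natDegree_of_ne_zero h2)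
  have hne : h x ≠ 0 := fun h0 => h2 (by rw [h0]; simp)
  have h3 := IsRoot.norm_lt_cauchyBound hne hroot
  have h4 : ((cauchyBound (h x) : NNReal) : ℝ) ≤
      (∑ i ∈ Finset.range n, |(h x).coeff i|) / |(h x).coeff n| + 1 := by
    unfold cauchyBound
    rw [leadingCoeff, hdeg]
    push_cast
    rw [Real.norm_eq_abs]
    gcongr
    have : (Finset.range n).sup (fun i => ‖(h x).coeff i‖₊) ≤
        ∑ i ∈ Finset.range n, ‖(h x).coeff i‖₊ :=
      Finset.sup_le fun i hi =>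
        Finset.single_le_sum (f := fun i => ‖(h x).coeff i‖₊) (fun _ _ => zero_le) hi
    have h5 : (((Finset.range n).sup (fun i => ‖(h x).coeff i‖₊) : NNReal) : ℝ) ≤
        ((∑ i ∈ Finset.range n, ‖(h x).coeff i‖₊ : NNReal) : ℝ) := by exact_mod_cast this
    simpa using h5
  have h6 : |y| < ((cauchyBound (h x) : NNReal) : ℝ) := by exact_mod_cast h3
  linarith

theorem one_side_free {p : ℝ[X]} {a b y : ℝ} (hy : y ∈ Icc a b)
    (hd : ∀ t ∈ Icc a b, p.derivative.eval t ≠ 0) (hp : p.eval y ≠ 0) :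
    (∀ t ∈ Icc a y, p.eval t ≠ 0) ∨ ∀ t ∈ Icc y b, p.eval t ≠ 0 := by
  by_contra hcon
  push Not at hcon
  obtain ⟨⟨s, hs, hs0⟩, ⟨t, ht, ht0⟩⟩ := hcon
  have hst : s < t := by
    rcases hs.2.eq_or_lt with h | h
    · exact absurd (h ▸ hs0) hp
    · exact h.trans_le ht.1
  obtain ⟨c, hc, hc0⟩ := exists_deriv_eq_zero (f := fun x => p.eval x) hst
    p.continuous.continuousOn (by simp [hs0, ht0])
  rw [p.deriv] at hc0
  exact hd c ⟨hs.1.trans hc.1.le, hc.2.le.trans ht.2⟩ hc0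

theorem exists_root_interval {p : ℝ[X]} {r : ℝ} (hr : p.eval r = 0)
    (hd : p.derivative.eval r ≠ 0) :
    ∃ δ > 0, (∀ t ∈ Icc (r - δ) (r + δ), p.derivative.eval t ≠ 0) ∧ p.eval (r - δ) ≠ 0 ∧
      p.eval (r + δ) ≠ 0 := by
  have h1 := p.derivative.continuous.continuousAt.eventually_ne hd
  obtain ⟨ε, hε, hb⟩ := Metric.eventually_nhds_iff.1 h1
  have hd' : ∀ t ∈ Icc (r - ε / 2) (r + ε / 2), p.derivative.eval t ≠ 0 := fun t ht =>
    hb (by rw [Real.dist_eq, abs_lt]; constructor <;> linarith [ht.1, ht.2])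
  refine ⟨ε / 2, by positivity, hd', fun h0 => ?_, fun h0 => ?_⟩
  · obtain ⟨c, hc, hc0⟩ := exists_deriv_eq_zero (f := fun x => p.eval x)
      (show r - ε / 2 < r by linarith) p.continuous.continuousOn (by simp [hr, h0])
    rw [p.deriv] at hc0
    exact hd' c ⟨hc.1.le, by linarith [hc.2]⟩ hc0
  · obtain ⟨c, hc, hc0⟩ := exists_deriv_eq_zero (f := fun x => p.eval x)
      (show r < r + ε / 2 by linarith) p.continuous.continuousOn (by simp [hr, h0])
    rw [p.deriv] at hc0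
    exact hd' c ⟨by linarith [hc.1], hc.2.le⟩ hc0

theorem local_reach {n : ℕ} {h : E → ℝ[X]} (hc : ∀ i, Continuous fun x => (h x).coeff i)
    (hn : ∀ x, (h x).natDegree ≤ n) {C : Set E} (hC : IsOpen C) {x₁ : E} (hx₁ : x₁ ∈ C)
    (hlc : (h x₁).coeff n ≠ 0)
    (hsep : ∀ y, (h x₁).eval y = 0 → (h x₁).derivative.eval y ≠ 0) :
    ∀ᶠ x in 𝓝 x₁, ∀ y, (h x).eval y ≠ 0 → ∃ y₁,
      (x₁, y₁) ∈ connectedComponentIn {z : E × ℝ | z.1 ∈ C ∧ (h z.1).eval z.2 ≠ 0} (x, y) := by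
  set W := {z : E × ℝ | z.1 ∈ C ∧ (h z.1).eval z.2 ≠ 0} with hW
  have hne : h x₁ ≠ 0 := fun h0 => hlc (by rw [h0]; simp)
  have hZ : {r | (h x₁).eval r = 0}.Finite := (h x₁).finite_setOfPred_isRoot hne
  have hF := continuous_eval_family hc hn
  have hF' : Continuous fun z : E × ℝ => (h z.1).derivative.eval z.2 :=
    continuous_eval_family (n := n) (h := fun x => (h x).derivative)
      (fun i => by simp only [coeff_derivative]; exact (hc _).mul continuous_const)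
      (fun x => (natDegree_derivative_le _).trans ((Nat.sub_le _ _).trans (hn x)))
  choose! δ hδ hδd hδl hδr using fun r (hr : (h x₁).eval r = 0) =>
    exists_root_interval hr (hsep r hr)
  obtain ⟨M, hM⟩ := eventually_no_large_root hc hn hlc
  have hK : IsCompact (Icc (-M) M \ ⋃ r ∈ {r | (h x₁).eval r = 0}, Ioo (r - δ r) (r + δ r)) :=
    isCompact_Icc.diff (isOpen_biUnion fun _ _ => isOpen_Ioo)
  have e1 : ∀ᶠ x in 𝓝 x₁, ∀ y ∈ (Icc (-M) M \ ⋃ r ∈ {r | (h x₁).eval r = 0},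
      Ioo (r - δ r) (r + δ r)), (h x).eval y ≠ 0 := by
    refine hK.eventually_forall_of_forall_eventually (P := fun x y => (h x).eval y ≠ 0)
      fun y hy => hF.continuousAt.eventually_ne fun h0 => hy.2 ?_
    have := hδ y h0
    exact mem_biUnion (x := y) h0 ⟨by linarith, by linarith⟩
  have e2 : ∀ᶠ x in 𝓝 x₁, ∀ r ∈ {r | (h x₁).eval r = 0},
      (∀ t ∈ Icc (r - δ r) (r + δ r), (h x).derivative.eval t ≠ 0) ∧
        (h x).eval (r - δ r) ≠ 0 ∧ (h x).eval (r + δ r) ≠ 0 := by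
    rw [eventually_all_finite hZ]
    intro r hr
    refine Eventually.and ?_ (Eventually.and ?_ ?_)
    · exact isCompact_Icc.eventually_forall_of_forall_eventually
        (P := fun x y => (h x).derivative.eval y ≠ 0)
        fun y hy => hF'.continuousAt.eventually_ne (hδd r hr y hy)
    · exact (hF.comp (Continuous.prodMk_left (r - δ r))).continuousAt.eventually_ne (hδl r hr)
    · exact (hF.comp (Continuous.prodMk_left (r + δ r))).continuousAt.eventually_ne (hδr r hr)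
  obtain ⟨ε, hε, hb⟩ := Metric.eventually_nhds_iff_ball.1
    ((hM.and (e1.and e2)).and (hC.mem_nhds hx₁))
  have horiz : ∀ x ∈ Metric.ball x₁ ε, ∀ y, (∀ x' ∈ Metric.ball x₁ ε, (h x').eval y ≠ 0) →
      (x₁, y) ∈ connectedComponentIn W (x, y) := by
    intro x hx y hy
    have hpre : IsPreconnected (Metric.ball x₁ ε ×ˢ ({y} : Set ℝ)) :=
      (convex_ball x₁ ε).isPreconnected.prod isPreconnected_singleton
    refine hpre.subset_connectedComponentIn (mk_mem_prod hx rfl) ?_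
      (mk_mem_prod (Metric.mem_ball_self hε) rfl)
    rintro ⟨x', y'⟩ ⟨h1, h2⟩
    obtain rfl : y' = y := h2
    exact ⟨(hb x' h1).2, hy x' h1⟩
  have vert : ∀ x ∈ Metric.ball x₁ ε, ∀ a b, (∀ t ∈ Icc a b, (h x).eval t ≠ 0) →
      ∀ s ∈ Icc a b, ∀ t ∈ Icc a b, (x, t) ∈ connectedComponentIn W (x, s) := by
    intro x hx a b hab s hs t ht
    have hpre : IsPreconnected (({x} : Set E) ×ˢ Icc a b) :=
      isPreconnected_singleton.prod isPreconnected_Icc
    refine hpre.subset_connectedComponentIn (mk_mem_prod rfl hs) ?_ (mk_mem_prod rfl ht)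
    rintro ⟨x', y'⟩ ⟨h1, h2⟩
    obtain rfl : x' = x := h1
    exact ⟨(hb x' hx).2, hab y' h2⟩
  filter_upwards [Metric.ball_mem_nhds x₁ hε] with x hx y hy
  by_cases hyM : M ≤ |y|
  · exact ⟨y, horiz x hx y fun x' hx' => (hb x' hx').1.1 y hyM⟩
  have hyM' : y ∈ Icc (-M) M := by
    have := abs_lt.1 (not_le.1 hyM)
    exact ⟨this.1.le, this.2.le⟩
  by_cases hyU : y ∈ ⋃ r ∈ {r | (h x₁).eval r = 0}, Ioo (r - δ r) (r + δ r)
  · simp only [mem_iUnion] at hyU
    obtain ⟨r, hr, hyr⟩ := hyU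
    have hyr' : y ∈ Icc (r - δ r) (r + δ r) := Ioo_subset_Icc_self hyr
    rcases one_side_free hyr' ((hb x hx).1.2.2 r hr).1 hy with h1 | h1
    · refine ⟨r - δ r, ?_⟩
      have a1 := vert x hx _ _ h1 y ⟨hyr'.1, le_rfl⟩ (r - δ r) ⟨le_rfl, hyr'.1⟩
      rw [connectedComponentIn_eq a1]
      exact horiz x hx _ fun x' hx' => ((hb x' hx').1.2.2 r hr).2.1
    · refine ⟨r + δ r, ?_⟩
      have a1 := vert x hx _ _ h1 y ⟨le_rfl, hyr'.2⟩ (r + δ r) ⟨hyr'.2, le_rfl⟩
      rw [connectedComponentIn_eq a1]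
      exact horiz x hx _ fun x' hx' => ((hb x' hx').1.2.2 r hr).2.2
  · exact ⟨y, horiz x hx y fun x' hx' => (hb x' hx').1.2.1 y ⟨hyM', hyU⟩⟩

theorem finConn_fiber {n : ℕ} {h : E → ℝ[X]} (hc : ∀ i, Continuous fun x => (h x).coeff i)
    (hn : ∀ x, (h x).natDegree ≤ n) {C : Set E} (hC : IsOpen C) (hCc : IsPreconnected C)
    (hlc : ∀ x ∈ C, (h x).coeff n ≠ 0)
    (hsep : ∀ x ∈ C, ∀ y, (h x).eval y = 0 → (h x).derivative.eval y ≠ 0) :
    FinConn {z : E × ℝ | z.1 ∈ C ∧ (h z.1).eval z.2 ≠ 0} := by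
  set W := {z : E × ℝ | z.1 ∈ C ∧ (h z.1).eval z.2 ≠ 0} with hW
  rcases C.eq_empty_or_nonempty with rfl | ⟨x₀, hx₀⟩
  · exact ⟨∅, finite_empty, by simp, by simp [hW]⟩
  have hWo : IsOpen W := (hC.preimage continuous_fst).inter
    (isOpen_ne_fun (continuous_eval_family hc hn) continuous_const)
  have hne : h x₀ ≠ 0 := fun h0 => hlc x₀ hx₀ (by rw [h0]; simp)
  have hZ : {r | (h x₀).eval r = 0}.Finite := (h x₀).finite_setOfPred_isRoot hne
  have hU := (finConn_compl_finite hZ).image (f := fun y => (x₀, y))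
    (Continuous.prodMk_right x₀).continuousOn
  refine finConn_of_reach hU ?_ ?_
  · rintro _ ⟨y, hy, rfl⟩
    exact ⟨hx₀, hy⟩
  · intro w hw
    set K := connectedComponentIn W w with hK
    have hKo : IsOpen K := hWo.connectedComponentIn
    have hG : IsOpen (Prod.fst '' K) := isOpenMap_fst _ hKo
    have hsub : C ⊆ Prod.fst '' K := by
      refine hCc.subset_of_closure_inter_subset hG
        ⟨w.1, hw.1, w, mem_connectedComponentIn hw, rfl⟩ ?_
      rintro x₁ ⟨hx₁, hx₁C⟩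
      have hl := local_reach hc hn hC hx₁C (hlc x₁ hx₁C) (hsep x₁ hx₁C)
      obtain ⟨x, hx, ⟨x', y⟩, hxy, rfl⟩ := mem_closure_iff_nhds.1 hx₁ _ hl
      obtain ⟨y₁, hy₁⟩ := hx y (connectedComponentIn_subset _ _ hxy).2
      rw [← connectedComponentIn_eq hxy] at hy₁
      exact ⟨(x₁, y₁), hy₁, rfl⟩
    obtain ⟨⟨x, y⟩, hxy, rfl⟩ := hsub hx₀
    exact ⟨(x, y), ⟨y, (connectedComponentIn_subset _ _ hxy).2, rfl⟩, hxy⟩

end Pool.Agent.MP_4e44b6_al.H30
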