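import Pool.Agent.MP_4e44b6_al.H30.Defs

/-! Weighted homogeneity: closure properties, scaling and conjugation. -/

namespace Pool.Agent.MP_4e44b6_al.H30

open Set

variable {K : Type} [Field K] {m : ℕ} {w : Fin m → ℤ}

theorem IsWHom.ι (w : Fin m → ℤ) (i : Fin m) : IsWHom w (w i) (FreeAlgebra.ι K i) :=
  Submodule.subset_span ⟨[i], by simp, by simp⟩

theorem IsWHom.one (w : Fin m → ℤ) : IsWHom w 0 (1 : FreeAlgebra K (Fin m)) :=
  Submodule.subset_span ⟨[], by simp, by simp⟩

theorem IsWHom.mul {d e : ℤ} {p q : FreeAlgebra K (Fin m)} (hp : IsWHom w d p)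
    (hq : IsWHom w e q) : IsWHom w (d + e) (p * q) := by
  unfold IsWHom at *
  have := Submodule.mul_mem_mul hp hq
  rw [Submodule.span_mul_span] at this
  refine Submodule.span_mono ?_ this
  rintro _ ⟨_, ⟨l, hl, rfl⟩, _, ⟨l', hl', rfl⟩, rfl⟩
  exact ⟨l ++ l', by simp [hl, hl'], by simp⟩

theorem IsWHom.pow {d : ℤ} {p : FreeAlgebra K (Fin m)} (hp : IsWHom w d p) (n : ℕ) :
    IsWHom w (n * d) (p ^ n) := by
  induction n with
  | zero => simpa using IsWHom.one w
  | succ n ih =>
    have := ih.mul hp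
    rw [← pow_succ] at this
    convert this using 1
    push_cast; ring

theorem IsWHom.sub {d : ℤ} {p q : FreeAlgebra K (Fin m)} (hp : IsWHom w d p)
    (hq : IsWHom w d q) : IsWHom w d (p - q) := Submodule.sub_mem _ hp hq

theorem IsWHom.add {d : ℤ} {p q : FreeAlgebra K (Fin m)} (hp : IsWHom w d p)
    (hq : IsWHom w d q) : IsWHom w d (p + q) := Submodule.add_mem _ hp hq

theorem IsWHom.smul {d : ℤ} {p : FreeAlgebra K (Fin m)} (hp : IsWHom w d p) (c : K) :
    IsWHom w d (c • p) := Submodule.smul_mem _ c hp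

theorem IsWHom.sum {d : ℤ} {ι : Type*} {s : Finset ι} {p : ι → FreeAlgebra K (Fin m)}
    (hp : ∀ i ∈ s, IsWHom w d (p i)) : IsWHom w d (∑ i ∈ s, p i) := Submodule.sum_mem _ hp

theorem IsWHom.of_eq {d e : ℤ} {p : FreeAlgebra K (Fin m)} (hp : IsWHom w d p) (h : d = e) :
    IsWHom w e p := h ▸ hp

variable {A : Type} [Ring A] [Algebra K A]

theorem lift_prod (a : Fin m → A) (l : List (Fin m)) :
    FreeAlgebra.lift K a (l.map (FreeAlgebra.ι K)).prod = (l.map a).prod := by
  induction l with
  | nil => simp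
  | cons i l ih => simp [ih]

theorem IsWHom.scale {d : ℤ} {p : FreeAlgebra K (Fin m)} (hp : IsWHom w d p) {c : K} (hc : c ≠ 0)
    (a : Fin m → A) :
    FreeAlgebra.lift K (fun i => c ^ w i • a i) p = c ^ d • FreeAlgebra.lift K a p := by
  unfold IsWHom at hp
  induction hp using Submodule.span_induction with
  | mem q hq =>
    obtain ⟨l, rfl, rfl⟩ := hq
    rw [lift_prod, lift_prod]
    induction l with
    | nil => simp
    | cons i l ih =>
      simp only [List.map_cons, List.prod_cons, List.sum_cons, ih, zpow_add₀ hc]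
      rw [smul_mul_smul_comm]
  | zero => simp
  | add x y _ _ hx hy => simp [hx, hy]
  | smul r x _ hx => rw [map_smul, map_smul, hx, smul_comm]

theorem IsWHom.lift_zero {d : ℤ} {p : FreeAlgebra K (Fin m)} (hp : IsWHom w d p) (hd : d ≠ 0) :
    FreeAlgebra.lift K (fun _ => (0 : A)) p = 0 := by
  unfold IsWHom at hp
  induction hp using Submodule.span_induction with
  | mem q hq =>
    obtain ⟨l, hl, rfl⟩ := hq
    rw [lift_prod]
    cases l with
    | nil => exact absurd hl.symm hd
    | cons i l => simp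
  | zero => simp
  | add x y _ _ hx hy => simp [hx, hy]
  | smul r x _ hx => rw [map_smul, hx, smul_zero]

theorem lift_map {B : Type} [Ring B] [Algebra K B] (φ : A →ₐ[K] B) (a : Fin m → A)
    (p : FreeAlgebra K (Fin m)) :
    FreeAlgebra.lift K (fun i => φ (a i)) p = φ (FreeAlgebra.lift K a p) := by
  have : FreeAlgebra.lift K (fun i => φ (a i)) = φ.comp (FreeAlgebra.lift K a) := by
    apply FreeAlgebra.hom_ext
    funext i
    simp
  rw [this]; rfl

theorem lift_conj (u v : A) (huv : u * v = 1) (hvu : v * u = 1) (a : Fin m → A)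
    (p : FreeAlgebra K (Fin m)) :
    FreeAlgebra.lift K (fun i => u * a i * v) p = u * FreeAlgebra.lift K a p * v := by
  induction p using FreeAlgebra.induction with
  | grade0 r =>
    rw [AlgHom.commutes, AlgHom.commutes, ← Algebra.commutes, mul_assoc, huv, mul_one]
  | grade1 x => simp
  | mul p q hp hq =>
    rw [map_mul, map_mul, hp, hq]
    calc _ = u * FreeAlgebra.lift K a p * (v * u) * FreeAlgebra.lift K a q * v := by
          simp only [mul_assoc]
      _ = _ := by rw [hvu]; simp only [mul_assoc, one_mul]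
  | add p q hp hq => rw [map_add, map_add, hp, hq, mul_add, add_mul]

end Pool.Agent.MP_4e44b6_al.H30
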