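import Pool.Agent.MP_4e44b6_al.H30.Components

/-! Leading coefficients, parity, and removal of common factors for four real polynomials. -/

namespace Pool.Agent.MP_4e44b6_al.H30

open Set Polynomial Filter Topology

theorem coeff_nonneg_of_nonneg {Q : ℝ[X]} {n : ℕ} (hQ : ∀ r, 0 ≤ Q.eval r) (hn : Q.natDegree ≤ n) :
    0 ≤ Q.coeff n := by
  rcases hn.eq_or_lt with rfl | h
  · by_contra hneg
    have hneg' : Q.leadingCoeff < 0 := not_le.1 hneg
    rcases Nat.eq_zero_or_pos Q.natDegree with h0 | h0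
    · have := hQ 0
      rw [leadingCoeff, h0, coeff_zero_eq_eval_zero] at hneg'
      linarith
    · have := (Q.tendsto_atBot_of_leadingCoeff_nonpos (natDegree_pos_iff_degree_pos.1 h0)
        hneg'.le).eventually (eventually_lt_atBot 0)
      obtain ⟨r, hr⟩ := this.exists
      exact absurd (hQ r) (not_le.2 hr)
  · rw [coeff_eq_zero_of_natDegree_lt h]

theorem exists_top_coeff {R : Type*} [Semiring R] (v : Fin 4 → R[X]) (hv : ∃ i, v i ≠ 0) :
    ∃ k, (∀ i, (v i).natDegree ≤ k) ∧ ∃ i, (v i).coeff k ≠ 0 := by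
  classical
  obtain ⟨i₀, hi₀⟩ := hv
  obtain ⟨i, hi, hmax⟩ := Finset.exists_max_image (Finset.univ.filter fun i => v i ≠ 0)
    (fun i => (v i).natDegree) ⟨i₀, by simpa using hi₀⟩
  refine ⟨(v i).natDegree, fun j => ?_, i, leadingCoeff_ne_zero.2 (by simpa using hi)⟩
  by_cases h : v j = 0
  · simp [h]
  · exact hmax j (by simpa using h)

theorem lead_ineq (v : Fin 4 → ℝ[X]) (c : Fin 4 → ℝ) {k : ℕ} (hk : ∀ i, (v i).natDegree ≤ k)
    (h : ∀ r, 0 ≤ ∑ i, c i * (v i).eval r ^ 2) : 0 ≤ ∑ i, c i * (v i).coeff k ^ 2 := by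
  have h1 := coeff_nonneg_of_nonneg (Q := ∑ i, C (c i) * v i ^ 2) (n := 2 * k)
    (fun r => by simpa [eval_finsetSum] using h r)
    (natDegree_sum_le_of_forall_le _ _ fun i _ => (natDegree_C_mul_le _ _).trans
      (natDegree_pow_le.trans (Nat.mul_le_mul_left 2 (hk i))))
  rw [finsetSum_coeff] at h1
  simpa only [coeff_C_mul, coeff_pow_of_natDegree_le (hk _)] using h1

theorem coeff_parity {P : ℝ[X]} {e : ℝ} (h : ∀ s, P.eval (-s) = e * P.eval s) (k : ℕ) :
    (-1) ^ k * P.coeff k = e * P.coeff k := by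
  have : P.comp (C (-1) * X) = C e * P := Polynomial.funext fun s => by simp [h]
  have h2 := congrArg (fun Q => Q.coeff k) this
  simp only [comp_C_mul_X_coeff, coeff_C_mul] at h2
  rw [← h2, mul_comm]

theorem coeff_parity₂ {Q : ℝ[X][X]} {e₁ e₂ : ℝ}
    (h₁ : ∀ s r, (Q.map (evalRingHom (-s))).eval r = e₁ * (Q.map (evalRingHom s)).eval r)
    (h₂ : ∀ s r, (Q.map (evalRingHom s)).eval (-r) = e₂ * (Q.map (evalRingHom s)).eval r)
    (k k' : ℕ) : (-1) ^ k' * (Q.coeff k).coeff k' = e₁ * (Q.coeff k).coeff k' ∧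
      (-1) ^ k * (Q.coeff k).coeff k' = e₂ * (Q.coeff k).coeff k' := by
  constructor
  · apply coeff_parity
    intro s
    have : Q.map (evalRingHom (-s)) = C e₁ * Q.map (evalRingHom s) :=
      Polynomial.funext fun r => by simp [h₁]
    have h2 := congrArg (fun P => P.coeff k) this
    simpa [coeff_C_mul] using h2
  · have : C ((-1) ^ k) * Q.coeff k = C e₂ * Q.coeff k := Polynomial.funext fun s => by
      have := coeff_parity (h₂ s) k
      simpa using this
    have h2 := congrArg (fun P => P.coeff k') this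
    simpa only [coeff_C_mul] using h2

/-- Four polynomials in two variables with the four parity patterns: some top coefficient vector
has exactly one nonzero entry, and inherits the quadratic inequalities. -/
theorem exists_single_lead (v : Fin 4 → ℝ[X][X]) (hv : ∃ i, v i ≠ 0) (e₁ e₂ : Fin 4 → ℝ)
    (he : ∀ i j, e₁ i = e₁ j → e₂ i = e₂ j → i = j)
    (h₁ : ∀ i s r, ((v i).map (evalRingHom (-s))).eval r =
      e₁ i * ((v i).map (evalRingHom s)).eval r)
    (h₂ : ∀ i s r, ((v i).map (evalRingHom s)).eval (-r) =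
      e₂ i * ((v i).map (evalRingHom s)).eval r) :
    ∃ i₀, ∀ c : Fin 4 → ℝ,
      (∀ s r, 0 ≤ ∑ i, c i * ((v i).map (evalRingHom s)).eval r ^ 2) → 0 ≤ c i₀ := by
  obtain ⟨k, hk, hk'⟩ := exists_top_coeff v hv
  obtain ⟨k', hl, i₀, hi₀⟩ := exists_top_coeff (fun i => (v i).coeff k) hk'
  refine ⟨i₀, fun c hc => ?_⟩
  have s1 : ∀ s, 0 ≤ ∑ i, c i * ((v i).coeff k).eval s ^ 2 := fun s => by
    have := lead_ineq (fun i => (v i).map (evalRingHom s)) c (k := k)
      (fun i => natDegree_map_le.trans (hk i)) (hc s)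
    simpa using this
  have s2 := lead_ineq (fun i => (v i).coeff k) c hl s1
  have hz : ∀ j, j ≠ i₀ → ((v j).coeff k).coeff k' = 0 := by
    intro j hj
    by_contra hne
    obtain ⟨a1, a2⟩ := coeff_parity₂ (h₁ i₀) (h₂ i₀) k k'
    obtain ⟨b1, b2⟩ := coeff_parity₂ (h₁ j) (h₂ j) k k'
    exact hj (he j i₀ ((mul_right_cancel₀ hne b1).symm.trans (mul_right_cancel₀ hi₀ a1))
      ((mul_right_cancel₀ hne b2).symm.trans (mul_right_cancel₀ hi₀ a2)))
  rw [Finset.sum_eq_single i₀ (fun j _ hj => by simp [hz j hj]) (by simp)] at s2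
  exact nonneg_of_mul_nonneg_left s2 (by positivity)

theorem exists_common_factor (v : Fin 4 → ℝ[X]) (hv : ∃ i, v i ≠ 0) :
    ∃ (g : ℝ[X]) (u : Fin 4 → ℝ[X]), g ≠ 0 ∧ (∀ i, v i = g * u i) ∧
      ∀ s, ∃ i, (u i).eval s ≠ 0 := by
  classical
  obtain ⟨u, hu, hg⟩ := Finset.extract_gcd v (Finset.univ_nonempty (α := Fin 4))
  refine ⟨Finset.univ.gcd v, u, ?_, fun i => hu i (Finset.mem_univ i), fun s => ?_⟩
  · obtain ⟨i, hi⟩ := hv
    intro h
    exact hi (Finset.gcd_eq_zero_iff.1 h i (Finset.mem_univ i))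
  · by_contra hcon
    push Not at hcon
    have : (X - C s) ∣ Finset.univ.gcd u := Finset.dvd_gcd fun i _ => dvd_iff_isRoot.2 (hcon i)
    rw [hg] at this
    exact not_isUnit_X_sub_C s (isUnit_of_dvd_one this)

end Pool.Agent.MP_4e44b6_al.H30
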