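import Pool.Agent.MP_4e44b6_al.H30.M2Conj
import Pool.Agent.MP_4e44b6_al.H30.Lead

/-! The discriminant of a non-central polynomial takes both signs on `M₂(ℝ)`. -/

namespace Pool.Agent.MP_4e44b6_al.H30

open Set Polynomial Matrix

theorem half_nonneg {R : ℝ[X]} {σ : ℝ} (hσ : σ = 1 ∨ σ = -1) {n : ℕ} (hn : R.natDegree ≤ n)
    (h : ∀ x, 0 ≤ σ * x → 0 ≤ R.eval x) : 0 ≤ σ ^ n * R.coeff n := by
  have := coeff_nonneg_of_nonneg (Q := expand ℝ 2 (R.comp (C σ * X))) (n := n * 2)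
    (fun r => by
      rw [expand_eval, eval_comp]
      apply h
      rcases hσ with rfl | rfl <;> simp [sq_nonneg])
    (by
      rw [natDegree_expand]
      refine Nat.mul_le_mul_right 2 (natDegree_comp_le.trans ?_)
      calc _ ≤ n * 1 := Nat.mul_le_mul hn ((natDegree_C_mul_le _ _).trans natDegree_X_le)
        _ = n := mul_one n)
  rwa [coeff_expand_mul two_pos, comp_C_mul_X_coeff, mul_comm] at this

theorem lead_two {Q : ℝ[X][X]} {σ τ : ℝ} (hσ : σ = 1 ∨ σ = -1) (hτ : τ = 1 ∨ τ = -1) {k l : ℕ}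
    (hk : Q.natDegree ≤ k) (hl : (Q.coeff k).natDegree ≤ l)
    (h : ∀ a b, 0 ≤ σ * a → 0 ≤ τ * b → 0 ≤ Q.evalEval a b) :
    0 ≤ σ ^ l * τ ^ k * (Q.coeff k).coeff l := by
  have := half_nonneg (R := C (τ ^ k) * Q.coeff k) hσ ((natDegree_C_mul_le _ _).trans hl)
    fun a ha => by
      have := half_nonneg (R := Q.map (evalRingHom a)) hτ (natDegree_map_le.trans hk)
        fun b hb => by rw [map_evalRingHom_eval]; exact h a b ha hb
      simpa using this
  rwa [coeff_C_mul, ← mul_assoc] at this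

theorem top_parity {P : ℝ[X][X]} {α β k l : ℕ}
    (hk : (C (X ^ α) * X ^ β * P ^ 2).natDegree ≤ k)
    (hl : ((C (X ^ α) * X ^ β * P ^ 2).coeff k).natDegree ≤ l)
    (h : ((C (X ^ α) * X ^ β * P ^ 2).coeff k).coeff l ≠ 0) :
    (-1 : ℝ) ^ l = (-1) ^ α ∧ (-1 : ℝ) ^ k = (-1) ^ β := by
  have h0 : (C (X ^ α) * X ^ β * P ^ 2).coeff k ≠ 0 := fun h0 => h (by rw [h0, coeff_zero])
  have hP : P ≠ 0 := fun hP => h0 (by simp [hP])
  have hP' : P.leadingCoeff ≠ 0 := leadingCoeff_ne_zero.2 hP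
  have e1 := le_antisymm hk (le_natDegree_of_ne_zero h0)
  have e2 := le_antisymm hl (le_natDegree_of_ne_zero h)
  have e3 : (C (X ^ α) * X ^ β * P ^ 2).coeff k = X ^ α * P.leadingCoeff ^ 2 := by
    rw [← e1, coeff_natDegree]
    simp [leadingCoeff_mul]
  rw [e3, natDegree_mul (by simp) (by simpa using hP'), natDegree_X_pow, natDegree_pow] at e2
  rw [natDegree_mul (by simp) (by simpa using hP), natDegree_C_mul (by simp), natDegree_X_pow,
    natDegree_pow] at e1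
  rw [← e1, ← e2]
  simp [pow_add, pow_mul]

theorem not_nonneg_form (P₁ P₂ P₃ : ℝ[X][X]) (hP : P₁ ≠ 0 ∨ P₂ ≠ 0 ∨ P₃ ≠ 0) {s : ℝ}
    (hs : s ≠ 0) : ¬ ∀ a b : ℝ, 0 ≤ a ∨ 0 ≤ b → 0 ≤ s * (a * P₁.evalEval a b ^ 2 +
      b * P₂.evalEval a b ^ 2 - a * b * P₃.evalEval a b ^ 2) := by
  intro h
  let T : Fin 4 → ℝ[X][X] := ![C (X ^ 1) * X ^ 0 * P₁ ^ 2, C (X ^ 0) * X ^ 1 * P₂ ^ 2,
    C (X ^ 1) * X ^ 1 * P₃ ^ 2, 0]
  obtain ⟨k, hk, hk'⟩ := exists_top_coeff T (by
    rcases hP with h | h | h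
    · exact ⟨0, by simp [T, h]⟩
    · exact ⟨1, by simp [T, h]⟩
    · exact ⟨2, by simp [T, h]⟩)
  obtain ⟨l, hl, i₀, hi₀⟩ := exists_top_coeff (fun i => (T i).coeff k) hk'
  have key : ∀ σ τ : ℝ, σ = 1 ∨ σ = -1 → τ = 1 ∨ τ = -1 → σ = 1 ∨ τ = 1 →
      0 ≤ σ ^ l * τ ^ k * (s * (((T 0).coeff k).coeff l + ((T 1).coeff k).coeff l -
        ((T 2).coeff k).coeff l)) := by
    intro σ τ hσ hτ hστ
    have := lead_two (Q := C (C s) * (T 0 + T 1 - T 2)) hσ hτ (k := k) (l := l)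
      ((natDegree_C_mul_le _ _).trans ((natDegree_sub_le_of_le
        (natDegree_add_le_of_degree_le (hk 0) (hk 1)) (hk 2)).trans (max_self k).le))
      (by
        rw [coeff_C_mul, coeff_sub, coeff_add]
        exact (natDegree_C_mul_le _ _).trans ((natDegree_sub_le_of_le
          (natDegree_add_le_of_degree_le (hl 0) (hl 1)) (hl 2)).trans (max_self l).le))
      fun a b ha hb => by
        have := h a b (hστ.imp (fun e => by simpa [e] using ha) fun e => by simpa [e] using hb)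
        simpa [T, evalEval_mul, evalEval_sub, evalEval_add, evalEval_pow, evalEval_C,
          evalEval_X] using this
    simpa only [coeff_C_mul, coeff_sub, coeff_add] using this
  have k1 := key 1 1 (Or.inl rfl) (Or.inl rfl) (Or.inl rfl)
  have k2 := key 1 (-1) (Or.inl rfl) (Or.inr rfl) (Or.inl rfl)
  have k3 := key (-1) 1 (Or.inr rfl) (Or.inl rfl) (Or.inr rfl)
  have p0 := top_parity (hk 0) (hl 0)
  have p1 := top_parity (hk 1) (hl 1)
  have p2 := top_parity (hk 2) (hl 2)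
  change ((T 0).coeff k).coeff l ≠ 0 → _ at p0
  change ((T 1).coeff k).coeff l ≠ 0 → _ at p1
  change ((T 2).coeff k).coeff l ≠ 0 → _ at p2
  have hi : ((T 0).coeff k).coeff l ≠ 0 ∨ ((T 1).coeff k).coeff l ≠ 0 ∨
      ((T 2).coeff k).coeff l ≠ 0 := by
    fin_cases i₀
    · exact Or.inl hi₀
    · exact Or.inr (Or.inl hi₀)
    · exact Or.inr (Or.inr hi₀)
    · simp [T] at hi₀
  generalize ((T 0).coeff k).coeff l = c₀ at *
  generalize ((T 1).coeff k).coeff l = c₁ at *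
  generalize ((T 2).coeff k).coeff l = c₂ at *
  simp only [one_pow, one_mul, mul_one, pow_one, pow_zero] at k1 k2 k3 p0 p1 p2
  have fin : ∀ c : ℝ, 0 ≤ s * c → 0 ≤ -1 * (s * c) → c = 0 := fun c h1 h2 =>
    (mul_eq_zero.1 (le_antisymm (by linarith) h1)).resolve_left hs
  rcases hi with h0 | h0 | h0
  · obtain ⟨a1, a2⟩ := p0 h0
    have e1 : c₁ = 0 := by by_contra e; linarith [(p1 e).1]
    have e2 : c₂ = 0 := by by_contra e; linarith [(p2 e).2]
    rw [a1] at k3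
    exact h0 (by linarith [fin _ k1 k3])
  · obtain ⟨a1, a2⟩ := p1 h0
    have e1 : c₀ = 0 := by by_contra e; linarith [(p0 e).1]
    have e2 : c₂ = 0 := by by_contra e; linarith [(p2 e).1]
    rw [a2] at k2
    exact h0 (by linarith [fin _ k1 k2])
  · obtain ⟨a1, a2⟩ := p2 h0
    have e1 : c₀ = 0 := by by_contra e; linarith [(p0 e).2]
    have e2 : c₁ = 0 := by by_contra e; linarith [(p1 e).1]
    rw [a2] at k2
    exact h0 (by linarith [fin _ k1 k2])

/-- The element with coordinates `z` in the basis `1, I, J, I J`. -/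
def qv (I J : M2) (z : Fin 4 → ℝ) : M2 := z 0 • (1 : M2) + z 1 • I + z 2 • J + z 3 • (I * J)

theorem qv_mul {I J : M2} {a b : ℝ} (hI : I * I = a • (1 : M2)) (hJ : J * J = b • (1 : M2))
    (h : J * I = -(I * J)) (z u : Fin 4 → ℝ) :
    qv I J z * qv I J u = qv I J
      ![z 0 * u 0 + a * (z 1 * u 1) + b * (z 2 * u 2) - a * b * (z 3 * u 3),
        z 0 * u 1 + z 1 * u 0 - b * (z 2 * u 3) + b * (z 3 * u 2),
        z 0 * u 2 + z 2 * u 0 + a * (z 1 * u 3) - a * (z 3 * u 1),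
        z 0 * u 3 + z 3 * u 0 + z 1 * u 2 - z 2 * u 1] := by
  have e1 : I * (I * J) = a • J := by rw [← Matrix.mul_assoc, hI]; simp
  have e2 : I * J * J = b • I := by rw [Matrix.mul_assoc, hJ]; simp
  have e3 : J * (I * J) = -(b • I) := by rw [← Matrix.mul_assoc, h, neg_mul, e2]
  have e4 : I * J * I = -(a • J) := by rw [Matrix.mul_assoc, h, mul_neg, e1]
  have e5 : I * J * (I * J) = -((a * b) • (1 : M2)) := by
    rw [← Matrix.mul_assoc, e4, neg_mul, smul_mul_assoc, hJ, smul_smul]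
  simp only [qv, mul_add, add_mul, smul_mul_assoc, mul_smul_comm, one_mul, mul_one, hI, hJ, h,
    e1, e2, e3, e4, e5, cons_val_zero, cons_val_one, cons_val]
  module

theorem exists_generic {m : ℕ} (c : Fin m → Fin 4 → ℝ) (p : FreeAlgebra ℝ (Fin m)) :
    ∃ P : Fin 4 → ℝ[X][X], ∀ (I J : M2) (a b : ℝ), I * I = a • (1 : M2) → J * J = b • (1 : M2) →
      J * I = -(I * J) →
      FreeAlgebra.lift ℝ (fun j => qv I J (c j)) p = qv I J fun i => (P i).evalEval a b := by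
  induction p using FreeAlgebra.induction with
  | grade0 r =>
    refine ⟨![C (C r), 0, 0, 0], fun I J a b _ _ _ => ?_⟩
    rw [AlgHom.commutes, Algebra.algebraMap_eq_smul_one]
    simp [qv, evalEval_C]
  | grade1 j => exact ⟨fun i => C (C (c j i)), fun I J a b _ _ _ => by simp [evalEval_C]⟩
  | add p q hp hq =>
    obtain ⟨P, hP⟩ := hp
    obtain ⟨Q, hQ⟩ := hq
    refine ⟨P + Q, fun I J a b h1 h2 h3 => ?_⟩
    rw [map_add, hP I J a b h1 h2 h3, hQ I J a b h1 h2 h3]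
    simp only [qv, Pi.add_apply, evalEval_add]
    module
  | mul p q hp hq =>
    obtain ⟨z, hP⟩ := hp
    obtain ⟨u, hQ⟩ := hq
    refine ⟨![z 0 * u 0 + C X * (z 1 * u 1) + X * (z 2 * u 2) - C X * X * (z 3 * u 3),
        z 0 * u 1 + z 1 * u 0 - X * (z 2 * u 3) + X * (z 3 * u 2),
        z 0 * u 2 + z 2 * u 0 + C X * (z 1 * u 3) - C X * (z 3 * u 1),
        z 0 * u 3 + z 3 * u 0 + z 1 * u 2 - z 2 * u 1], fun I J a b h1 h2 h3 => ?_⟩
    rw [map_mul, hP I J a b h1 h2 h3, hQ I J a b h1 h2 h3, qv_mul h1 h2 h3]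
    congr 1
    funext i
    fin_cases i <;>
      simp [evalEval_mul, evalEval_sub, evalEval_add, evalEval_C, evalEval_X]

theorem exists_disc_sign {m : ℕ} (p : FreeAlgebra ℝ (Fin m)) {M : M2} (hM : M ∈ image M2 p)
    (h : NS M) {s : ℝ} (hs : s ≠ 0) : ∃ M' ∈ image M2 p, 0 < s * disc M' := by
  obtain ⟨x, rfl⟩ := hM
  by_contra hc
  push Not at hc
  let c : Fin m → Fin 4 → ℝ := fun j => ![(x j 0 0 + x j 1 1) / 2, (x j 0 0 - x j 1 1) / 2,
    (x j 0 1 + x j 1 0) / 2, (x j 0 1 - x j 1 0) / 2]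
  obtain ⟨P, hP⟩ := exists_generic c p
  refine not_nonneg_form (P 1) (P 2) (P 3) ?_ (neg_ne_zero.2 hs) fun a b hab => ?_
  · by_contra h0
    simp only [ne_eq, not_or, not_not] at h0
    have e := hP !![1, 0; 0, -1] !![0, 1; 1, 0] 1 1 (by simp [one_fin_two]) (by simp [one_fin_two])
      (by simp)
    have e' : (fun j => qv !![1, 0; 0, -1] !![0, 1; 1, 0] (c j)) = x := by
      funext j
      ext i k
      fin_cases i <;> fin_cases k <;> simp [qv, c] <;> ring
    rw [e'] at e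
    simp only [e, qv, h0.1, h0.2.1, h0.2.2, evalEval_zero, zero_smul, add_zero] at h
    exact not_NS_smul_one _ h
  · rcases hab with ha | hb
    · obtain ⟨r, rfl⟩ : ∃ r, a = r ^ 2 := ⟨√a, (Real.sq_sqrt ha).symm⟩
      have e := hP !![r, 0; 0, -r] !![0, b; 1, 0] (r ^ 2) b (by simp [one_fin_two, pow_two])
        (by simp [one_fin_two]) (by simp [mul_comm])
      have := hc _ ⟨_, e⟩
      simp only [disc_eq, qv] at this
      simp at this
      linarith
    · obtain ⟨r, rfl⟩ : ∃ r, b = r ^ 2 := ⟨√b, (Real.sq_sqrt hb).symm⟩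
      have e := hP !![0, a; 1, 0] !![r, 0; 0, -r] a (r ^ 2) (by simp [one_fin_two])
        (by simp [one_fin_two, pow_two]) (by simp [mul_comm])
      have := hc _ ⟨_, e⟩
      simp only [disc_eq, qv] at this
      simp at this
      linarith

end Pool.Agent.MP_4e44b6_al.H30
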