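import Pool.Agent.MP_4e44b6_al.H30.M2Defs
import Pool.Agent.MP_4e44b6_al.H30.Hom

/-! Conjugacy classes of real `2 × 2` matrices up to positive scalars. -/

namespace Pool.Agent.MP_4e44b6_al.H30

open Set Matrix

/-- Invariance under conjugation and positive scalars. -/
def Inv (T : Set M2) : Prop :=
  ∀ M ∈ T, ∀ (c : ℝ) (g : M2), 0 < c → g.det ≠ 0 → c • (g * M * g⁻¹) ∈ T

/-- The matrix is not a scalar. -/
def NS (M : M2) : Prop := M 0 1 ≠ 0 ∨ M 1 0 ≠ 0 ∨ M 0 0 ≠ M 1 1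

theorem disc_eq (M : M2) : disc M = (M 0 0 - M 1 1) ^ 2 + 4 * (M 0 1 * M 1 0) := by
  rw [disc, trace_fin_two, det_fin_two]; ring

theorem NS.of_disc {M : M2} (h : disc M ≠ 0) : NS M := by
  by_contra hc
  simp only [NS, not_or, not_not] at hc
  apply h
  rw [disc_eq, hc.1, hc.2.2]; ring

theorem eq_smul_one_of_not_NS {M : M2} (h : ¬ NS M) : M = (M.trace / 2) • (1 : M2) := by
  simp only [NS, not_or, not_not] at h
  rw [trace_fin_two]
  ext i j
  fin_cases i <;> fin_cases j <;> simp [h.1, h.2.1, h.2.2]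

theorem not_NS_smul_one (c : ℝ) : ¬ NS (c • (1 : M2)) := by simp [NS]

theorem NS.of_trace {M : M2} (h : M.trace = 0) (h0 : M ≠ 0) : NS M := by
  by_contra hc
  apply h0
  rw [eq_smul_one_of_not_NS hc, h]; simp

theorem Inv.smul {T : Set M2} (hT : Inv T) {M : M2} (hM : M ∈ T) {c : ℝ} (hc : 0 < c) :
    c • M ∈ T := by
  simpa using hT M hM c 1 hc (by simp)

theorem Inv.conj {T : Set M2} (hT : Inv T) {M M' g : M2} (hM : M ∈ T) (hg : g.det ≠ 0)
    (h : g * M = M' * g) : M' ∈ T := by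
  have := hT M hM 1 g one_pos hg
  rwa [one_smul, h, mul_nonsing_inv_cancel_right _ _ (isUnit_iff_ne_zero.2 hg)] at this

theorem Inv.conj' {T : Set M2} (hT : Inv T) {M M' g : M2} (hM : M ∈ T) (hg : g.det ≠ 0)
    (h : M * g = g * M') : M' ∈ T := by
  have hu := isUnit_iff_ne_zero.2 hg
  refine hT.conj (g := g⁻¹) hM (isUnit_iff_ne_zero.1 (isUnit_nonsing_inv_det g hu)) ?_
  rw [← mul_nonsing_inv_cancel_right g (g⁻¹ * M) hu, Matrix.mul_assoc g⁻¹, h,
    nonsing_inv_mul_cancel_left _ _ hu]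

theorem exists_companion {M : M2} (h : NS M) :
    ∃ g : M2, g.det ≠ 0 ∧ M * g = g * !![0, -M.det; 1, M.trace] := by
  rw [det_fin_two M, trace_fin_two]
  by_cases h1 : M 1 0 = 0
  · by_cases h2 : M 0 1 = 0
    · have h3 : M 0 0 ≠ M 1 1 := by simpa [NS, h1, h2] using h
      refine ⟨!![1, M 0 0; 1, M 1 1], by rw [det_fin_two_of]; intro h; apply h3; linarith, ?_⟩
      ext i j
      fin_cases i <;> fin_cases j <;> simp [Matrix.mul_apply, Fin.sum_univ_two, h1, h2] <;> ring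
    · refine ⟨!![0, M 0 1; 1, M 1 1], by rw [det_fin_two_of]; simpa using h2, ?_⟩
      ext i j
      fin_cases i <;> fin_cases j <;> simp [Matrix.mul_apply, Fin.sum_univ_two] <;> ring
  · refine ⟨!![1, M 0 0; 0, M 1 0], by rw [det_fin_two_of]; simpa using h1, ?_⟩
    ext i j
    fin_cases i <;> fin_cases j <;> simp [Matrix.mul_apply, Fin.sum_univ_two] <;> ring

theorem Inv.mem_of_trace_disc {T : Set M2} (hT : Inv T) {M M' : M2} (hM : M ∈ T) (h : NS M)
    (h' : NS M') {c : ℝ} (hc : 0 < c) (ht : M'.trace = c * M.trace)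
    (hd : disc M' = c ^ 2 * disc M) : M' ∈ T := by
  have h1 : NS (c • M) := by
    simpa [NS, hc.ne'] using h
  obtain ⟨g, hg, e⟩ := exists_companion h1
  obtain ⟨g', hg', e'⟩ := exists_companion h'
  have e1 : (c • M).trace = M'.trace := by rw [trace_smul, ht, smul_eq_mul]
  have e2 : (c • M).det = M'.det := by
    rw [det_smul, Fintype.card_fin]
    rw [disc, disc, ht] at hd
    linarith
  rw [e1, e2] at e
  exact hT.conj (hT.conj' (hT.smul hM hc) hg e) hg' e'.symm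

theorem sq_abs_div_inj {x y E : ℝ} (hE : 0 < E)
    (h : x * |x| / (x ^ 2 + E) = y * |y| / (y ^ 2 + E)) : x = y := by
  rw [div_eq_div_iff (by positivity) (by positivity)] at h
  rcases le_total 0 x with hx | hx <;> rcases le_total 0 y with hy | hy
  · rw [abs_of_nonneg hx, abs_of_nonneg hy] at h
    have : x ^ 2 = y ^ 2 := by
      apply mul_right_cancel₀ hE.ne'
      linarith
    exact (pow_left_inj₀ hx hy two_ne_zero).1 this
  · rw [abs_of_nonneg hx, abs_of_nonpos hy] at h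
    have h1 : x ^ 2 * E + y ^ 2 * E + 2 * (x * y) ^ 2 = 0 := by linarith
    have h2 : x ^ 2 * E = 0 := by
      nlinarith [sq_nonneg (x * y), mul_nonneg (sq_nonneg x) hE.le, mul_nonneg (sq_nonneg y) hE.le]
    have h3 : y ^ 2 * E = 0 := by
      nlinarith [sq_nonneg (x * y), mul_nonneg (sq_nonneg x) hE.le, mul_nonneg (sq_nonneg y) hE.le]
    simp only [mul_eq_zero, hE.ne', or_false, pow_eq_zero_iff two_ne_zero] at h2 h3
    rw [h2, h3]
  · rw [abs_of_nonpos hx, abs_of_nonneg hy] at h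
    have h1 : x ^ 2 * E + y ^ 2 * E + 2 * (x * y) ^ 2 = 0 := by linarith
    have h2 : x ^ 2 * E = 0 := by
      nlinarith [sq_nonneg (x * y), mul_nonneg (sq_nonneg x) hE.le, mul_nonneg (sq_nonneg y) hE.le]
    have h3 : y ^ 2 * E = 0 := by
      nlinarith [sq_nonneg (x * y), mul_nonneg (sq_nonneg x) hE.le, mul_nonneg (sq_nonneg y) hE.le]
    simp only [mul_eq_zero, hE.ne', or_false, pow_eq_zero_iff two_ne_zero] at h2 h3
    rw [h2, h3]
  · rw [abs_of_nonpos hx, abs_of_nonpos hy] at h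
    have : (-x) ^ 2 = (-y) ^ 2 := by
      apply mul_right_cancel₀ hE.ne'
      linarith
    exact neg_injective ((pow_left_inj₀ (neg_nonneg.2 hx) (neg_nonneg.2 hy) two_ne_zero).1 this)

theorem Inv.mem_of_dir {T : Set M2} (hT : Inv T) {M M' : M2} (hM : M ∈ T) {s : ℝ}
    (h : 0 < s * disc M) (h' : 0 < s * disc M') (e : dir M = dir M') : M' ∈ T := by
  have h0 : disc M ≠ 0 := fun h0 => by simp [h0] at h
  have h0' : disc M' ≠ 0 := fun h0 => by simp [h0] at h'
  have hq : 0 < disc M' / disc M := by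
    have := div_pos h' h
    rwa [mul_div_mul_left _ _ (fun h0 => by simp [h0] at h)] at this
  have hc := Real.sqrt_pos.2 hq
  set c := √(disc M' / disc M)
  have hc2 : disc M' = c ^ 2 * disc M := by
    rw [Real.sq_sqrt hq.le, div_mul_cancel₀ _ h0]
  refine hT.mem_of_trace_disc hM (.of_disc h0) (.of_disc h0') hc ?_ hc2
  refine sq_abs_div_inj (abs_pos.2 h0') ?_
  rw [← dir, ← e, dir, hc2, abs_mul, abs_mul, abs_of_pos hc, abs_of_pos (pow_pos hc 2)]
  have : 0 < M.trace ^ 2 + |disc M| := by have := abs_pos.2 h0; positivity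
  field_simp

theorem Inv.mem_side {T : Set M2} (hT : Inv T) {M : M2} {s : ℝ} (h : 0 < s * disc M)
    (e : dir M ∈ side s T) : M ∈ T := by
  obtain ⟨M', hM', h', e⟩ := e
  exact hT.mem_of_dir hM' h' h e.symm

theorem dir_of_disc {M : M2} (h : disc M = 0) (ht : M.trace ≠ 0) :
    (dir M = 1 ∨ dir M = -1) ∧ 0 < dir M * M.trace := by
  rw [dir, h, abs_zero, add_zero]
  rcases lt_or_gt_of_ne ht with h1 | h1
  · have : M.trace * |M.trace| / M.trace ^ 2 = -1 := by rw [abs_of_neg h1]; field_simp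
    rw [this]
    exact ⟨Or.inr rfl, by linarith⟩
  · have : M.trace * |M.trace| / M.trace ^ 2 = 1 := by rw [abs_of_pos h1]; field_simp
    rw [this]
    exact ⟨Or.inl rfl, by linarith⟩

theorem Inv.mem_of_jordan {T : Set M2} (hT : Inv T) {M M' : M2} (hM : M ∈ T)
    (h : NS M ↔ NS M') (hd : disc M = 0) (hd' : disc M' = 0) {e : ℝ} (ht : 0 < e * M.trace)
    (ht' : 0 < e * M'.trace) : M' ∈ T := by
  have h0 : M.trace ≠ 0 := fun h0 => by simp [h0] at ht
  have hq : 0 < M'.trace / M.trace := by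
    have := div_pos ht' ht
    rwa [mul_div_mul_left _ _ (fun h0 => by simp [h0] at ht)] at this
  by_cases h1 : NS M
  · exact hT.mem_of_trace_disc hM h1 (h.1 h1) hq (by field_simp) (by simp [hd, hd'])
  · have h3 := hT.smul hM hq
    have e1 := eq_smul_one_of_not_NS h1
    have e2 := eq_smul_one_of_not_NS fun h2 => h1 (h.2 h2)
    generalize M.trace = t at h3 e1 h0
    generalize M'.trace = t' at h3 e2
    have e3 : t' / t * (t / 2) = t' / 2 := by field_simp
    rwa [e1, smul_smul, e3, ← e2] at h3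

theorem Inv.mem_of_nilp {T : Set M2} (hT : Inv T) {M M' : M2} (hM : M ∈ T) (h : M ≠ 0)
    (h' : M' ≠ 0) (hd : disc M = 0) (hd' : disc M' = 0) (ht : M.trace = 0) (ht' : M'.trace = 0) :
    M' ∈ T :=
  hT.mem_of_trace_disc hM (.of_trace ht h) (.of_trace ht' h') one_pos (by simp [ht, ht'])
    (by simp [hd, hd'])

theorem abs_dir (M : M2) : |dir M| = M.trace ^ 2 / (M.trace ^ 2 + |disc M|) := by
  rw [dir, abs_div, abs_mul, abs_abs, abs_mul_abs_self, abs_of_nonneg (by positivity), pow_two]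

theorem abs_dir_lt {M : M2} (h : disc M ≠ 0) : |dir M| < 1 := by
  have := abs_pos.2 h
  rw [abs_dir, div_lt_one (by positivity)]
  linarith

theorem side_subset {s : ℝ} {T : Set M2} {c : ℝ} (h : c ∈ side s T) : |c| < 1 := by
  obtain ⟨M, -, h, rfl⟩ := h
  exact abs_dir_lt fun h0 => by simp [h0] at h

theorem inv_image {m : ℕ} {w : Fin m → ℤ} {d : ℤ} {p : FreeAlgebra ℝ (Fin m)}
    (hp : IsWHom w d p) (hd : d ≠ 0) : Inv (image M2 p) := by
  rintro _ ⟨a, rfl⟩ r g hr0 hg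
  have hu := isUnit_iff_ne_zero.2 hg
  have hc0 : 0 < r ^ ((d : ℝ)⁻¹) := Real.rpow_pos_of_pos hr0 _
  have hcd : (r ^ ((d : ℝ)⁻¹)) ^ d = r := by
    rw [← Real.rpow_intCast, ← Real.rpow_mul hr0.le, inv_mul_cancel₀ (by exact_mod_cast hd),
      Real.rpow_one]
  refine ⟨fun i => g * ((r ^ ((d : ℝ)⁻¹)) ^ w i • a i) * g⁻¹, ?_⟩
  simp only
  rw [lift_conj g g⁻¹ (mul_nonsing_inv g hu) (nonsing_inv_mul g hu), hp.scale hc0.ne' a, hcd,
    Matrix.mul_smul, Matrix.smul_mul]

end Pool.Agent.MP_4e44b6_al.H30
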