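import Pool.Agent.MP_4e44b6_al.H30.Defs

/-! Definitions: the sets that occur as images on real `2 × 2` matrices. -/

namespace Pool.Agent.MP_4e44b6_al.H30

open Set

/-- Real `2 × 2` matrices. -/
abbrev M2 : Type := Matrix (Fin 2) (Fin 2) ℝ

/-- The discriminant of the characteristic polynomial. -/
def disc (M : M2) : ℝ := M.trace ^ 2 - 4 * M.det

/-- The number `t |t| / (t² + |D|)`, where `t` is the trace and `D` the discriminant. -/
noncomputable def dir (M : M2) : ℝ := M.trace * |M.trace| / (M.trace ^ 2 + |disc M|)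

/-- The values of `dir` on the members of `T` whose discriminant has the sign of `s`. -/
def side (s : ℝ) (T : Set M2) : Set ℝ := {c | ∃ M ∈ T, 0 < s * disc M ∧ c = dir M}

/-- A nonempty finite union of intervals with more than one point each. -/
def FinInt (S : Set ℝ) : Prop :=
  ∃ F : Finset (Set ℝ), F.Nonempty ∧ (∀ I ∈ F, I.OrdConnected ∧ I.Nontrivial) ∧ S = ⋃ I ∈ F, I

/-- The closure of the set of the numbers `sign(D) |dir M|`, `M ∈ T`, `D ≠ 0`. -/
def arc (T : Set M2) : Set ℝ :=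
  closure ((fun c => |c|) '' side 1 T ∪ (fun c => -|c|) '' side (-1) T)

/-- The admissible subsets of `M₂(ℝ)`. -/
def AdmM (T : Set M2) : Prop :=
  0 ∈ T ∧ (∀ M ∈ T, ∀ (c : ℝ) (g : M2), 0 < c → g.det ≠ 0 → c • (g * M * g⁻¹) ∈ T) ∧
    (T ⊆ range (algebraMap ℝ M2) ∨ T = {M | M.trace = 0} ∨
      T = {M | M.trace = 0 ∧ (M.det ≠ 0 ∨ M = 0)} ∨
      (FinInt (side 1 T) ∧ FinInt (side (-1) T) ∧
        ((arc T).OrdConnected ∨ (Icc (-1) 1 \ arc T).OrdConnected) ∧
        ∀ M ∈ T, disc M = 0 → M.trace ≠ 0 → dir M ∈ closure (side 1 T ∪ side (-1) T)))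

end Pool.Agent.MP_4e44b6_al.H30
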