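import Pool.Agent.MP_4e44b6_al.H30.M2Suf

/-! Realization of every admissible subset of `M₂(ℝ)`. -/

namespace Pool.Agent.MP_4e44b6_al.H30

open Set Matrix

theorem Inv.subset_of_scalar {T T' : Set M2} (hT : Inv T) (hT' : Inv T') (h0 : 0 ∈ T')
    (hs : T ⊆ range (algebraMap ℝ M2)) (h1 : 1 ∈ T → 1 ∈ T') (h2 : -1 ∈ T → -1 ∈ T') : T ⊆ T' := by
  intro M hM
  obtain ⟨c, rfl⟩ := hs hM
  rw [Algebra.algebraMap_eq_smul_one] at hM ⊢
  rcases lt_trichotomy c 0 with h | rfl | h
  · have k := hT.smul hM (inv_pos.2 (neg_pos.2 h))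
    rw [smul_smul, inv_neg, neg_mul, inv_mul_cancel₀ h.ne, neg_one_smul] at k
    simpa using hT'.smul (h2 k) (neg_pos.2 h)
  · simpa using h0
  · have k := hT.smul hM (inv_pos.2 h)
    rw [smul_smul, inv_mul_cancel₀ h.ne', one_smul] at k
    exact hT'.smul (h1 k) h

theorem Inv.mem_of_traceless {T : Set M2} (hT : Inv T) {A B M : M2} (hA : A ∈ T) (hB : B ∈ T)
    (a1 : A.trace = 0) (b1 : B.trace = 0) (a2 : A.det < 0) (b2 : 0 < B.det) (h1 : M.trace = 0)
    (h2 : M.det ≠ 0) : M ∈ T := by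
  rcases lt_or_gt_of_ne h2 with h | h
  · exact hT.mem_of_dir hA (s := 1) (by rw [disc, a1]; linarith) (by rw [disc, h1]; linarith)
      (by simp [dir, a1, h1])
  · exact hT.mem_of_dir hB (s := -1) (by rw [disc, b1]; linarith) (by rw [disc, h1]; linarith)
      (by simp [dir, b1, h1])

theorem one_sub_mul_one_add {u : M2} (h : u.trace = 0) :
    (1 - u) * (1 + u) = (1 + u).det • (1 : M2) := by
  have := det_add_traceless h 1
  rw [one_smul] at this
  rw [this, sub_mul, one_mul, mul_add, mul_one, sq_traceless h, add_smul, one_pow, one_smul,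
    neg_smul]
  abel

theorem sq_sub_mul_sq_add {u : M2} (h : u.trace = 0) :
    (1 - u) * (1 - u) * ((1 + u) * (1 + u)) = ((1 + u).det * (1 + u).det) • (1 : M2) := by
  rw [Matrix.mul_assoc (1 - u), ← Matrix.mul_assoc (1 - u) (1 + u), one_sub_mul_one_add h,
    smul_mul_assoc, one_mul, mul_smul_comm, one_sub_mul_one_add h, smul_smul]

theorem sandwich_nilp {u : M2} (h : u.trace = 0) (hd : (1 + u).det = 0) (A : M2) :
    ((1 + u) * (1 + u) * A * ((1 - u) * (1 - u))).trace = 0 ∧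
      disc ((1 + u) * (1 + u) * A * ((1 - u) * (1 - u))) = 0 := by
  have h1 : ((1 + u) * (1 + u) * A * ((1 - u) * (1 - u))).trace = 0 := by
    rw [trace_mul_comm, ← Matrix.mul_assoc, sq_sub_mul_sq_add h, hd]
    simp
  exact ⟨h1, by simp [disc, h1, hd]⟩

theorem Inv.sandwich_mem {T : Set M2} (hT : Inv T) {u A : M2} (h : u.trace = 0)
    (hd : (1 + u).det ≠ 0) (hA : A ∈ T) : (1 + u) * (1 + u) * A * ((1 - u) * (1 - u)) ∈ T := by
  refine hT.conj (g := (1 + u) * (1 + u)) (hT.smul hA (mul_self_pos.2 hd))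
    (by simp [hd]) ?_
  rw [Matrix.mul_assoc (_ * A), sq_sub_mul_sq_add h, mul_smul_comm, mul_smul_comm, mul_one]

theorem NS.exists_sandwich {A : M2} (h : NS A) : ∃ x y : M2, (1 + (x * y - y * x)).det = 0 ∧
    (1 + (x * y - y * x)) * (1 + (x * y - y * x)) * A *
      ((1 - (x * y - y * x)) * (1 - (x * y - y * x))) ≠ 0 := by
  by_cases h1 : A 0 1 = 0
  · by_cases h2 : A 1 0 = 0
    · have h3 : A 0 0 ≠ A 1 1 := by simpa [NS, h1, h2] using h
      refine ⟨!![1 / 2, 0; 0, -1 / 2], !![0, 1; -1, 0], by simp [det_fin_two]; norm_num,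
        fun k => h3 ?_⟩
      have := congrFun (congrFun k 0) 0
      simp [Matrix.mul_apply, Fin.sum_univ_two, h1, h2] at this
      linarith
    · refine ⟨!![0, 0; 1, 0], !![0, 1; 0, 0], by simp [det_fin_two], fun k => h2 ?_⟩
      have := congrFun (congrFun k 1) 0
      simp [Matrix.mul_apply, Fin.sum_univ_two] at this
      linarith
  · refine ⟨!![0, 1; 0, 0], !![0, 0; 1, 0], by simp [det_fin_two], fun k => h1 ?_⟩
    have := congrFun (congrFun k 0) 1
    simp [Matrix.mul_apply, Fin.sum_univ_two] at this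
    linarith

theorem inv_not_NS : Inv {M | ¬ NS M} := by
  intro M hM c g _ hg
  rw [mem_ofPred_eq, eq_smul_one_of_not_NS hM, mul_smul_comm, mul_one, smul_mul_assoc,
    mul_nonsing_inv _ (isUnit_iff_ne_zero.2 hg), smul_smul]
  exact not_NS_smul_one _

theorem exists_poly_of_admM {T : Set M2} (hT : AdmM T) :
    ∃ (d : ℤ) (p : FreeAlgebra ℝ (Fin (6 + 2))), 0 < d ∧ IsWHom (fun i => (wt 6 i : ℤ)) d p ∧
      image M2 p = T := by
  obtain ⟨h0, hI, h⟩ := hT
  replace hI : Inv T := hI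
  have rx : RG fun y : Fin 6 → M2 => y 0 * y 1 - y 1 * y 0 := (RG.var 0).comm (RG.var 1)
  have rd := rx.negDet fun _ => trace_comm _ _
  let a : Fin 6 → M2 := ![!![0, 1; 0, 0], !![0, 0; 1, 0], 0, 0, 0, 0]
  let b : Fin 6 → M2 := ![!![1 / 2, 0; 0, -1 / 2], !![0, 1; 1, 0], 0, 0, 0, 0]
  let c : Fin 6 → M2 := ![!![1 / 2, 0; 0, -1 / 2], !![0, 1; 0, 0], 0, 0, 0, 0]
  have ha : (a 0 * a 1 - a 1 * a 0).det = -1 := by simp [a, det_fin_two]
  have hb : (b 0 * b 1 - b 1 * b 0).det = 1 := by simp [b, det_fin_two]; norm_num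
  have hc : c 0 * c 1 - c 1 * c 0 = !![0, 1; 0, 0] := by simp [c]; norm_num
  rcases h with h | rfl | rfl | ⟨h1, h2, h3, h4⟩
  · by_cases p : 1 ∈ T <;> by_cases q : -1 ∈ T
    · refine rd.image_eq h0 hI (fun y => ?_) fun T' hT' k0 k =>
        hI.subset_of_scalar hT' k0 h (fun _ => ?_) fun _ => ?_
      · generalize -(y 0 * y 1 - y 1 * y 0).det = r
        rcases lt_trichotomy r 0 with k | rfl | k
        · simpa using hI.smul q (neg_pos.2 k)
        · simpa using h0
        · exact hI.smul p k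
      · simpa only [ha, neg_neg, one_smul] using k a
      · simpa only [hb, neg_one_smul] using k b
    · exact (RG.const 1).image_eq h0 hI (fun _ => by simpa using p) fun T' hT' k0 k =>
        hI.subset_of_scalar hT' k0 h (fun _ => by simpa using k 0) fun k => (q k).elim
    · exact (RG.const (-1)).image_eq h0 hI (fun _ => by simpa using q) fun T' hT' k0 k =>
        hI.subset_of_scalar hT' k0 h (fun k => (p k).elim) fun _ => by simpa using k 0
    · exact (RG.const 0).image_eq h0 hI (fun _ => by simpa using h0) fun T' hT' k0 k =>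
        hI.subset_of_scalar hT' k0 h (fun k => (p k).elim) fun k => (q k).elim
  · refine rx.image_eq h0 hI (fun y => trace_comm _ _) fun T' hT' k0 k M hM => ?_
    by_cases m1 : M.det = 0
    · by_cases m2 : M = 0
      · rwa [m2]
      · refine hT'.mem_of_nilp (k c) ?_ m2 ?_ (by rw [disc, hM, m1]; simp) (trace_comm _ _) hM
        · rw [hc]
          exact fun e => by simpa using congrFun (congrFun e 0) 1
        · rw [hc]
          simp [disc, det_fin_two]
    · exact hT'.mem_of_traceless (k a) (k b) (trace_comm _ _) (trace_comm _ _)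
        (by rw [ha]; norm_num) (by rw [hb]; norm_num) hM m1
  · refine (rd.smul rx).image_eq h0 hI (fun y => ⟨by rw [trace_smul, trace_comm, smul_zero], ?_⟩)
      fun T' hT' k0 k M hM => ?_
    · by_cases m1 : (y 0 * y 1 - y 1 * y 0).det = 0
      · simp [m1]
      · exact Or.inl (by rw [det_smul]; simpa using m1)
    · rcases hM.2 with m1 | m1
      · exact hT'.mem_of_traceless (k a) (k b) (by rw [trace_smul, trace_comm, smul_zero])
          (by rw [trace_smul, trace_comm, smul_zero]) (by rw [det_smul, ha]; norm_num)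
          (by rw [det_smul, hb]; norm_num) hM.1 m1
      · rwa [m1]
  obtain ⟨Φ, rΦ, k1, k2⟩ := exists_core h0 hI h1 h2 h3 h4
  by_cases hN : ∃ N ∈ T, N ≠ 0 ∧ disc N = 0 ∧ N.trace = 0
  · obtain ⟨N, n0, n1, n2, n3⟩ := hN
    have ru : RG fun y : Fin 6 → M2 => y 4 * y 5 - y 5 * y 4 := (RG.var 4).comm (RG.var 5)
    have r1 : RG fun _ : Fin 6 → M2 => (1 : M2) := by simpa using RG.const (n := 6) 1
    refine ((((r1.add ru).mul (r1.add ru)).mul rΦ).mul ((r1.sub ru).mul (r1.sub ru))).image_eq h0 hI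
      (fun y => ?_) fun T' hT' k0 k M hM => ?_
    · by_cases hd : (1 + (y 4 * y 5 - y 5 * y 4)).det = 0
      · obtain ⟨t1, t2⟩ := sandwich_nilp (trace_comm _ _) hd (Φ (y 0) (y 1) (y 2) (y 3))
        by_contra hc
        exact hc (hI.mem_of_nilp n0 n1 (fun e => hc (e ▸ h0)) n2 t2 n3 t1)
      · exact hI.sandwich_mem (trace_comm _ _) hd (k1 _ _ _ _)
    by_cases m1 : M.trace ≠ 0 ∨ disc M ≠ 0
    · exact k2 T' hT' (fun x y z u => by simpa using k ![x, y, z, u, 0, 0]) M hM m1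
    by_cases m2 : M = 0
    · rwa [m2]
    push Not at m1
    obtain ⟨x, y, z, u, hA⟩ : ∃ x y z u, NS (Φ x y z u) := by
      by_contra hc
      push Not at hc
      obtain ⟨F, ⟨I, hF0⟩, hF, e⟩ := h1
      obtain ⟨t, ht⟩ := (hF I hF0).2.nonempty
      obtain ⟨M₁, a1, a2, -⟩ : t ∈ side 1 T := e ▸ mem_biUnion hF0 ht
      have a3 : disc M₁ ≠ 0 := fun e => by simp [e] at a2
      exact k2 _ inv_not_NS hc M₁ a1 (Or.inr a3) (.of_disc a3)
    obtain ⟨x', y', b1, b2⟩ := hA.exists_sandwich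
    obtain ⟨t1, t2⟩ := sandwich_nilp (trace_comm _ _) b1 (Φ x y z u)
    exact hT'.mem_of_nilp (k ![x, y, z, u, x', y']) b2 m2 t2 m1.2 t1 m1.1
  · refine rΦ.image_eq h0 hI (fun y => k1 _ _ _ _) fun T' hT' k0 k M hM => ?_
    by_cases m1 : M.trace ≠ 0 ∨ disc M ≠ 0
    · exact k2 T' hT' (fun x y z u => k ![x, y, z, u, 0, 0]) M hM m1
    · push Not at m1 hN
      rwa [not_not.1 fun e => hN M hM e m1.2 m1.1]

end Pool.Agent.MP_4e44b6_al.H30
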