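import Mathlib

/-! Signed walks on `[0, 1]` that sweep out a prescribed finite union of intervals. -/

namespace Pool.Agent.MP_4e44b6_al.H30

open Set

/-- A signed walk: nodes `y 0, …, y L`, a sign for each step, and a flag for each inner node. -/
structure Walk where
  L : ℕ
  y : ℕ → ℝ
  ε : ℕ → ℝ
  keep : ℕ → Prop

/-- The conditions a walk has to satisfy. -/
structure Walk.Valid (w : Walk) : Prop where
  mem : ∀ l ≤ w.L, w.y l ∈ Icc (0 : ℝ) 1
  ne : ∀ l < w.L, w.y l ≠ w.y (l + 1)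
  sign : ∀ l, w.ε l = 1 ∨ w.ε l = -1
  keep : ∀ l, l + 1 < w.L → w.keep l → w.ε (l + 1) = w.ε l

/-- The set swept out by a walk. -/
def Walk.cover (w : Walk) : Set ℝ :=
  {c | (∃ l < w.L, ∃ t ∈ uIoo (w.y l) (w.y (l + 1)), c = w.ε l * t) ∨
    ∃ l, l + 1 < w.L ∧ w.keep l ∧ c = w.ε l * w.y (l + 1)}

/-- One more step. -/
def Walk.snoc (w : Walk) (c e : ℝ) (kp : Prop) : Walk where
  L := w.L + 1
  y := fun l => if l = w.L + 1 then c else w.y l
  ε := fun l => if l = w.L then e else w.ε l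
  keep := fun l => (l + 1 = w.L ∧ kp) ∨ (l + 1 ≠ w.L ∧ w.keep l)

theorem Walk.Valid.snoc {w : Walk} (hw : w.Valid) {c e : ℝ} {kp : Prop} (hc : c ∈ Icc (0 : ℝ) 1)
    (hne : w.y w.L ≠ c) (he : e = 1 ∨ e = -1) (hkp : kp → e = w.ε (w.L - 1)) :
    (w.snoc c e kp).Valid := by
  refine ⟨fun l hl => ?_, fun l hl => ?_, fun l => ?_, fun l hl hk => ?_⟩
  · simp only [Walk.snoc] at hl ⊢
    split_ifs with h
    · exact hc
    · exact hw.mem l (by omega)
  · simp only [Walk.snoc] at hl ⊢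
    rw [if_neg (by omega)]
    split_ifs with h
    · have : l = w.L := by omega
      rw [this]; exact hne
    · exact hw.ne l (by omega)
  · simp only [Walk.snoc]
    split_ifs
    · exact he
    · exact hw.sign l
  · simp only [Walk.snoc] at hl hk ⊢
    rw [if_neg (show l ≠ w.L by omega)]
    rcases hk with ⟨h1, h2⟩ | ⟨h1, h2⟩
    · rw [if_pos h1, hkp h2, ← h1, Nat.add_sub_cancel]
    · rw [if_neg h1]
      exact hw.keep l (by omega) h2

theorem Walk.cover_snoc (w : Walk) (c e : ℝ) (kp : Prop) :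
    (w.snoc c e kp).cover = w.cover ∪ (fun t => e * t) '' uIoo (w.y w.L) c ∪
      {x | 0 < w.L ∧ kp ∧ x = w.ε (w.L - 1) * w.y w.L} := by
  ext x
  simp only [Walk.cover, Walk.snoc, mem_union, mem_ofPred_eq, mem_image]
  constructor
  · rintro (⟨l, hl, t, ht, rfl⟩ | ⟨l, hl, hk, rfl⟩)
    · rw [if_neg (by omega)] at ht
      by_cases h : l = w.L
      · subst h
        rw [if_pos rfl] at ht ⊢
        exact Or.inl (Or.inr ⟨t, ht, rfl⟩)
      · rw [if_neg (by omega)] at ht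
        rw [if_neg h]
        exact Or.inl (Or.inl (Or.inl ⟨l, by omega, t, ht, rfl⟩))
    · rw [if_neg (show l ≠ w.L by omega), if_neg (show l + 1 ≠ w.L + 1 by omega)]
      rcases hk with ⟨h1, h2⟩ | ⟨h1, h2⟩
      · exact Or.inr ⟨by omega, h2, by rw [← h1, Nat.add_sub_cancel]⟩
      · exact Or.inl (Or.inl (Or.inr ⟨l, by omega, h2, rfl⟩))
  · rintro (((⟨l, hl, t, ht, rfl⟩ | ⟨l, hl, hk, rfl⟩) | ⟨t, ht, rfl⟩) | ⟨h0, hk, rfl⟩)
    · refine Or.inl ⟨l, by omega, t, ?_, by rw [if_neg (by omega)]⟩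
      rwa [if_neg (by omega), if_neg (by omega)]
    · refine Or.inr ⟨l, by omega, Or.inr ⟨by omega, hk⟩, ?_⟩
      rw [if_neg (by omega), if_neg (by omega)]
    · refine Or.inl ⟨w.L, by omega, t, ?_, by rw [if_pos rfl]⟩
      rwa [if_neg (by omega), if_pos rfl]
    · refine Or.inr ⟨w.L - 1, by omega, Or.inl ⟨by omega, hk⟩, ?_⟩
      rw [if_neg (by omega), if_neg (by omega), Nat.sub_add_cancel h0]

/-- Some valid walk from `b₀` to `b` sweeps out `T`. -/
def Reach (b₀ : ℝ) (T : Set ℝ) (b : ℝ) : Prop :=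
  ∃ w : Walk, w.Valid ∧ w.y 0 = b₀ ∧ w.y w.L = b ∧ w.cover = T

/-- Walks ending at `a` extend to walks ending at `b` that sweep out `T` in addition. -/
def Move (a b : ℝ) (T : Set ℝ) : Prop :=
  ∀ b₀ T₀, Reach b₀ T₀ a → Reach b₀ (T₀ ∪ T) b

theorem reach_start {b₀ : ℝ} (h : b₀ ∈ Icc (0 : ℝ) 1) : Reach b₀ ∅ b₀ :=
  ⟨⟨0, fun _ => b₀, fun _ => 1, fun _ => False⟩,
    ⟨fun _ _ => h, fun l hl => absurd hl (Nat.not_lt_zero l), fun _ => Or.inl rfl,
      fun _ _ h => h.elim⟩, rfl, rfl, by simp [Walk.cover]⟩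

theorem Move.refl (a : ℝ) : Move a a ∅ := fun _ _ h => by simpa using h

theorem Move.trans {a b c : ℝ} {T T' : Set ℝ} (h : Move a b T) (h' : Move b c T') :
    Move a c (T ∪ T') := fun b₀ T₀ h₀ => by
  rw [← union_assoc]
  exact h' _ _ (h _ _ h₀)

theorem Move.step {a b e : ℝ} (hb : b ∈ Icc (0 : ℝ) 1) (he : e = 1 ∨ e = -1) :
    Move a b ((fun t => e * t) '' uIoo a b) := by
  by_cases hab : a = b
  · subst hab
    simpa [uIoo_self] using Move.refl a
  rintro b₀ T₀ ⟨w, hw, h0, hL, hT⟩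
  refine ⟨w.snoc b e False, hw.snoc hb (hL ▸ hab) he (fun h => h.elim), ?_, ?_, ?_⟩
  · simpa [Walk.snoc] using h0
  · simp [Walk.snoc]
  · rw [Walk.cover_snoc, hT, hL]
    simp

theorem Move.step_keep {a b c e : ℝ} (hb : b ∈ Icc (0 : ℝ) 1) (hc : c ∈ Icc (0 : ℝ) 1)
    (hab : a ≠ b) (hbc : b ≠ c) (he : e = 1 ∨ e = -1) :
    Move a c ((fun t => e * t) '' (uIoo a b ∪ uIoo b c ∪ {b})) := by
  rintro b₀ T₀ ⟨w, hw, h0, hL, hT⟩
  have h1 := hw.snoc (kp := False) hb (hL ▸ hab) he (fun h => h.elim)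
  have e1 : (w.snoc b e False).y (w.snoc b e False).L = b := by simp [Walk.snoc]
  have e2 : (w.snoc b e False).ε ((w.snoc b e False).L - 1) = e := by simp [Walk.snoc]
  refine ⟨(w.snoc b e False).snoc c e True, h1.snoc hc (by rw [e1]; exact hbc) he
    (fun _ => e2.symm), ?_, ?_, ?_⟩
  · simpa [Walk.snoc] using h0
  · simp [Walk.snoc]
  · rw [Walk.cover_snoc, e1, e2, Walk.cover_snoc, hT, hL, image_union, image_union,
      image_singleton]
    have : 0 < (w.snoc b e False).L := by simp [Walk.snoc]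
    ext x
    simp [this, or_assoc]

theorem Move.sweep {J : Set ℝ} (hJ : J.OrdConnected) (hJn : J.Nontrivial)
    (hJ1 : J ⊆ Icc (0 : ℝ) 1) {e : ℝ} (he : e = 1 ∨ e = -1) :
    ∃ a ∈ closure J, Move a a ((fun t => e * t) '' J) ∧
      ∀ b ∈ closure J, ∀ c ∈ closure J, ∃ T ⊆ (fun t => e * t) '' J, Move b c T := by
  have hbb : BddBelow J := ⟨0, fun x hx => (hJ1 hx).1⟩
  have hba : BddAbove J := ⟨1, fun x hx => (hJ1 hx).2⟩
  have hne : J.Nonempty := hJn.nonempty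
  set α := sInf J
  set β := sSup J
  have hsub : J ⊆ Icc α β := fun x hx => ⟨csInf_le hbb hx, le_csSup hba hx⟩
  have hsup : Ioo α β ⊆ J := by
    intro x hx
    obtain ⟨a, ha, hax⟩ := exists_lt_of_csInf_lt hne hx.1
    obtain ⟨b, hb, hxb⟩ := exists_lt_of_lt_csSup hne hx.2
    exact hJ.out ha hb ⟨hax.le, hxb.le⟩
  have hαβ : α < β := by
    obtain ⟨a, ha, b, hb, hab⟩ := hJn.exists_lt
    exact (hsub ha).1.trans_lt (hab.trans_le (hsub hb).2)
  have hcl : closure J ⊆ Icc α β := closure_minimal hsub isClosed_Icc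
  have hcl1 : closure J ⊆ Icc (0 : ℝ) 1 := closure_minimal hJ1 isClosed_Icc
  have hα : α ∈ closure J := csInf_mem_closure hne hbb
  have hβ : β ∈ closure J := csSup_mem_closure hne hba
  refine ⟨α, hα, ?_, fun b hb c hc => ⟨_, image_mono ((uIoo_subset_Ioo (hcl hb) (hcl hc)).trans
    hsup), Move.step (hcl1 hc) he⟩⟩
  have m1 := (Move.step (a := α) (hcl1 hβ) he).trans (Move.step (a := β) (hcl1 hα) he)
  have m2 : ∃ T, Move α α ((fun t => e * t) '' T) ∧ T ⊆ J ∧ (β ∈ J → β ∈ T) := by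
    by_cases h : β ∈ J
    · refine ⟨_, Move.step_keep (hcl1 hβ) (hcl1 hα) hαβ.ne hαβ.ne' he, ?_, fun _ => by simp⟩
      rw [uIoo_of_lt hαβ, uIoo_of_gt hαβ, union_self]
      exact union_subset hsup (singleton_subset_iff.2 h)
    · exact ⟨∅, by simpa using Move.refl α, empty_subset _, fun h' => absurd h' h⟩
  have m3 : ∃ T, Move β β ((fun t => e * t) '' T) ∧ T ⊆ J ∧ (α ∈ J → α ∈ T) := by
    by_cases h : α ∈ J
    · refine ⟨_, Move.step_keep (hcl1 hα) (hcl1 hβ) hαβ.ne' hαβ.ne he, ?_, fun _ => by simp⟩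
      rw [uIoo_of_lt hαβ, uIoo_of_gt hαβ, union_self]
      exact union_subset hsup (singleton_subset_iff.2 h)
    · exact ⟨∅, by simpa using Move.refl β, empty_subset _, fun h' => absurd h' h⟩
  obtain ⟨T₂, m2, s2, k2⟩ := m2
  obtain ⟨T₃, m3, s3, k3⟩ := m3
  have m4 := m2.trans (((Move.step (a := α) (hcl1 hβ) he).trans m3).trans
    (Move.step (a := β) (hcl1 hα) he))
  rw [uIoo_of_lt hαβ, uIoo_of_gt hαβ, ← image_union, ← image_union, ← image_union] at m4
  have : T₂ ∪ (Ioo α β ∪ T₃ ∪ Ioo α β) = J := by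
    apply subset_antisymm
    · exact union_subset s2 (union_subset (union_subset hsup s3) hsup)
    · intro x hx
      rcases (hsub hx).1.eq_or_lt with h | h
      · exact Or.inr (Or.inl (Or.inr (h ▸ k3 (h ▸ hx))))
      rcases (hsub hx).2.eq_or_lt with h' | h'
      · exact Or.inl (h' ▸ k2 (h' ▸ hx))
      · exact Or.inr (Or.inr ⟨h, h'⟩)
  rwa [this] at m4

theorem reach_of_family {ι : Type*} {s : Set ι} (hs : s.Finite) (J : ι → Set ℝ) (e : ι → ℝ)
    (hJ : ∀ i ∈ s, (J i).OrdConnected) (hJn : ∀ i ∈ s, (J i).Nontrivial)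
    (hJ1 : ∀ i ∈ s, J i ⊆ Icc (0 : ℝ) 1) (he : ∀ i ∈ s, e i = 1 ∨ e i = -1)
    (hconn : IsPreconnected (⋃ i ∈ s, closure (J i))) {b₀ : ℝ}
    (hb₀ : b₀ ∈ ⋃ i ∈ s, closure (J i)) :
    Reach b₀ (⋃ i ∈ s, (fun t => e i * t) '' J i) b₀ := by
  set S := ⋃ i ∈ s, (fun t => e i * t) '' J i with hS
  have hsubS : ∀ i ∈ s, (fun t => e i * t) '' J i ⊆ S := fun i hi =>
    subset_biUnion_of_mem (u := fun i => (fun t => e i * t) '' J i) hi
  let R : ℝ → Prop := fun y => (∃ T ⊆ S, Move b₀ y T) ∧ ∃ T ⊆ S, Move y b₀ T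
  have hR : ∀ i ∈ s, ∀ b ∈ closure (J i), ∀ c ∈ closure (J i), R b → R c := by
    rintro i hi b hb c hc ⟨⟨T₁, s1, m1⟩, ⟨T₂, s2, m2⟩⟩
    obtain ⟨-, -, -, h⟩ := Move.sweep (hJ i hi) (hJn i hi) (hJ1 i hi) (he i hi)
    obtain ⟨T₃, s3, m3⟩ := h b hb c hc
    obtain ⟨T₄, s4, m4⟩ := h c hc b hb
    exact ⟨⟨_, union_subset s1 (s3.trans (hsubS i hi)), m1.trans m3⟩,
      ⟨_, union_subset (s4.trans (hsubS i hi)) s2, m4.trans m2⟩⟩
  have hR0 : R b₀ := ⟨⟨∅, empty_subset _, Move.refl _⟩, ⟨∅, empty_subset _, Move.refl _⟩⟩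
  have hall : ∀ i ∈ s, ∀ b ∈ closure (J i), R b := by
    have h := isPreconnected_iff_subset_of_disjoint_closed.1 hconn
      (⋃ i ∈ {i ∈ s | ∀ b ∈ closure (J i), R b}, closure (J i))
      (⋃ i ∈ {i ∈ s | ∀ b ∈ closure (J i), ¬ R b}, closure (J i))
      ((hs.subset (sep_subset _ _)).isClosed_biUnion fun _ _ => isClosed_closure)
      ((hs.subset (sep_subset _ _)).isClosed_biUnion fun _ _ => isClosed_closure) ?_ ?_
    · rcases h with h | h
      · intro i hi b hb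
        have := h (mem_biUnion hi hb)
        simp only [mem_iUnion] at this
        obtain ⟨j, hj, hbj⟩ := this
        exact hj.2 b hbj
      · have := h hb₀
        simp only [mem_iUnion] at this
        obtain ⟨j, hj, hbj⟩ := this
        exact absurd hR0 (hj.2 _ hbj)
    · intro x hx
      simp only [mem_iUnion] at hx
      obtain ⟨i, hi, hx⟩ := hx
      by_cases hRx : R x
      · exact Or.inl (mem_biUnion (x := i) ⟨hi, fun b hb => hR i hi x hx b hb hRx⟩ hx)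
      · exact Or.inr (mem_biUnion (x := i) ⟨hi, fun b hb h => hRx (hR i hi b hb x hx h)⟩ hx)
    · rw [eq_empty_iff_forall_notMem]
      rintro x ⟨-, h1, h2⟩
      simp only [mem_iUnion] at h1 h2
      obtain ⟨i, hi, hxi⟩ := h1
      obtain ⟨j, hj, hxj⟩ := h2
      exact hj.2 x hxj (hi.2 x hxi)
  have hloop : ∀ i ∈ s, ∃ T ⊆ S, (fun t => e i * t) '' J i ⊆ T ∧ Move b₀ b₀ T := by
    intro i hi
    obtain ⟨a, ha, m, -⟩ := Move.sweep (hJ i hi) (hJn i hi) (hJ1 i hi) (he i hi)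
    obtain ⟨⟨T₁, s1, m1⟩, ⟨T₂, s2, m2⟩⟩ := hall i hi a ha
    exact ⟨_, union_subset (union_subset s1 (hsubS i hi)) s2,
      subset_union_right.trans subset_union_left, (m1.trans m).trans m2⟩
  have hfin : ∀ t : Set ι, t.Finite → t ⊆ s →
      ∃ T ⊆ S, (⋃ i ∈ t, (fun t => e i * t) '' J i) ⊆ T ∧ Move b₀ b₀ T := by
    intro t ht
    induction t, ht using Set.Finite.induction_on with
    | empty => exact fun _ => ⟨∅, empty_subset _, by simp, Move.refl _⟩
    | insert _ _ ih =>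
      intro hsub
      obtain ⟨T₁, s1, c1, m1⟩ := ih ((subset_insert _ _).trans hsub)
      obtain ⟨T₂, s2, c2, m2⟩ := hloop _ (hsub (mem_insert _ _))
      refine ⟨_, union_subset s2 s1, ?_, m2.trans m1⟩
      rw [biUnion_insert]
      exact union_subset_union c2 c1
  obtain ⟨T, s1, c1, m⟩ := hfin s hs subset_rfl
  have hb1 : b₀ ∈ Icc (0 : ℝ) 1 := by
    simp only [mem_iUnion] at hb₀
    obtain ⟨i, hi, h⟩ := hb₀
    exact closure_minimal (hJ1 i hi) isClosed_Icc h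
  have := m b₀ ∅ (reach_start hb1)
  rwa [empty_union, subset_antisymm s1 c1] at this

end Pool.Agent.MP_4e44b6_al.H30
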