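import Pool.Agent.MP_4e44b6_al.H30.Zigzag
import Pool.Agent.MP_4e44b6_al.H30.Walk

/-! Every admissible set of directions is the set of directions of `A(ν²) + i ν B(ν²)`. -/

namespace Pool.Agent.MP_4e44b6_al.H30

open Set Polynomial

/-- The cosines of the arguments of the nonzero values `A(ν²) + i ν B(ν²)`, `ν > 0`. -/
def cset (A B : ℝ[X]) : Set ℝ :=
  {c | ∃ ν : ℝ, 0 < ν ∧ A.eval (ν ^ 2) ^ 2 + (ν * B.eval (ν ^ 2)) ^ 2 ≠ 0 ∧
    c = A.eval (ν ^ 2) / √(A.eval (ν ^ 2) ^ 2 + (ν * B.eval (ν ^ 2)) ^ 2)}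

/-- Functions of `ν` of the form `G(ν²) / (1 + ν²)^k`. -/
def EG (φ : ℝ → ℝ) : Prop := ∃ (k : ℕ) (G : ℝ[X]), ∀ ν : ℝ, φ ν * (1 + ν ^ 2) ^ k = G.eval (ν ^ 2)

theorem EG.const (c : ℝ) : EG fun _ => c := ⟨0, C c, fun ν => by simp⟩

theorem EG.add {φ ψ : ℝ → ℝ} (h : EG φ) (h' : EG ψ) : EG fun ν => φ ν + ψ ν := by
  obtain ⟨k, G, hG⟩ := h
  obtain ⟨k', G', hG'⟩ := h'
  refine ⟨k + k', G * (1 + X) ^ k' + G' * (1 + X) ^ k, fun ν => ?_⟩
  simp only [eval_add, eval_mul, eval_pow, eval_one, eval_X, ← hG, ← hG']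
  ring

theorem EG.mul {φ ψ : ℝ → ℝ} (h : EG φ) (h' : EG ψ) : EG fun ν => φ ν * ψ ν := by
  obtain ⟨k, G, hG⟩ := h
  obtain ⟨k', G', hG'⟩ := h'
  refine ⟨k + k', G * G', fun ν => ?_⟩
  simp only [eval_mul, ← hG, ← hG']
  ring

theorem EG.poly {φ : ℝ → ℝ} (h : EG φ) (P : ℝ[X]) : EG fun ν => P.eval (φ ν) := by
  induction P using Polynomial.induction_on with
  | C a => simpa using EG.const a
  | add p q hp hq => simpa using hp.add hq
  | monomial n a ih =>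
    have := ih.mul h
    simpa [pow_succ, mul_assoc] using this

theorem EG.inv : EG fun ν => (1 + ν ^ 2)⁻¹ :=
  ⟨1, 1, fun ν => by
    have : (1 + ν ^ 2) ≠ 0 := by positivity
    simp [this]⟩

theorem EG.sq : EG fun ν => ν ^ 2 := ⟨0, X, fun ν => by simp⟩

theorem EG.pair {φ ψ : ℝ → ℝ} (h : EG φ) (h' : EG ψ) :
    ∃ A B : ℝ[X], ∀ ν : ℝ, ∃ s : ℝ, 0 < s ∧ A.eval (ν ^ 2) = s * φ ν ∧
      B.eval (ν ^ 2) = s * ψ ν := by
  obtain ⟨k, G, hG⟩ := h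
  obtain ⟨k', G', hG'⟩ := h'
  refine ⟨G * (1 + X) ^ k', G' * (1 + X) ^ k, fun ν => ⟨(1 + ν ^ 2) ^ (k + k'), by positivity,
    ?_, ?_⟩⟩ <;>
  simp only [eval_add, eval_mul, eval_pow, eval_one, eval_X, ← hG, ← hG'] <;> ring

theorem image_uIoo_of_injOn {χ : ℝ → ℝ} (hc : Continuous χ) (hi : InjOn χ (Icc 0 1)) {a b : ℝ}
    (ha : a ∈ Icc (0 : ℝ) 1) (hb : b ∈ Icc (0 : ℝ) 1) : χ '' uIoo a b = uIoo (χ a) (χ b) := by
  wlog hab : a ≤ b generalizing a b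
  · rw [uIoo_comm a b, uIoo_comm (χ a) (χ b)]
    exact this hb ha (le_of_not_ge hab)
  have hsub : Icc a b ⊆ Icc 0 1 := Icc_subset_Icc ha.1 hb.2
  rw [uIoo_of_le hab]
  rcases ContinuousOn.strictMonoOn_of_injOn_Icc' hab hc.continuousOn (hi.mono hsub) with h | h
  · rw [hc.continuousOn.image_Ioo_of_strictMonoOn hab h,
      uIoo_of_le (h.monotoneOn (left_mem_Icc.2 hab) (right_mem_Icc.2 hab) hab)]
  · rw [hc.continuousOn.image_Ioo_of_strictAntiOn hab h,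
      uIoo_of_ge (h.antitoneOn (left_mem_Icc.2 hab) (right_mem_Icc.2 hab) hab)]

theorem realize_aux (w : Walk) (hw : w.Valid) (hL : 0 < w.L) (α β : ℝ → ℝ) (hα : Continuous α)
    (hαβ : ∀ z, α z ^ 2 + β z ^ 2 = (1 + z ^ 2) ^ 2)
    (hi : InjOn (fun z => α z / (1 + z ^ 2)) (Icc 0 1))
    (hs : Icc (0 : ℝ) 1 ⊆ (fun z => α z / (1 + z ^ 2)) '' Icc 0 1) (h0 : w.y 0 = α 0)
    (hAB : ∀ F H : ℝ[X], ∃ A B : ℝ[X], ∀ ν : ℝ, 0 < ν → ∃ s : ℝ, 0 < s ∧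
      A.eval (ν ^ 2) = s * F.eval ((2 * w.L * ν / (1 + ν ^ 2)) ^ 2) *
        α (2 * w.L * ν / (1 + ν ^ 2) * H.eval ((2 * w.L * ν / (1 + ν ^ 2)) ^ 2)) ∧
      ν * B.eval (ν ^ 2) = s * F.eval ((2 * w.L * ν / (1 + ν ^ 2)) ^ 2) *
        β (2 * w.L * ν / (1 + ν ^ 2) * H.eval ((2 * w.L * ν / (1 + ν ^ 2)) ^ 2))) :
    ∃ A B : ℝ[X], cset A B = w.cover := by
  set χ : ℝ → ℝ := fun z => α z / (1 + z ^ 2) with hχ
  have hχc : Continuous χ := hα.div (by fun_prop) fun z => by positivity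
  choose! z hz hzy using fun l (hl : l ≤ w.L) => hs (hw.mem l hl)
  have hz0 : z 0 = 0 := hi (hz 0 (Nat.zero_le _)) ⟨le_rfl, zero_le_one⟩ (by
    rw [hzy 0 (Nat.zero_le _), h0]; simp [hχ])
  have hzne : ∀ l < w.L, z l ≠ z (l + 1) := fun l hl h => hw.ne l hl (by
    rw [← hzy l hl.le, ← hzy (l + 1) hl, h])
  obtain ⟨H, hH1, hH2⟩ := exists_zigzag w.L z hz0 hzne
  obtain ⟨F, hF1, hF2, hF3⟩ := exists_sign_poly w.ε hw.sign w.keep w.L hw.keep
  obtain ⟨A, B, hAB⟩ := hAB F H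
  refine ⟨A, B, ?_⟩
  have hL' : (0 : ℝ) < w.L := by exact_mod_cast hL
  have key : ∀ ν : ℝ, 0 < ν → ∀ μ, μ = 2 * w.L * ν / (1 + ν ^ 2) →
      (A.eval (ν ^ 2) ^ 2 + (ν * B.eval (ν ^ 2)) ^ 2 ≠ 0 ↔ F.eval (μ ^ 2) ≠ 0) ∧
      ∀ e : ℝ, e = 1 ∨ e = -1 → 0 < e * F.eval (μ ^ 2) →
        A.eval (ν ^ 2) / √(A.eval (ν ^ 2) ^ 2 + (ν * B.eval (ν ^ 2)) ^ 2) =
          e * χ (μ * H.eval (μ ^ 2)) := by
    intro ν hν μ hμ
    obtain ⟨s, hs, h1, h2⟩ := hAB ν hν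
    rw [← hμ] at h1 h2
    set Z := μ * H.eval (μ ^ 2)
    set f := F.eval (μ ^ 2)
    have hZ : 0 < 1 + Z ^ 2 := by positivity
    have e1 : A.eval (ν ^ 2) ^ 2 + (ν * B.eval (ν ^ 2)) ^ 2 = (s * f * (1 + Z ^ 2)) ^ 2 := by
      rw [h1, h2]
      linear_combination (s * f) ^ 2 * hαβ Z
    rw [e1]
    refine ⟨by simp [hs.ne', hZ.ne'], fun e he hef => ?_⟩
    have hf : f ≠ 0 := fun h => by simp [h] at hef
    have e2 : (s * f * (1 + Z ^ 2)) ^ 2 = (s * (e * f) * (1 + Z ^ 2)) ^ 2 := by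
      rcases he with rfl | rfl <;> ring
    rw [e2, Real.sqrt_sq (by positivity), h1, hχ]
    rcases he with rfl | rfl <;> field_simp
  ext c
  constructor
  · rintro ⟨ν, hν, hne, rfl⟩
    set μ := 2 * w.L * ν / (1 + ν ^ 2) with hμ
    obtain ⟨k1, k2⟩ := key ν hν μ hμ
    have hf := k1.1 hne
    have hμ0 : 0 < μ := by positivity
    have hμL : μ ≤ w.L := by
      rw [hμ, div_le_iff₀ (by positivity)]
      nlinarith [sq_nonneg (ν - 1)]
    obtain ⟨l, hl⟩ : ∃ l : ℕ, ⌈μ⌉₊ = l + 1 := ⟨⌈μ⌉₊ - 1, by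
      have := Nat.ceil_pos.2 hμ0; omega⟩
    have hl1 : (l : ℝ) < μ := Nat.lt_ceil.1 (by omega)
    have hl2 : μ ≤ l + 1 := by
      have := Nat.le_ceil μ
      rw [hl] at this
      exact_mod_cast this
    have hlL : l < w.L := by exact_mod_cast hl1.trans_le hμL
    rcases hl2.eq_or_lt with h | h
    · have hk : l + 1 < w.L ∧ w.keep l := by
        by_contra hk
        exact hf (h ▸ hF2 l hlL hk)
      refine Or.inr ⟨l, hk.1, hk.2, ?_⟩
      rw [k2 _ (hw.sign l) (h ▸ hF3 l hk.1 hk.2), ← hzy (l + 1) hlL, ← hH1 (l + 1) hlL, h]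
      push_cast
      rfl
    · refine Or.inl ⟨l, hlL, χ (μ * H.eval (μ ^ 2)), ?_,
        k2 _ (hw.sign l) (hF1 l hlL μ ⟨hl1, h⟩)⟩
      rw [← hzy l hlL.le, ← hzy (l + 1) hlL,
        ← image_uIoo_of_injOn hχc hi (hz l hlL.le) (hz (l + 1) hlL), ← hH2 l hlL]
      exact ⟨_, ⟨μ, ⟨hl1, h⟩, rfl⟩, rfl⟩
  · have hsurj : ∀ μ ∈ Ioc (0 : ℝ) w.L, ∃ ν : ℝ, 0 < ν ∧ μ = 2 * w.L * ν / (1 + ν ^ 2) := by
      intro μ hμ
      have hc : ContinuousOn (fun ν : ℝ => 2 * w.L * ν / (1 + ν ^ 2)) (Icc 0 1) :=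
        (Continuous.div (by fun_prop) (by fun_prop) fun ν => by positivity).continuousOn
      have hmem : μ ∈ Ioc (2 * w.L * 0 / (1 + 0 ^ 2) : ℝ) (2 * w.L * 1 / (1 + 1 ^ 2)) :=
        ⟨by simpa using hμ.1, by norm_num; linarith [hμ.2]⟩
      obtain ⟨ν, hν, h⟩ := intermediate_value_Ioc zero_le_one hc hmem
      exact ⟨ν, hν.1, h.symm⟩
    rintro (⟨l, hl, t, ht, rfl⟩ | ⟨l, hl, hk, rfl⟩)
    · rw [← hzy l hl.le, ← hzy (l + 1) hl,
        ← image_uIoo_of_injOn hχc hi (hz l hl.le) (hz (l + 1) hl), ← hH2 l hl] at ht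
      obtain ⟨_, ⟨μ, hμ, rfl⟩, rfl⟩ := ht
      have hlL : (l : ℝ) + 1 ≤ w.L := by exact_mod_cast hl
      obtain ⟨ν, hν, hνμ⟩ := hsurj μ ⟨(Nat.cast_nonneg l).trans_lt hμ.1, hμ.2.le.trans hlL⟩
      obtain ⟨k1, k2⟩ := key ν hν μ hνμ
      have hf := hF1 l hl μ hμ
      exact ⟨ν, hν, k1.2 fun h => by simp [h] at hf, (k2 _ (hw.sign l) hf).symm⟩
    · have hlL : (l : ℝ) + 1 ≤ w.L := by exact_mod_cast hl.le
      obtain ⟨ν, hν, hνμ⟩ := hsurj (l + 1) ⟨by positivity, hlL⟩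
      obtain ⟨k1, k2⟩ := key ν hν _ hνμ
      have hf := hF3 l hl hk
      refine ⟨ν, hν, k1.2 fun h => by simp [h] at hf, ?_⟩
      rw [k2 _ (hw.sign l) hf, ← hzy (l + 1) hl.le, ← hH1 (l + 1) hl.le]
      push_cast
      rfl

theorem EG.mu_sq (L : ℝ) : EG fun ν => (2 * L * ν / (1 + ν ^ 2)) ^ 2 := by
  have := ((EG.const (4 * L ^ 2)).mul EG.sq).mul (EG.inv.mul EG.inv)
  convert this using 2 with ν
  have : (1 + ν ^ 2) ≠ 0 := by positivity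
  field_simp
  ring

theorem realize_walk (w : Walk) (hw : w.Valid) (h0 : w.y 0 = 0 ∨ w.y 0 = 1) :
    ∃ A B : ℝ[X], cset A B = w.cover := by
  rcases Nat.eq_zero_or_pos w.L with hL | hL
  · refine ⟨0, 0, ?_⟩
    simp [cset, Walk.cover, hL]
  have hm := EG.mu_sq w.L
  rcases h0 with h0 | h0
  · refine realize_aux w hw hL (fun z => 2 * z) (fun z => 1 - z ^ 2) (by fun_prop)
      (fun z => by ring) ?_ ?_ (by simpa using h0) fun F H => ?_
    · intro a ha b hb h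
      simp only at h
      rw [div_eq_div_iff (by positivity) (by positivity)] at h
      have h1 : (a - b) * (1 - a * b) = 0 := by linarith
      rcases mul_eq_zero.1 h1 with h2 | h2
      · linarith
      · nlinarith [ha.1, ha.2, hb.1, hb.2]
    · have hc : ContinuousOn (fun z : ℝ => 2 * z / (1 + z ^ 2)) (Icc 0 1) :=
        (Continuous.div (by fun_prop) (by fun_prop) fun ν => by positivity).continuousOn
      have := intermediate_value_Icc zero_le_one hc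
      norm_num at this ⊢
      exact this
    · obtain ⟨A, B, h⟩ := EG.pair
        ((hm.poly F).mul ((((EG.const (4 * w.L)).mul EG.sq).mul EG.inv).mul (hm.poly H)))
        ((hm.poly F).mul ((EG.const 1).add ((EG.const (-1)).mul
          (hm.mul ((hm.poly H).mul (hm.poly H))))))
      refine ⟨A, B, fun ν hν => ?_⟩
      obtain ⟨s, hs, h1, h2⟩ := h ν
      refine ⟨s * ν, by positivity, ?_, ?_⟩
      · rw [h1]; ring
      · rw [h2]; ring
  · refine realize_aux w hw hL (fun z => 1 - z ^ 2) (fun z => 2 * z) (by fun_prop)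
      (fun z => by ring) ?_ ?_ (by simpa using h0) fun F H => ?_
    · intro a ha b hb h
      simp only at h
      rw [div_eq_div_iff (by positivity) (by positivity)] at h
      have h1 : a ^ 2 = b ^ 2 := by linarith
      exact (pow_left_inj₀ ha.1 hb.1 two_ne_zero).1 h1
    · have hc : ContinuousOn (fun z : ℝ => (1 - z ^ 2) / (1 + z ^ 2)) (Icc 0 1) :=
        (Continuous.div (by fun_prop) (by fun_prop) fun ν => by positivity).continuousOn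
      have := intermediate_value_Icc' zero_le_one hc
      norm_num at this ⊢
      exact this
    · obtain ⟨A, B, h⟩ := EG.pair
        ((hm.poly F).mul ((EG.const 1).add ((EG.const (-1)).mul
          (hm.mul ((hm.poly H).mul (hm.poly H))))))
        ((hm.poly F).mul (((EG.const (4 * w.L)).mul EG.inv).mul (hm.poly H)))
      refine ⟨A, B, fun ν hν => ?_⟩
      obtain ⟨s, hs, h1, h2⟩ := h ν
      refine ⟨s, hs, ?_, ?_⟩
      · rw [h1]; ring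
      · rw [h2]; ring

end Pool.Agent.MP_4e44b6_al.H30
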