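import Pool.Agent.MP_4e44b6_al.H30.Hom
import Pool.Agent.MP_4e44b6_al.H30.Realize

/-! Images on the quaternions are cones over their sets of directions; the construction. -/

namespace Pool.Agent.MP_4e44b6_al.H30

open Set Quaternion Polynomial

/-- The set of values of `Re q / |q|` at the nonzero values `q` of `p`. -/
def dirs {m : ℕ} (p : FreeAlgebra ℝ (Fin m)) : Set ℝ :=
  {c | ∃ a : Fin m → ℍ[ℝ], FreeAlgebra.lift ℝ a p ≠ 0 ∧
    c = (FreeAlgebra.lift ℝ a p).re / ‖FreeAlgebra.lift ℝ a p‖}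

/-- A quaternion from its four coordinates. -/
def qmk (a b c d : ℝ) : ℍ[ℝ] := ⟨a, b, c, d⟩

@[simp] theorem qmk_re (a b c d : ℝ) : (qmk a b c d).re = a := rfl
@[simp] theorem qmk_imI (a b c d : ℝ) : (qmk a b c d).imI = b := rfl
@[simp] theorem qmk_imJ (a b c d : ℝ) : (qmk a b c d).imJ = c := rfl
@[simp] theorem qmk_imK (a b c d : ℝ) : (qmk a b c d).imK = d := rfl

theorem norm_eq_sqrt (q : ℍ[ℝ]) : ‖q‖ = √(q.re ^ 2 + q.imI ^ 2 + q.imJ ^ 2 + q.imK ^ 2) := by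
  rw [← normSq_def', normSq_eq_norm_mul_self, Real.sqrt_mul_self (norm_nonneg _)]

theorem norm_sq_eq (q : ℍ[ℝ]) : ‖q‖ ^ 2 = q.re ^ 2 + q.imI ^ 2 + q.imJ ^ 2 + q.imK ^ 2 := by
  rw [norm_eq_sqrt, Real.sq_sqrt (by positivity)]

theorem exists_conj {q q' : ℍ[ℝ]} (hre : q.re = q'.re) (hn : ‖q‖ = ‖q'‖) :
    ∃ u : ℍ[ℝ], u ≠ 0 ∧ u * q = q' * u := by
  have h : q.imI ^ 2 + q.imJ ^ 2 + q.imK ^ 2 = q'.imI ^ 2 + q'.imJ ^ 2 + q'.imK ^ 2 := by
    have h1 := norm_sq_eq q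
    have h2 := norm_sq_eq q'
    rw [hn, h2, hre] at h1
    linarith
  by_cases h0 : qmk 0 (q.imI + q'.imI) (q.imJ + q'.imJ) (q.imK + q'.imK) = 0
  · have e1 : q'.imI = -q.imI := by have := congrArg (·.imI) h0; simp at this; linarith
    have e2 : q'.imJ = -q.imJ := by have := congrArg (·.imJ) h0; simp at this; linarith
    have e3 : q'.imK = -q.imK := by have := congrArg (·.imK) h0; simp at this; linarith
    by_cases h1 : qmk 0 (-q.imJ) q.imI 0 = 0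
    · have e4 : q.imJ = 0 := by have := congrArg (·.imI) h1; simpa using this
      have e5 : q.imI = 0 := by have := congrArg (·.imJ) h1; simpa using this
      refine ⟨qmk 0 1 0 0, fun h => by have := congrArg (·.imI) h; simp at this, ?_⟩
      ext <;> simp [e1, e2, e3, e4, e5, hre]
    · refine ⟨_, h1, ?_⟩
      ext <;> simp [e1, e2, e3, hre] <;> ring
  · refine ⟨_, h0, ?_⟩
    ext <;> simp [hre]
    · linarith
    all_goals ring

theorem image_eq_coneOver {m : ℕ} {w : Fin m → ℤ} {d : ℤ} {p : FreeAlgebra ℝ (Fin m)}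
    (hp : IsWHom w d p) (hd : d ≠ 0) : image ℍ[ℝ] p = coneOver (dirs p) := by
  ext q
  constructor
  · rintro ⟨a, rfl⟩
    by_cases h : FreeAlgebra.lift ℝ a p = 0
    · exact Or.inl h
    · exact Or.inr ⟨a, h, rfl⟩
  · intro hq
    by_cases hq0 : q = 0
    · exact ⟨fun _ => 0, by rw [hq0]; exact hp.lift_zero hd⟩
    obtain ⟨a, ha, hc⟩ := hq.resolve_left hq0
    set q₀ := FreeAlgebra.lift ℝ a p with hq₀
    have h1 : 0 < ‖q‖ := norm_pos_iff.2 hq0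
    have h2 : 0 < ‖q₀‖ := norm_pos_iff.2 ha
    set r := ‖q‖ / ‖q₀‖ with hr
    have hr0 : 0 < r := div_pos h1 h2
    have hc0 : 0 < r ^ ((d : ℝ)⁻¹) := Real.rpow_pos_of_pos hr0 _
    have hcd : (r ^ ((d : ℝ)⁻¹)) ^ d = r := by
      rw [← Real.rpow_intCast, ← Real.rpow_mul hr0.le, inv_mul_cancel₀ (by exact_mod_cast hd),
        Real.rpow_one]
    have h3 := hp.scale hc0.ne' a
    rw [hcd, ← hq₀] at h3
    obtain ⟨u, hu, huq⟩ := exists_conj (q := r • q₀) (q' := q) (by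
        rw [re_smul, smul_eq_mul, hr]
        rw [div_eq_div_iff h1.ne' h2.ne'] at hc
        field_simp
        linarith) (by
        rw [norm_smul, Real.norm_eq_abs, abs_of_pos hr0, hr, div_mul_cancel₀ _ h2.ne'])
    refine ⟨fun i => u * ((r ^ ((d : ℝ)⁻¹)) ^ w i • a i) * u⁻¹, ?_⟩
    simp only
    rw [lift_conj u u⁻¹ (mul_inv_cancel₀ hu) (inv_mul_cancel₀ hu), h3, huq,
      mul_inv_cancel_right₀ hu]

theorem neg_sq_pure {v : ℍ[ℝ]} (hv : v.re = 0) : -v ^ 2 = algebraMap ℝ ℍ[ℝ] (‖v‖ ^ 2) := by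
  rw [norm_sq_eq, pow_two]
  generalize hr : v.re ^ 2 + v.imI ^ 2 + v.imJ ^ 2 + v.imK ^ 2 = r
  ext <;> simp [hv]
  · rw [← hr, hv]; ring
  all_goals ring

theorem aeval_pure (A B : ℝ[X]) {v : ℍ[ℝ]} (hv : v.re = 0) :
    aeval v (A.comp (-X ^ 2) + X * B.comp (-X ^ 2)) =
      ((A.eval (‖v‖ ^ 2) : ℝ) : ℍ[ℝ]) + B.eval (‖v‖ ^ 2) • v := by
  have h := neg_sq_pure hv
  generalize ‖v‖ ^ 2 = r at h ⊢
  simp only [map_add, map_mul, aeval_comp, map_neg, map_pow, aeval_X, h,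
    aeval_algebraMap_apply_eq_algebraMap_eval]
  rw [← Algebra.commutes, ← Algebra.smul_def]
  rfl

theorem exists_poly_of_cset (A B : ℝ[X]) :
    ∃ (d : ℤ) (p : FreeAlgebra ℝ (Fin 2)), 0 < d ∧ IsWHom (fun _ => 1) d p ∧
      dirs p = cset A B := by
  set P := A.comp (-X ^ 2) + X * B.comp (-X ^ 2) with hP
  set E := P.natDegree + 1 with hE
  set x := FreeAlgebra.ι ℝ (0 : Fin 2)
  set y := FreeAlgebra.ι ℝ (1 : Fin 2)
  have hx : IsWHom (fun _ => 1) 1 x := IsWHom.ι (fun _ => 1) 0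
  have hy : IsWHom (fun _ => 1) 1 y := IsWHom.ι (fun _ => 1) 1
  have hu : IsWHom (fun _ => 1) 2 (x * y - y * x) := (hx.mul hy).sub (hy.mul hx)
  have hU : IsWHom (fun _ => 1) 4 (x * x * (y * y) - y * y * (x * x)) :=
    ((hx.mul hx).mul (hy.mul hy)).sub ((hy.mul hy).mul (hx.mul hx))
  refine ⟨16 * E, ∑ k ∈ Finset.range (4 * E), P.coeff k •
    ((x * x * (y * y) - y * y * (x * x)) ^ (4 * E - k) * (x * y - y * x) ^ (2 * k)),
    by positivity, IsWHom.sum fun k hk => IsWHom.smul (((hU.pow _).mul (hu.pow _)).of_eq ?_) _, ?_⟩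
  · rw [Finset.mem_range] at hk
    rw [Nat.cast_sub hk.le]
    push_cast; ring
  have hval : ∀ a : Fin 2 → ℍ[ℝ], FreeAlgebra.lift ℝ a (∑ k ∈ Finset.range (4 * E), P.coeff k •
      ((x * x * (y * y) - y * y * (x * x)) ^ (4 * E - k) * (x * y - y * x) ^ (2 * k))) =
      ∑ k ∈ Finset.range (4 * E), P.coeff k • ((4 * (a 0).re * (a 1).re) ^ (4 * E - k) •
        (a 0 * a 1 - a 1 * a 0) ^ (4 * E + k)) := by
    intro a
    rw [map_sum]
    refine Finset.sum_congr rfl fun k hk => ?_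
    rw [Finset.mem_range] at hk
    simp only [map_smul, map_mul, map_pow, map_sub, x, y, FreeAlgebra.lift_ι_apply]
    have : a 0 * a 0 * (a 1 * a 1) - a 1 * a 1 * (a 0 * a 0) =
        (4 * (a 0).re * (a 1).re) • (a 0 * a 1 - a 1 * a 0) := by
      ext <;> simp <;> ring
    rw [this, _root_.smul_pow, smul_mul_assoc, ← pow_add]
    congr 3
    omega
  have hval2 : ∀ (l : ℝ) (v : ℍ[ℝ]), v.re = 0 →
      ∑ k ∈ Finset.range (4 * E), P.coeff k • (l ^ (4 * E - k) • (l • v) ^ (4 * E + k)) =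
      (l ^ (8 * E) * ‖v‖ ^ (4 * E)) •
        (((A.eval (‖v‖ ^ 2) : ℝ) : ℍ[ℝ]) + B.eval (‖v‖ ^ 2) • v) := by
    intro l v hv
    rw [← aeval_pure A B hv, ← hP, aeval_eq_sum_range' (n := 4 * E) (by omega), Finset.smul_sum]
    refine Finset.sum_congr rfl fun k hk => ?_
    rw [Finset.mem_range] at hk
    have h4 : v ^ (4 * E) = algebraMap ℝ ℍ[ℝ] (‖v‖ ^ (4 * E)) := by
      have h : v ^ 4 = algebraMap ℝ ℍ[ℝ] (‖v‖ ^ 4) := by
        have h := neg_sq_pure hv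
        rw [show ‖v‖ ^ 4 = (‖v‖ ^ 2) ^ 2 by ring, map_pow, ← h, neg_sq, ← pow_mul]
      rw [pow_mul, h, ← map_pow, ← pow_mul]
    rw [_root_.smul_pow, pow_add v, h4, ← Algebra.smul_def, smul_smul, smul_smul, smul_smul, smul_smul]
    congr 1
    have : l ^ (8 * E) = l ^ (4 * E - k) * l ^ (4 * E + k) := by
      rw [← pow_add]; congr 1; omega
    rw [this]; ring
  have hcos : ∀ (s : ℝ) (v : ℍ[ℝ]), 0 < s → v.re = 0 → ∀ q : ℍ[ℝ],
      q = s • (((A.eval (‖v‖ ^ 2) : ℝ) : ℍ[ℝ]) + B.eval (‖v‖ ^ 2) • v) →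
      (q ≠ 0 ↔ A.eval (‖v‖ ^ 2) ^ 2 + (‖v‖ * B.eval (‖v‖ ^ 2)) ^ 2 ≠ 0) ∧
      q.re / ‖q‖ = A.eval (‖v‖ ^ 2) / √(A.eval (‖v‖ ^ 2) ^ 2 + (‖v‖ * B.eval (‖v‖ ^ 2)) ^ 2) := by
    intro s v hs hv q hq
    set q₀ := (((A.eval (‖v‖ ^ 2) : ℝ) : ℍ[ℝ]) + B.eval (‖v‖ ^ 2) • v) with hq₀
    have h1 : ‖q₀‖ ^ 2 = A.eval (‖v‖ ^ 2) ^ 2 + (‖v‖ * B.eval (‖v‖ ^ 2)) ^ 2 := by
      have := norm_sq_eq v
      rw [norm_sq_eq, mul_pow, hq₀]
      generalize A.eval (‖v‖ ^ 2) = α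
      generalize B.eval (‖v‖ ^ 2) = β
      rw [this]
      simp [hv]
      ring
    have h2 : q₀.re = A.eval (‖v‖ ^ 2) := by simp [hq₀, hv]
    rw [← h1, Real.sqrt_sq (norm_nonneg _), hq, re_smul, norm_smul, Real.norm_eq_abs,
      abs_of_pos hs, smul_eq_mul, mul_div_mul_left _ _ hs.ne', h2]
    simp [hs.ne']
  ext c
  constructor
  · rintro ⟨a, ha, rfl⟩
    rw [hval] at ha ⊢
    set l := 4 * (a 0).re * (a 1).re
    set u := a 0 * a 1 - a 1 * a 0 with hu'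
    have hl : l ≠ 0 := by
      intro h
      apply ha
      refine Finset.sum_eq_zero fun k hk => ?_
      rw [Finset.mem_range] at hk
      rw [h, zero_pow (by omega), zero_smul, smul_zero]
    have hu0 : u ≠ 0 := by
      intro h
      apply ha
      refine Finset.sum_eq_zero fun k _ => ?_
      rw [h, zero_pow (by omega), smul_zero, smul_zero]
    have hv : (l⁻¹ • u).re = 0 := by
      rw [re_smul, hu']; simp; right; ring
    have hv0 : 0 < ‖l⁻¹ • u‖ := norm_pos_iff.2 (smul_ne_zero (inv_ne_zero hl) hu0)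
    have h1 := hval2 l (l⁻¹ • u) hv
    rw [smul_inv_smul₀ hl] at h1
    have hs : 0 < l ^ (8 * E) * ‖l⁻¹ • u‖ ^ (4 * E) :=
      mul_pos (Even.pow_pos ⟨4 * E, by ring⟩ hl) (pow_pos hv0 _)
    obtain ⟨k1, k2⟩ := hcos _ _ hs hv _ h1
    exact ⟨_, hv0, k1.1 ha, k2⟩
  · rintro ⟨ν, hν, hne, rfl⟩
    have hv : ‖qmk 0 0 0 ν‖ = ν := by
      rw [norm_eq_sqrt]; simp [hν.le]
    have h1 := hval2 1 (qmk 0 0 0 ν) rfl
    have h2 := hval ![qmk (1 / 2) 1 0 0, qmk (1 / 2) 0 (ν / 2) 0]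
    have e1 : (4 * ((![qmk (1 / 2) 1 0 0, qmk (1 / 2) 0 (ν / 2) 0] : Fin 2 → ℍ[ℝ]) 0).re *
        ((![qmk (1 / 2) 1 0 0, qmk (1 / 2) 0 (ν / 2) 0] : Fin 2 → ℍ[ℝ]) 1).re) = 1 := by
      simp; norm_num
    have e2 : (![qmk (1 / 2) 1 0 0, qmk (1 / 2) 0 (ν / 2) 0] : Fin 2 → ℍ[ℝ]) 0 *
        (![qmk (1 / 2) 1 0 0, qmk (1 / 2) 0 (ν / 2) 0] : Fin 2 → ℍ[ℝ]) 1 -
        (![qmk (1 / 2) 1 0 0, qmk (1 / 2) 0 (ν / 2) 0] : Fin 2 → ℍ[ℝ]) 1 *
        (![qmk (1 / 2) 1 0 0, qmk (1 / 2) 0 (ν / 2) 0] : Fin 2 → ℍ[ℝ]) 0 =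
        (1 : ℝ) • qmk 0 0 0 ν := by
      ext <;> simp <;> ring
    rw [e1, e2, h1] at h2
    obtain ⟨k1, k2⟩ := hcos _ _ (by rw [hv]; positivity) rfl _ h2
    rw [hv] at k1 k2
    exact ⟨_, k1.2 hne, k2.symm⟩

end Pool.Agent.MP_4e44b6_al.H30
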