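import Pool.Agent.MP_4e44b6_al.H30.Lead
import Pool.Agent.MP_4e44b6_al.H30.Quat

/-! The set of directions of any noncommutative polynomial on the quaternions is admissible. -/

namespace Pool.Agent.MP_4e44b6_al.H30

open Set Quaternion Polynomial Filter Topology

/-- The four coordinates of a quaternion. -/
def co (q : ℍ[ℝ]) : Fin 4 → ℝ := ![q.re, q.imI, q.imJ, q.imK]

theorem norm_sq_co (q : ℍ[ℝ]) : ‖q‖ ^ 2 = ∑ i, co q i ^ 2 := by
  rw [norm_sq_eq]; simp [co, Fin.sum_univ_four]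

theorem co_zero (q : ℍ[ℝ]) : co q 0 = q.re := rfl

theorem ne_zero_iff_co (q : ℍ[ℝ]) : q ≠ 0 ↔ ∃ i, co q i ≠ 0 := by
  constructor
  · intro h
    by_contra hc
    push Not at hc
    apply h
    ext
    · exact hc 0
    · exact hc 1
    · exact hc 2
    · exact hc 3
  · rintro ⟨i, hi⟩ rfl
    apply hi
    fin_cases i <;> simp [co]

theorem co_closed {X : Type*} {m : ℕ} (Pr : (X → ℝ) → Prop) (hc : ∀ r, Pr fun _ => r)
    (ha : ∀ f g, Pr f → Pr g → Pr fun x => f x + g x)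
    (hm : ∀ f g, Pr f → Pr g → Pr fun x => f x * g x) (γ : X → Fin m → ℍ[ℝ])
    (hγ : ∀ j i, Pr fun x => co (γ x j) i) (p : FreeAlgebra ℝ (Fin m)) :
    ∀ i, Pr fun x => co (FreeAlgebra.lift ℝ (γ x) p) i := by
  have hs : ∀ f g, Pr f → Pr g → Pr fun x => f x - g x := fun f g hf hg => by
    have := ha _ _ hf (hm _ _ (hc (-1)) hg)
    simpa [sub_eq_add_neg] using this
  induction p using FreeAlgebra.induction with
  | grade0 r =>
    intro i
    simp only [AlgHom.commutes]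
    exact hc _
  | grade1 j => intro i; simpa using hγ j i
  | add p q hp hq =>
    intro i
    have := ha _ _ (hp i) (hq i)
    convert this using 2 with x
    rw [map_add]
    fin_cases i <;> simp [co]
  | mul p q hp hq =>
    have h := fun i j => hm _ _ (hp i) (hq j)
    intro i
    fin_cases i
    · convert hs _ _ (hs _ _ (hs _ _ (h 0 0) (h 1 1)) (h 2 2)) (h 3 3) using 2 with x
      rw [map_mul]; simp [co]
    · convert hs _ _ (ha _ _ (ha _ _ (h 0 1) (h 1 0)) (h 2 3)) (h 3 2) using 2 with x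
      rw [map_mul]; simp [co]
    · convert ha _ _ (ha _ _ (hs _ _ (h 0 2) (h 1 3)) (h 2 0)) (h 3 1) using 2 with x
      rw [map_mul]; simp [co]
    · convert ha _ _ (hs _ _ (ha _ _ (h 0 3) (h 1 2)) (h 2 1)) (h 3 0) using 2 with x
      rw [map_mul]; simp [co]

/-- Real coordinates on `ℍ^m`. -/
def par {m : ℕ} (x : Fin (m * 4) → ℝ) (j : Fin m) : ℍ[ℝ] :=
  qmk (x (finProdFinEquiv (j, 0))) (x (finProdFinEquiv (j, 1))) (x (finProdFinEquiv (j, 2)))
    (x (finProdFinEquiv (j, 3)))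

theorem par_surjective {m : ℕ} : Function.Surjective (par (m := m)) := by
  intro a
  refine ⟨fun k => co (a (finProdFinEquiv.symm k).1) (finProdFinEquiv.symm k).2, ?_⟩
  funext j
  ext <;> simp [par, co]

theorem exists_mvPoly {m : ℕ} (p : FreeAlgebra ℝ (Fin m)) :
    ∃ P : Fin 4 → MvPolynomial (Fin (m * 4)) ℝ, ∀ i x,
      co (FreeAlgebra.lift ℝ (par x) p) i = MvPolynomial.eval x (P i) := by
  have := co_closed (fun f : (Fin (m * 4) → ℝ) → ℝ =>
      ∃ P : MvPolynomial (Fin (m * 4)) ℝ, ∀ x, f x = MvPolynomial.eval x P)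
    (fun r => ⟨MvPolynomial.C r, by simp⟩)
    (by rintro f g ⟨P, hP⟩ ⟨Q, hQ⟩; exact ⟨P + Q, by simp [hP, hQ]⟩)
    (by rintro f g ⟨P, hP⟩ ⟨Q, hQ⟩; exact ⟨P * Q, by simp [hP, hQ]⟩) par
    (fun j i => ⟨MvPolynomial.X (finProdFinEquiv (j, i)), fun x => by
      fin_cases i <;> simp [par, co]⟩) p
  choose P hP using this
  exact ⟨P, hP⟩

theorem abs_re_le (q : ℍ[ℝ]) : |q.re| ≤ ‖q‖ := by
  apply abs_le_of_sq_le_sq' _ (norm_nonneg q) |> abs_le.2
  rw [norm_sq_eq]; nlinarith [sq_nonneg q.imI, sq_nonneg q.imJ, sq_nonneg q.imK]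

theorem dirs_subset {m : ℕ} (p : FreeAlgebra ℝ (Fin m)) : dirs p ⊆ Icc (-1) 1 := by
  rintro _ ⟨a, ha, rfl⟩
  have h := norm_pos_iff.2 ha
  have := abs_le.1 (abs_re_le (FreeAlgebra.lift ℝ a p))
  exact ⟨by rw [le_div_iff₀ h]; linarith, by rw [div_le_iff₀ h]; linarith⟩

theorem end_mem_closure {m : ℕ} (p : FreeAlgebra ℝ (Fin m)) (hne : (dirs p).Nonempty) :
    0 ∈ closure ((fun c => |c|) '' dirs p) ∨ 1 ∈ closure ((fun c => |c|) '' dirs p) := by
  by_contra hcon
  push Not at hcon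
  obtain ⟨h0, h1⟩ := hcon
  rw [Metric.mem_closure_iff] at h0 h1
  push Not at h0 h1
  obtain ⟨ε, hε, h0⟩ := h0
  obtain ⟨η, hη, h1⟩ := h1
  obtain ⟨_, a, ha, -⟩ := hne
  let γ : ℝ × ℝ → Fin m → ℍ[ℝ] := fun z j =>
    qmk (a j).re (z.1 * (a j).imI) (z.2 * (a j).imJ) (z.1 * z.2 * (a j).imK)
  have := co_closed (fun f : ℝ × ℝ → ℝ =>
      ∃ P : ℝ[X][X], ∀ s r, f (s, r) = (P.map (evalRingHom s)).eval r)
    (fun r => ⟨C (C r), by simp⟩)
    (by rintro f g ⟨P, hP⟩ ⟨Q, hQ⟩; exact ⟨P + Q, by simp [hP, hQ]⟩)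
    (by rintro f g ⟨P, hP⟩ ⟨Q, hQ⟩; exact ⟨P * Q, by simp [hP, hQ]⟩) γ
    (fun j i => by
      fin_cases i
      · exact ⟨C (C (a j).re), by simp [γ, co]⟩
      · exact ⟨C (X * C (a j).imI), fun s r => by simp [γ, co]; ring⟩
      · exact ⟨X * C (C (a j).imJ), fun s r => by simp [γ, co]; ring⟩
      · exact ⟨C X * X * C (C (a j).imK), by simp [γ, co]⟩) p
  choose v hv using this
  simp only at hv
  have hγ1 : γ (1, 1) = a := by funext j; ext <;> simp [γ]
  have hv0 : ∃ i, v i ≠ 0 := by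
    obtain ⟨i, hi⟩ := (ne_zero_iff_co _).1 ha
    refine ⟨i, fun h => hi ?_⟩
    have := hv i 1 1
    simpa [hγ1, h] using this
  have c1 : ∀ s r, FreeAlgebra.lift ℝ (γ (-s, r)) p =
      qmk 0 0 1 0 * FreeAlgebra.lift ℝ (γ (s, r)) p * qmk 0 0 (-1) 0 := by
    intro s r
    rw [← lift_conj _ _ (by ext <;> simp) (by ext <;> simp)]
    congr 2
    funext j
    ext <;> simp [γ]
  have c2 : ∀ s r, FreeAlgebra.lift ℝ (γ (s, -r)) p =
      qmk 0 1 0 0 * FreeAlgebra.lift ℝ (γ (s, r)) p * qmk 0 (-1) 0 0 := by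
    intro s r
    rw [← lift_conj _ _ (by ext <;> simp) (by ext <;> simp)]
    congr 2
    funext j
    ext <;> simp [γ]
  obtain ⟨i₀, hi₀⟩ := exists_single_lead v hv0 ![1, -1, 1, -1] ![1, 1, -1, -1]
    (by intro i j; fin_cases i <;> fin_cases j <;> norm_num)
    (fun i s r => by rw [← hv, ← hv, c1]; fin_cases i <;> simp [co])
    (fun i s r => by rw [← hv, ← hv, c2]; fin_cases i <;> simp [co])
  have key : ∀ q : ℍ[ℝ], q ∈ image ℍ[ℝ] p →
      ε ^ 2 * ‖q‖ ^ 2 ≤ q.re ^ 2 ∧ q.re ^ 2 ≤ (1 - min η 1) ^ 2 * ‖q‖ ^ 2 := by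
    rintro q ⟨b, rfl⟩
    simp only
    set q := FreeAlgebra.lift ℝ b p with hq
    by_cases hq0 : q = 0
    · simp [hq0]
    have hn := norm_pos_iff.2 hq0
    have e0 := h0 _ ⟨_, ⟨b, hq0, rfl⟩, rfl⟩
    have e1 := h1 _ ⟨_, ⟨b, hq0, rfl⟩, rfl⟩
    simp only [← hq, Real.dist_eq, zero_sub, abs_neg, abs_abs, abs_div, abs_norm] at e0 e1
    have e2 : |q.re| / ‖q‖ ≤ 1 := by rw [div_le_one hn]; exact abs_re_le q
    rw [abs_of_nonneg (by linarith)] at e1
    have e3 : |q.re| / ‖q‖ ≤ 1 - min η 1 := by linarith [min_le_left η 1]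
    rw [le_div_iff₀ hn] at e0
    rw [div_le_iff₀ hn] at e3
    rw [← sq_abs q.re, ← mul_pow, ← mul_pow]
    exact ⟨pow_le_pow_left₀ (by positivity) e0 2, pow_le_pow_left₀ (abs_nonneg _) e3 2⟩
  have k1 := hi₀ ![1 - ε ^ 2, -ε ^ 2, -ε ^ 2, -ε ^ 2] fun s r => by
    have := (key _ ⟨γ (s, r), rfl⟩).1
    simp only [norm_sq_eq] at this
    simp only [← hv, Fin.sum_univ_four, co]
    simp
    linarith
  have k2 := hi₀ ![(1 - min η 1) ^ 2 - 1, (1 - min η 1) ^ 2, (1 - min η 1) ^ 2,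
      (1 - min η 1) ^ 2] fun s r => by
    have := (key _ ⟨γ (s, r), rfl⟩).2
    simp only [norm_sq_eq] at this
    simp only [← hv, Fin.sum_univ_four, co]
    simp
    linarith
  have hm0 : 0 < min η 1 := lt_min hη one_pos
  have hm1 : min η 1 ≤ 1 := min_le_right _ _
  have hε2 : 0 < ε ^ 2 := by positivity
  fin_cases i₀
  · have k3 : 0 ≤ (1 - min η 1) ^ 2 - 1 := k2
    nlinarith
  all_goals
    have k3 : 0 ≤ -ε ^ 2 := k1
    linarith

theorem Icc_subset_closure {m : ℕ} (p : FreeAlgebra ℝ (Fin m)) {c c' : ℝ}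
    (hc : c ∈ (fun c => |c|) '' dirs p) (hc' : c' ∈ (fun c => |c|) '' dirs p) :
    Icc c c' ⊆ closure ((fun c => |c|) '' dirs p) := by
  obtain ⟨_, ⟨a, ha, rfl⟩, rfl⟩ := hc
  obtain ⟨_, ⟨b, hb, rfl⟩, rfl⟩ := hc'
  obtain ⟨x, rfl⟩ := par_surjective a
  obtain ⟨y, rfl⟩ := par_surjective b
  obtain ⟨P, hP⟩ := exists_mvPoly p
  choose v hv using fun i => exists_line_poly (P i) x y
  have hv' : ∀ i s, co (FreeAlgebra.lift ℝ (par (x + s • (y - x))) p) i = (v i).eval s :=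
    fun i s => by rw [hP, hv]
  have hv0 : ∃ i, v i ≠ 0 := by
    obtain ⟨i, hi⟩ := (ne_zero_iff_co _).1 ha
    refine ⟨i, fun h => hi ?_⟩
    simpa [h] using hv' i 0
  obtain ⟨g, u, hg, hu, hu0⟩ := exists_common_factor v hv0
  have hpos : ∀ s, 0 < ∑ i, (u i).eval s ^ 2 := fun s => by
    obtain ⟨i, hi⟩ := hu0 s
    exact Finset.sum_pos' (fun _ _ => sq_nonneg _) ⟨i, Finset.mem_univ _, by positivity⟩
  set G : ℝ → ℝ := fun s => |(u 0).eval s| / √(∑ i, (u i).eval s ^ 2) with hG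
  have hGc : Continuous G :=
    Continuous.div (by fun_prop) (by fun_prop) fun s => (Real.sqrt_pos.2 (hpos s)).ne'
  have hne : ∀ s, FreeAlgebra.lift ℝ (par (x + s • (y - x))) p ≠ 0 ↔ g.eval s ≠ 0 := by
    intro s
    rw [ne_zero_iff_co]
    simp only [hv', hu, eval_mul, ne_eq, mul_eq_zero, not_or]
    exact ⟨fun ⟨_, h⟩ => h.1, fun h => (hu0 s).imp fun i hi => ⟨h, hi⟩⟩
  have hval : ∀ s, g.eval s ≠ 0 → G s = |(FreeAlgebra.lift ℝ (par (x + s • (y - x))) p).re /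
      ‖FreeAlgebra.lift ℝ (par (x + s • (y - x))) p‖| := by
    intro s hs
    have h1 : ‖FreeAlgebra.lift ℝ (par (x + s • (y - x))) p‖ =
        |g.eval s| * √(∑ i, (u i).eval s ^ 2) := by
      rw [← Real.sqrt_sq (norm_nonneg _), norm_sq_co, ← Real.sqrt_sq_eq_abs,
        ← Real.sqrt_mul (sq_nonneg _), Finset.mul_sum]
      simp only [hv', hu, eval_mul, mul_pow]
    rw [abs_div, abs_norm, h1, ← co_zero, hv', hu, eval_mul, abs_mul,
      mul_div_mul_left _ _ (abs_ne_zero.2 hs)]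
  have hmem : ∀ s, G s ∈ closure ((fun c => |c|) '' dirs p) := fun s =>
    mem_closure_of_frequently_of_tendsto ((frequently_eval_ne_zero hg s).mono fun t ht =>
      ⟨_, ⟨_, (hne t).2 ht, rfl⟩, (hval t ht).symm⟩)
      ((hGc.tendsto s).mono_left nhdsWithin_le_nhds)
  have e0 := hval 0 ((hne 0).1 (by simpa using ha))
  have e1 := hval 1 ((hne 1).1 (by simpa using hb))
  simp only [zero_smul, add_zero, one_smul, add_sub_cancel] at e0 e1
  simp only [← e0, ← e1]
  refine (intermediate_value_univ 0 1 hGc).trans ?_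
  rintro _ ⟨s, rfl⟩
  exact hmem s

theorem ordConnected_closure_of_Icc {T : Set ℝ} (h : ∀ c ∈ T, ∀ c' ∈ T, Icc c c' ⊆ closure T) :
    (closure T).OrdConnected := by
  refine ⟨fun x hx y hy z hz => ?_⟩
  rcases hz.1.eq_or_lt with rfl | h1
  · exact hx
  rcases hz.2.eq_or_lt with rfl | h2
  · exact hy
  obtain ⟨a, ha1, ha⟩ := mem_closure_iff.1 hx _ isOpen_Iio h1
  obtain ⟨b, hb1, hb⟩ := mem_closure_iff.1 hy _ isOpen_Ioi h2
  exact h a ha b hb ⟨le_of_lt ha1, le_of_lt hb1⟩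

theorem dirs_admissible {m : ℕ} (p : FreeAlgebra ℝ (Fin m)) : Admissible (dirs p) := by
  classical
  rcases (dirs p).eq_empty_or_nonempty with h | hne
  · left; rw [h]; exact empty_subset _
  obtain ⟨P, hP⟩ := exists_mvPoly p
  set N : MvPolynomial (Fin (m * 4)) ℝ := ∑ i, P i ^ 2 with hN
  have hNe : ∀ x, MvPolynomial.eval x N = ‖FreeAlgebra.lift ℝ (par x) p‖ ^ 2 := fun x => by
    rw [norm_sq_co]; simp [hN, hP]
  set U := {x : Fin (m * 4) → ℝ | MvPolynomial.eval x N ≠ 0} with hU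
  have hUm : ∀ x, x ∈ U ↔ FreeAlgebra.lift ℝ (par x) p ≠ 0 := fun x => by simp [hU, hNe]
  have hUo : IsOpen U := isOpen_ne_fun N.continuous_eval continuous_const
  set φ : (Fin (m * 4) → ℝ) → ℝ := fun x =>
    (FreeAlgebra.lift ℝ (par x) p).re / ‖FreeAlgebra.lift ℝ (par x) p‖ with hφ
  have hφc : ContinuousOn φ U := by
    have : φ = fun x => MvPolynomial.eval x (P 0) / √(MvPolynomial.eval x N) := by
      funext x
      rw [hNe, Real.sqrt_sq (norm_nonneg _), ← hP, co_zero]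
    rw [this]
    refine ContinuousOn.div (P 0).continuous_eval.continuousOn
      N.continuous_eval.sqrt.continuousOn fun x hx => ?_
    rw [hNe, Real.sqrt_sq (norm_nonneg _)]
    exact norm_ne_zero_iff.2 ((hUm x).1 hx)
  have hS : dirs p = φ '' U := by
    ext c
    constructor
    · rintro ⟨a, ha, rfl⟩
      obtain ⟨x, rfl⟩ := par_surjective a
      exact ⟨x, (hUm x).2 ha, rfl⟩
    · rintro ⟨x, hx, rfl⟩
      exact ⟨_, (hUm x).1 hx, rfl⟩
  have hend := end_mem_closure p hne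
  by_cases hnt : ∀ x ∈ U, (φ '' connectedComponentIn U x).Nontrivial
  · right; right
    refine ⟨dirs_subset p, ?_, ordConnected_closure_of_Icc fun c hc c' hc' =>
      Icc_subset_closure p hc hc', hend⟩
    have hfin := ((finConn_eval_ne_zero _ N).finite_components subset_rfl).image (φ '' ·)
    refine ⟨hfin.toFinset, fun I hI => ?_, ?_⟩
    · rw [Finite.mem_toFinset] at hI
      obtain ⟨_, ⟨x, hx, rfl⟩, rfl⟩ := hI
      exact ⟨(isPreconnected_connectedComponentIn.image φ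
        (hφc.mono (connectedComponentIn_subset _ _))).ordConnected, hnt x hx⟩
    · rw [hS]
      ext c
      simp only [mem_iUnion, Finite.mem_toFinset]
      constructor
      · rintro ⟨x, hx, rfl⟩
        exact ⟨_, ⟨_, ⟨x, hx, rfl⟩, rfl⟩, x, mem_connectedComponentIn hx, rfl⟩
      · rintro ⟨_, ⟨_, ⟨x, -, rfl⟩, rfl⟩, y, hy, rfl⟩
        exact ⟨y, connectedComponentIn_subset _ _ hy, rfl⟩
  · push Not at hnt
    obtain ⟨x, hx, hsub⟩ := hnt
    have hsq : ∀ y ∈ U, φ y ^ 2 * MvPolynomial.eval y N = MvPolynomial.eval y (P 0) ^ 2 := by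
      intro y hy
      have := norm_ne_zero_iff.2 ((hUm y).1 hy)
      rw [hNe, ← hP, co_zero, hφ]
      field_simp
    have hzero : MvPolynomial.C (φ x ^ 2) * N - P 0 ^ 2 = 0 := by
      by_contra hne0
      obtain ⟨y, hy1, hy2⟩ := (dense_eval_ne_zero hne0).inter_open_nonempty _
        hUo.connectedComponentIn ⟨x, mem_connectedComponentIn hx⟩
      apply hy2
      have e : φ y = φ x := hsub ⟨y, hy1, rfl⟩ ⟨x, mem_connectedComponentIn hx, rfl⟩
      simp only [map_sub, map_mul, MvPolynomial.eval_C, map_pow]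
      rw [← e, hsq y (connectedComponentIn_subset _ _ hy1), sub_self]
    have habs : ∀ y ∈ U, |φ y| = |φ x| := by
      intro y hy
      have h1 := congrArg (MvPolynomial.eval y) hzero
      simp only [map_sub, map_mul, MvPolynomial.eval_C, map_pow, map_zero] at h1
      rw [← hsq y hy, ← sub_mul] at h1
      have h2 : φ x ^ 2 - φ y ^ 2 = 0 := (mul_eq_zero.1 h1).resolve_right hy
      exact (sq_eq_sq_iff_abs_eq_abs _ _).1 (by linarith)
    have himg : (fun c => |c|) '' dirs p = {|φ x|} := by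
      rw [hS]
      ext c
      constructor
      · rintro ⟨_, ⟨y, hy, rfl⟩, rfl⟩
        exact habs y hy
      · rintro rfl
        exact ⟨_, ⟨x, hx, rfl⟩, rfl⟩
    rw [himg, closure_singleton] at hend
    rcases hend with h | h
    · right; left
      rw [hS]
      ext c
      constructor
      · rintro ⟨y, hy, rfl⟩
        exact abs_eq_zero.1 ((habs y hy).trans h.symm)
      · rintro rfl
        exact ⟨x, hx, abs_eq_zero.1 h.symm⟩
    · left
      rw [hS]
      rintro _ ⟨y, hy, rfl⟩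
      have := (habs y hy).trans h.symm
      rcases (abs_eq zero_le_one).1 this with h1 | h1
      · exact Or.inr h1
      · exact Or.inl h1

end Pool.Agent.MP_4e44b6_al.H30
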