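import Pool.Agent.MP_4e44b6_al.H30.M2Both
import Pool.Agent.MP_4e44b6_al.H30.Necessity

/-! Images of semihomogeneous polynomials on `M₂(ℝ)` are admissible. -/

namespace Pool.Agent.MP_4e44b6_al.H30

open Set Polynomial Matrix Filter Topology

theorem ent_closed {X : Type*} {m : ℕ} (Pr : (X → ℝ) → Prop) (hc : ∀ r, Pr fun _ => r)
    (ha : ∀ f g, Pr f → Pr g → Pr fun x => f x + g x)
    (hm : ∀ f g, Pr f → Pr g → Pr fun x => f x * g x) (γ : X → Fin m → M2)
    (hγ : ∀ j i k, Pr fun x => γ x j i k) (p : FreeAlgebra ℝ (Fin m)) :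
    ∀ i k, Pr fun x => FreeAlgebra.lift ℝ (γ x) p i k := by
  induction p using FreeAlgebra.induction with
  | grade0 r =>
    intro i k
    simp only [AlgHom.commutes]
    exact hc _
  | grade1 j => intro i k; simpa using hγ j i k
  | add p q hp hq => intro i k; simpa using ha _ _ (hp i k) (hq i k)
  | mul p q hp hq =>
    intro i k
    simpa [Matrix.mul_apply, Fin.sum_univ_two] using
      ha _ _ (hm _ _ (hp i 0) (hq 0 k)) (hm _ _ (hp i 1) (hq 1 k))

/-- Real coordinates on `M₂(ℝ)^m`. -/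
def parM {m : ℕ} (x : Fin (m * 4) → ℝ) (j : Fin m) : M2 :=
  !![x (finProdFinEquiv (j, 0)), x (finProdFinEquiv (j, 1));
    x (finProdFinEquiv (j, 2)), x (finProdFinEquiv (j, 3))]

theorem parM_surjective {m : ℕ} : Function.Surjective (parM (m := m)) := by
  intro a
  refine ⟨fun k => (![a (finProdFinEquiv.symm k).1 0 0, a (finProdFinEquiv.symm k).1 0 1,
    a (finProdFinEquiv.symm k).1 1 0, a (finProdFinEquiv.symm k).1 1 1] : Fin 4 → ℝ)
      (finProdFinEquiv.symm k).2, ?_⟩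
  funext j
  ext i k
  fin_cases i <;> fin_cases k <;> simp [parM]

theorem exists_trace_disc {m : ℕ} (p : FreeAlgebra ℝ (Fin m)) :
    ∃ t D : MvPolynomial (Fin (m * 4)) ℝ, ∀ x,
      (FreeAlgebra.lift ℝ (parM x) p).trace = MvPolynomial.eval x t ∧
      disc (FreeAlgebra.lift ℝ (parM x) p) = MvPolynomial.eval x D := by
  have := ent_closed (fun f : (Fin (m * 4) → ℝ) → ℝ =>
      ∃ P : MvPolynomial (Fin (m * 4)) ℝ, ∀ x, f x = MvPolynomial.eval x P)
    (fun r => ⟨MvPolynomial.C r, by simp⟩)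
    (by rintro f g ⟨P, hP⟩ ⟨Q, hQ⟩; exact ⟨P + Q, by simp [hP, hQ]⟩)
    (by rintro f g ⟨P, hP⟩ ⟨Q, hQ⟩; exact ⟨P * Q, by simp [hP, hQ]⟩) parM
    (fun j i k => by
      fin_cases i <;> fin_cases k <;> exact ⟨MvPolynomial.X _, fun x => by simp [parM]; rfl⟩) p
  choose P hP using this
  refine ⟨P 0 0 + P 1 1, (P 0 0 - P 1 1) ^ 2 + 4 * (P 0 1 * P 1 0), fun x => ?_⟩
  rw [disc_eq, trace_fin_two]
  simp [hP]

/-- The order isomorphism of the line with `(-1, 1)`. -/
noncomputable def psi (x : ℝ) : ℝ := x / (1 + |x|)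

theorem psi_strictMono : StrictMono psi := by
  refine strictMono_of_odd_strictMonoOn_nonneg (fun x => by simp [psi, neg_div]) ?_
  rintro x (hx : 0 ≤ x) y (hy : 0 ≤ y) hxy
  rw [psi, psi, abs_of_nonneg hx, abs_of_nonneg hy, div_lt_div_iff₀ (by positivity) (by positivity)]
  linarith

theorem exists_psi {z : ℝ} (hz : z ∈ Ioo (-1 : ℝ) 1) : ∃ r, psi r = z := by
  have h : 0 < 1 - |z| := sub_pos.2 (abs_lt.2 hz)
  refine ⟨z / (1 - |z|), ?_⟩
  rw [psi, abs_div, abs_of_pos h]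
  field_simp
  ring

theorem continuous_psi : Continuous psi :=
  continuous_id.div (by fun_prop) fun x => by positivity

theorem arc_of_sep {R : Set ℝ} (hR : R ⊆ Ioo (-1) 1)
    (h : ∀ z₁ ∈ Ioo (-1 : ℝ) 1, ∀ z₂ ∈ Ioo (-1 : ℝ) 1, z₁ ∉ closure R → z₂ ∉ closure R →
      ∀ c ∈ R, ∀ c' ∈ R, z₁ < c → c < z₂ → z₁ < c' ∧ c' < z₂) :
    (closure R).OrdConnected ∨ (Icc (-1) 1 \ closure R).OrdConnected := by
  by_contra hcon
  obtain ⟨h1, h2⟩ := not_or.1 hcon
  have h3 := mt ordConnected_closure_of_Icc h1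
  push Not at h3
  obtain ⟨c, hc, c', hc', h3⟩ := h3
  obtain ⟨z, hz, hzR⟩ := not_subset.1 h3
  have hcz : c < z := lt_of_le_of_ne hz.1 fun e => hzR (e ▸ subset_closure hc)
  have hzc : z < c' := lt_of_le_of_ne hz.2 fun e => hzR (e ▸ subset_closure hc')
  rw [ordConnected_iff] at h2
  push Not at h2
  obtain ⟨z₁, hz₁, z₂, hz₂, -, h2⟩ := h2
  obtain ⟨u, hu, huG⟩ := not_subset.1 h2
  have huK : u ∈ closure R := by
    by_contra hn
    exact huG ⟨⟨hz₁.1.1.trans hu.1, hu.2.trans hz₂.1.2⟩, hn⟩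
  obtain ⟨v, hv, hvR⟩ := mem_closure_iff.1 huK _ isOpen_Ioo
    ⟨lt_of_le_of_ne hu.1 fun e => hz₁.2 (e ▸ huK), lt_of_le_of_ne hu.2 fun e => hz₂.2 (e ▸ huK)⟩
  have hcl : Icc (-1 : ℝ) 1 ⊆ closure (Ioo (-1) 1) := (closure_Ioo (by norm_num)).ge
  obtain ⟨y₁, hy₁, hy₁'⟩ := mem_closure_iff.1 (hcl hz₁.1) _
    (isClosed_closure.isOpen_compl.inter isOpen_Iio) ⟨hz₁.2, hv.1⟩
  obtain ⟨y₂, hy₂, hy₂'⟩ := mem_closure_iff.1 (hcl hz₂.1) _
    (isClosed_closure.isOpen_compl.inter isOpen_Ioi) ⟨hz₂.2, hv.2⟩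
  have k1 := (h y₁ hy₁' y₂ hy₂' hy₁.1 hy₂.1 v hvR c hc hy₁.2 hy₂.2).1
  have k2 := (h y₁ hy₁' z ⟨(hR hc).1.trans hcz, hzc.trans (hR hc').2⟩ hy₁.1 hzR c hc c' hc'
    k1 hcz).2
  exact lt_asymm hzc k2

theorem arc_of_poly {n : ℕ} (t D : MvPolynomial (Fin n) ℝ) {R : Set ℝ}
    (hR : R = {c | ∃ x, MvPolynomial.eval x D ≠ 0 ∧
      c = psi (MvPolynomial.eval x t ^ 2 / MvPolynomial.eval x D)}) :
    (closure R).OrdConnected ∨ (Icc (-1) 1 \ closure R).OrdConnected := by
  refine arc_of_sep ?_ fun z₁ hz₁ z₂ hz₂ n₁ n₂ c hc c' hc' h₁ h₂ => ?_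
  · rw [hR]
    rintro _ ⟨x, -, rfl⟩
    rw [mem_Ioo, ← abs_lt, psi, abs_div, abs_of_pos (a := 1 + _) (by positivity),
      div_lt_one (by positivity)]
    exact lt_one_add _
  obtain ⟨r₁, rfl⟩ := exists_psi hz₁
  obtain ⟨r₂, rfl⟩ := exists_psi hz₂
  rw [hR] at hc hc'
  obtain ⟨x, hx, rfl⟩ := hc
  obtain ⟨y, hy, rfl⟩ := hc'
  rw [psi_strictMono.lt_iff_lt] at h₁ h₂
  rw [psi_strictMono.lt_iff_lt, psi_strictMono.lt_iff_lt]
  by_contra hcon
  obtain ⟨a, ha⟩ := exists_line_poly t x y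
  obtain ⟨b, hb⟩ := exists_line_poly D x y
  have hb0 : b.eval 0 = MvPolynomial.eval x D := by simp [hb]
  have hb1 : b.eval 1 = MvPolynomial.eval y D := by simp [hb]
  have ha0 : a.eval 0 = MvPolynomial.eval x t := by simp [ha]
  have ha1 : a.eval 1 = MvPolynomial.eval y t := by simp [ha]
  obtain ⟨g, u, hg, hu, hu0⟩ := exists_common_factor ![a ^ 2, b, 0, 0]
    ⟨1, fun h => hx (by rw [← hb0, show b = 0 from h, eval_zero])⟩
  have e0 : ∀ s, a.eval s ^ 2 = g.eval s * (u 0).eval s := fun s => by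
    rw [← eval_mul, ← hu 0]; simp
  have e1 : ∀ s, b.eval s = g.eval s * (u 1).eval s := fun s => by
    rw [← eval_mul, ← hu 1]; simp
  have e2 : u 2 = 0 := (mul_eq_zero.1 (hu 2).symm).resolve_left hg
  have e3 : u 3 = 0 := (mul_eq_zero.1 (hu 3).symm).resolve_left hg
  have val : ∀ s, b.eval s ≠ 0 →
      ((u 0).eval s - r₁ * (u 1).eval s) * ((u 0).eval s - r₂ * (u 1).eval s) =
        (u 1).eval s ^ 2 * ((a.eval s ^ 2 / b.eval s - r₁) * (a.eval s ^ 2 / b.eval s - r₂)) := by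
    intro s hs
    rw [e1] at hs
    rw [e0, e1]
    have := left_ne_zero_of_mul hs
    have := right_ne_zero_of_mul hs
    field_simp
  have hf : Continuous fun s => ((u 0).eval s - r₁ * (u 1).eval s) *
      ((u 0).eval s - r₂ * (u 1).eval s) := by fun_prop
  obtain ⟨s, hs⟩ : (0 : ℝ) ∈ range fun s => ((u 0).eval s - r₁ * (u 1).eval s) *
      ((u 0).eval s - r₂ * (u 1).eval s) := by
    refine intermediate_value_univ 0 1 hf ⟨?_, ?_⟩
    · rw [val 0 (hb0 ▸ hx), hb0, ha0]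
      exact mul_nonpos_of_nonneg_of_nonpos (sq_nonneg _)
        (mul_nonpos_of_nonneg_of_nonpos (by linarith) (by linarith))
    · rw [val 1 (hb1 ▸ hy), hb1, ha1]
      refine mul_nonneg (sq_nonneg _) ?_
      rcases not_and_or.1 hcon with h | h
      · exact mul_nonneg_of_nonpos_of_nonpos (by linarith) (by linarith)
      · exact mul_nonneg (by linarith) (by linarith)
  have key : ∀ r, (u 0).eval s - r * (u 1).eval s = 0 → psi r ∈ closure R := by
    intro r hr
    have h1 : (u 1).eval s ≠ 0 := by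
      intro h1
      obtain ⟨i, hi⟩ := hu0 s
      fin_cases i
      · exact hi (by simpa [h1] using hr)
      · exact hi h1
      · simp [e2] at hi
      · simp [e3] at hi
    have hc : ContinuousAt (fun s => psi ((u 0).eval s / (u 1).eval s)) s :=
      continuous_psi.continuousAt.comp
        ((u 0).continuous.continuousAt.div (u 1).continuous.continuousAt h1)
    have hr' : r = (u 0).eval s / (u 1).eval s := by field_simp; linarith
    rw [hr']
    refine mem_closure_of_frequently_of_tendsto ?_ (hc.tendsto.mono_left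
      (nhdsWithin_le_nhds (s := {s}ᶜ)))
    refine ((frequently_eval_ne_zero hg s).and_eventually (nhdsWithin_le_nhds
      ((u 1).continuous.continuousAt.eventually_ne h1))).mono fun s' hs' => ?_
    rw [hR]
    refine ⟨x + s' • (y - x), by rw [← hb, e1]; exact mul_ne_zero hs'.1 hs'.2, ?_⟩
    rw [← ha, ← hb, e0, e1, mul_div_mul_left _ _ hs'.1]
  rcases mul_eq_zero.1 hs with h | h
  · exact n₁ (key _ h)
  · exact n₂ (key _ h)

theorem finInt_of_poly {n : ℕ} (t D : MvPolynomial (Fin n) ℝ) {s : ℝ} (hs : s = 1 ∨ s = -1)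
    (ht : ∃ x, MvPolynomial.eval x t ≠ 0) (hp : ∃ x, 0 < s * MvPolynomial.eval x D)
    (hn : ∃ x, 0 < -s * MvPolynomial.eval x D) :
    FinInt {c | ∃ x, 0 < s * MvPolynomial.eval x D ∧ c = MvPolynomial.eval x t *
      |MvPolynomial.eval x t| / (MvPolynomial.eval x t ^ 2 + |MvPolynomial.eval x D|)} := by
  set U := {x : Fin n → ℝ | MvPolynomial.eval x D ≠ 0} with hU
  have hUo : IsOpen U := isOpen_ne_fun D.continuous_eval continuous_const
  set φ : (Fin n → ℝ) → ℝ := fun x => MvPolynomial.eval x t * |MvPolynomial.eval x t| /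
    (MvPolynomial.eval x t ^ 2 + |MvPolynomial.eval x D|) with hφ
  have htc := t.continuous_eval
  have hDc := D.continuous_eval
  have hφc : ContinuousOn φ U := ContinuousOn.div (by fun_prop) (by fun_prop) fun x hx => by
    have := abs_pos.2 hx
    positivity
  have hs0 : s ≠ 0 := by rcases hs with rfl | rfl <;> norm_num
  have hVU : {x | 0 < s * MvPolynomial.eval x D} ⊆ U := fun x hx h0 => by
    simp [h0] at hx
  have hsign : ∀ x, 0 < s * MvPolynomial.eval x D → ∀ y ∈ connectedComponentIn U x,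
      0 < s * MvPolynomial.eval y D := fun x hx y hy =>
    isPreconnected_connectedComponentIn.lt_of_ne (f := fun y => s * MvPolynomial.eval y D)
      (by fun_prop) (fun z hz => mul_ne_zero hs0 (connectedComponentIn_subset _ _ hz))
      ⟨x, mem_connectedComponentIn (hVU hx), hx⟩ hy
  have habs : ∀ y, 0 < s * MvPolynomial.eval y D → |φ y| < 1 ∧
      (1 - |φ y|) * MvPolynomial.eval y t ^ 2 = |φ y| * (s * MvPolynomial.eval y D) := by
    intro y hy
    have e1 : |MvPolynomial.eval y D| = s * MvPolynomial.eval y D := by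
      rw [← abs_of_pos hy, abs_mul]
      rcases hs with rfl | rfl <;> simp
    have e2 : |φ y| = MvPolynomial.eval y t ^ 2 /
        (MvPolynomial.eval y t ^ 2 + s * MvPolynomial.eval y D) := by
      rw [hφ]
      simp only
      rw [e1, abs_div, abs_mul, abs_abs, abs_mul_abs_self, abs_of_nonneg (by positivity), pow_two]
    rw [e2]
    exact ⟨by rw [div_lt_one (by positivity)]; linarith, by field_simp; ring⟩
  have hfin := (((finConn_eval_ne_zero _ D).finite_components subset_rfl).subset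
    (fun K (hK : K ∈ {K | ∃ x, 0 < s * MvPolynomial.eval x D ∧ K = connectedComponentIn U x}) =>
      hK.imp fun x hx => ⟨hVU hx.1, hx.2⟩)).image (φ '' ·)
  refine ⟨hfin.toFinset, ?_, fun I hI => ?_, ?_⟩
  · obtain ⟨x, hx⟩ := hp
    exact ⟨_, hfin.mem_toFinset.2 ⟨_, ⟨x, hx, rfl⟩, rfl⟩⟩
  · rw [Finite.mem_toFinset] at hI
    obtain ⟨_, ⟨x, hx, rfl⟩, rfl⟩ := hI
    refine ⟨(isPreconnected_connectedComponentIn.image φ
      (hφc.mono (connectedComponentIn_subset _ _))).ordConnected, ?_⟩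
    by_contra hsub
    rw [not_nontrivial_iff] at hsub
    have hzero : MvPolynomial.C (1 - |φ x|) * t ^ 2 - MvPolynomial.C (|φ x| * s) * D = 0 := by
      by_contra hne0
      obtain ⟨y, hy1, hy2⟩ := (dense_eval_ne_zero hne0).inter_open_nonempty _
        hUo.connectedComponentIn ⟨x, mem_connectedComponentIn (hVU hx)⟩
      apply hy2
      have e : φ y = φ x := hsub ⟨y, hy1, rfl⟩ ⟨x, mem_connectedComponentIn (hVU hx), rfl⟩
      simp only [map_sub, map_mul, MvPolynomial.eval_C, map_pow, map_one]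
      rw [← e, (habs y (hsign x hx y hy1)).2]
      ring
    have hall : ∀ y, (1 - |φ x|) * MvPolynomial.eval y t ^ 2 =
        |φ x| * (s * MvPolynomial.eval y D) := fun y => by
      have := congrArg (MvPolynomial.eval y) hzero
      simp only [map_sub, map_mul, MvPolynomial.eval_C, map_pow, map_one, map_zero] at this
      linarith
    obtain ⟨y, hy⟩ := ht
    obtain ⟨z, hz⟩ := hn
    have h1 := (habs x hx).1
    have h2 : 0 < |φ x| := by
      refine lt_of_le_of_ne (abs_nonneg _) fun h0 => hy ?_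
      simpa [← h0] using hall y
    have h3 := hall z
    nlinarith [mul_nonneg (sub_pos.2 h1).le (sq_nonneg (MvPolynomial.eval z t)), mul_pos h2 hz]
  · ext c
    simp only [mem_iUnion, Finite.mem_toFinset]
    constructor
    · rintro ⟨x, hx, rfl⟩
      exact ⟨_, ⟨_, ⟨x, hx, rfl⟩, rfl⟩, x, mem_connectedComponentIn (hVU hx), rfl⟩
    · rintro ⟨_, ⟨_, ⟨x, hx, rfl⟩, rfl⟩, y, hy, rfl⟩
      exact ⟨y, hsign x hx y hy, rfl⟩

theorem admM_image {m : ℕ} {w : Fin m → ℤ} {d : ℤ} {p : FreeAlgebra ℝ (Fin m)}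
    (hp : IsWHom w d p) (hd : d ≠ 0) : AdmM (image M2 p) := by
  have hI := inv_image hp hd
  have h0 : (0 : M2) ∈ image M2 p := ⟨fun _ => 0, hp.lift_zero hd⟩
  refine ⟨h0, hI, ?_⟩
  by_cases hNS : ∀ M ∈ image M2 p, ¬ NS M
  · exact Or.inl fun M hM => ⟨M.trace / 2, by
      rw [Algebra.algebraMap_eq_smul_one, ← eq_smul_one_of_not_NS (hNS M hM)]⟩
  push Not at hNS
  obtain ⟨M₀, hM₀, hNS⟩ := hNS
  have hsg : ∀ s : ℝ, s ≠ 0 → ∃ M ∈ image M2 p, 0 < s * disc M := fun s hs =>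
    exists_disc_sign p hM₀ hNS hs
  by_cases htr : ∀ M ∈ image M2 p, M.trace = 0
  · have h1 : ∀ M : M2, M.trace = 0 → M.det ≠ 0 → M ∈ image M2 p := by
      intro M h h'
      have h2 : disc M ≠ 0 := by simpa [disc, h] using h'
      obtain ⟨M', hM', h3⟩ := hsg _ h2
      exact hI.mem_of_dir hM' h3 (mul_self_pos.2 h2) (by simp [dir, h, htr M' hM'])
    by_cases hN : ∃ M ∈ image M2 p, M ≠ 0 ∧ M.det = 0
    · obtain ⟨N, hN, hN0, hNd⟩ := hN
      refine Or.inr (Or.inl (subset_antisymm htr fun M (hM : M.trace = 0) => ?_))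
      by_cases h2 : M.det = 0
      · by_cases h3 : M = 0
        · exact h3 ▸ h0
        · exact hI.mem_of_nilp hN hN0 h3 (by simp [disc, hNd, htr N hN]) (by simp [disc, hM, h2])
            (htr N hN) hM
      · exact h1 M hM h2
    · push Not at hN
      refine Or.inr (Or.inr (Or.inl (subset_antisymm
        (fun M hM => ⟨htr M hM, or_iff_not_imp_right.2 (hN M hM)⟩) ?_)))
      rintro M ⟨h2, h3 | rfl⟩
      · exact h1 M h2 h3
      · exact h0
  push Not at htr
  obtain ⟨t, D, htD⟩ := exists_trace_disc p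
  have hmem : ∀ M, M ∈ image M2 p ↔ ∃ x, FreeAlgebra.lift ℝ (parM x) p = M := fun M =>
    parM_surjective.exists (p := fun a => FreeAlgebra.lift ℝ a p = M)
  have hside : ∀ s, side s (image M2 p) = {c | ∃ x, 0 < s * MvPolynomial.eval x D ∧
      c = MvPolynomial.eval x t * |MvPolynomial.eval x t| /
        (MvPolynomial.eval x t ^ 2 + |MvPolynomial.eval x D|)} := by
    intro s
    ext c
    simp only [side, hmem, mem_ofPred_eq, exists_exists_eq_and, dir, (htD _).1, (htD _).2]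
  have hsg' : ∀ s : ℝ, s ≠ 0 → ∃ x, 0 < s * MvPolynomial.eval x D := fun s hs => by
    obtain ⟨M, hM, h⟩ := hsg s hs
    obtain ⟨x, rfl⟩ := (hmem M).1 hM
    exact ⟨x, (htD x).2 ▸ h⟩
  have ht : ∃ x, MvPolynomial.eval x t ≠ 0 := by
    obtain ⟨M, hM, h⟩ := htr
    obtain ⟨x, rfl⟩ := (hmem M).1 hM
    exact ⟨x, (htD x).1 ▸ h⟩
  refine Or.inr (Or.inr (Or.inr ⟨?_, ?_, ?_, fun M hM h1 h2 => ?_⟩))
  · rw [hside]
    exact finInt_of_poly t D (Or.inl rfl) ht (hsg' _ one_ne_zero) (hsg' _ (by norm_num))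
  · rw [hside]
    exact finInt_of_poly t D (Or.inr rfl) ht (hsg' _ (by norm_num)) (hsg' _ (by norm_num))
  · refine arc_of_poly t D ?_
    have e : ∀ (a b : ℝ), |a * |a| / (a ^ 2 + |b|)| = a ^ 2 / (a ^ 2 + |b|) := fun a b => by
      rw [abs_div, abs_mul, abs_abs, abs_mul_abs_self, abs_of_nonneg (by positivity), pow_two]
    have e1 : ∀ (a b : ℝ), 0 < b → psi (a ^ 2 / b) = |a * |a| / (a ^ 2 + |b|)| := fun a b hb => by
      rw [e, psi, abs_of_nonneg (by positivity), abs_of_pos hb]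
      field_simp
      ring
    have e2 : ∀ (a b : ℝ), b < 0 → psi (a ^ 2 / b) = -|a * |a| / (a ^ 2 + |b|)| := fun a b hb => by
      have := e1 a (-b) (neg_pos.2 hb)
      rw [abs_neg] at this
      rw [← this, psi, psi, div_neg, abs_neg, neg_div, neg_neg]
    rw [hside, hside]
    ext c
    constructor
    · rintro (⟨_, ⟨x, hx, rfl⟩, rfl⟩ | ⟨_, ⟨x, hx, rfl⟩, rfl⟩)
      · exact ⟨x, by linarith, (e1 _ _ (by linarith)).symm⟩
      · exact ⟨x, by linarith, (e2 _ _ (by linarith)).symm⟩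
    · rintro ⟨x, hx, rfl⟩
      rcases lt_or_gt_of_ne hx with h | h
      · exact Or.inr ⟨_, ⟨x, by linarith, rfl⟩, (e2 _ _ h).symm⟩
      · exact Or.inl ⟨_, ⟨x, by linarith, rfl⟩, (e1 _ _ h).symm⟩
  · obtain ⟨x, rfl⟩ := (hmem M).1 hM
    have hD : D ≠ 0 := by
      obtain ⟨y, hy⟩ := hsg' 1 one_ne_zero
      rintro rfl
      simp at hy
    have htc := t.continuous_eval
    have hDc := D.continuous_eval
    rw [(htD x).1] at h2
    have hc : ContinuousAt (fun x => MvPolynomial.eval x t * |MvPolynomial.eval x t| /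
        (MvPolynomial.eval x t ^ 2 + |MvPolynomial.eval x D|)) x :=
      ContinuousAt.div (by fun_prop) (by fun_prop) (by positivity)
    rw [dir, (htD x).1, (htD x).2, hside, hside]
    refine closure_mono ?_ (hc.continuousWithinAt.mem_closure_image (dense_eval_ne_zero hD x))
    rintro _ ⟨y, hy, rfl⟩
    rcases lt_or_gt_of_ne (show MvPolynomial.eval y D ≠ 0 from hy) with h | h
    · exact Or.inr ⟨y, by linarith, rfl⟩
    · exact Or.inl ⟨y, by linarith, rfl⟩

end Pool.Agent.MP_4e44b6_al.H30
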