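import Mathlib

/-! Polynomials with values in open convex fibres, tangency at nodes, and prescribed signs. -/

namespace Pool.Agent.MP_4e44b6_al.H30

open Set Polynomial Filter Topology

theorem exists_poly_mem {a b : ℝ} {U : Set (ℝ × ℝ)} (hU : IsOpen U)
    (hc : ∀ τ ∈ Icc a b, Convex ℝ {y | (τ, y) ∈ U}) (hn : ∀ τ ∈ Icc a b, ∃ y, (τ, y) ∈ U) :
    ∃ Q : ℝ[X], ∀ τ ∈ Icc a b, (τ, Q.eval τ) ∈ U := by
  obtain ⟨g, hg⟩ := exists_continuous_forall_mem_convex_of_local_const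
    (X := Icc a b) (t := fun x => {y | (x.1, y) ∈ U}) (fun x => hc x.1 x.2) fun x => by
      obtain ⟨y, hy⟩ := hn x.1 x.2
      have : Continuous fun x : Icc a b => (x.1, y) := by fun_prop
      exact ⟨y, this.continuousAt.eventually (hU.mem_nhds hy)⟩
  have hK : IsCompact (range fun x : Icc a b => (x.1, g x)) := isCompact_range (by fun_prop)
  obtain ⟨δ, hδ, hsub⟩ := hK.exists_thickening_subset_open hU (by rintro _ ⟨x, rfl⟩; exact hg x)
  obtain ⟨Q, hQ⟩ := exists_polynomial_near_continuousMap a b g δ hδ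
  refine ⟨Q, fun τ hτ => hsub (Metric.mem_thickening_iff.2 ⟨_, ⟨⟨τ, hτ⟩, rfl⟩, ?_⟩)⟩
  rw [Prod.dist_eq, dist_self, max_lt_iff]
  exact ⟨hδ, ((Q.toContinuousMapOn _ - g).norm_coe_le_norm ⟨τ, hτ⟩).trans_lt hQ⟩

theorem sq_dvd_of_eval {p : ℝ[X]} {τ : ℝ} (h : p.eval τ = 0) (h' : p.derivative.eval τ = 0) :
    (X - C τ) ^ 2 ∣ p := by
  by_cases hp : p = 0
  · simp [hp]
  exact (pow_dvd_pow _ ((one_lt_rootMultiplicity_iff_isRoot hp).2 ⟨h, h'⟩)).trans
    (pow_rootMultiplicity_dvd p τ)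

theorem exists_pow_eq {c : ℝ} (hc : 0 < c) {j : ℕ} (hj : j ≠ 0) : ∃ x : ℝ, 0 < x ∧ x ^ j = c :=
  ⟨c ^ ((j : ℝ)⁻¹), Real.rpow_pos_of_pos hc _, Real.rpow_inv_natCast_pow hc.le hj⟩

theorem exists_tangent (k n : ℝ[X]) {τ : ℝ} (hk : 0 < k.eval τ) (hn : 0 < n.eval τ) {j : ℕ}
    (hj : j ≠ 0) : ∃ b : ℝ[X], 0 < b.eval τ ∧ (X - C τ) ^ 2 ∣ k - n * b ^ j := by
  obtain ⟨β, hβ, e⟩ := exists_pow_eq (div_pos hk hn) hj
  have hj' : (0 : ℝ) < j := by exact_mod_cast Nat.pos_of_ne_zero hj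
  refine ⟨C β + C ((k.derivative.eval τ - n.derivative.eval τ * β ^ j) /
    (n.eval τ * j * β ^ (j - 1))) * (X - C τ), by simpa using hβ, sq_dvd_of_eval ?_ ?_⟩
  · simp only [eval_sub, eval_mul, eval_pow, eval_add, eval_C, eval_X, sub_self, mul_zero,
      add_zero, e]
    field_simp
    ring
  · simp only [derivative_sub, derivative_mul, derivative_pow, derivative_add, derivative_C,
      derivative_X, eval_sub, eval_mul, eval_pow, eval_add, eval_C, eval_X, sub_self, mul_zero,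
      add_zero, zero_mul, zero_add, sub_zero, mul_one]
    field_simp
    ring

theorem exists_zig (s : Finset ℕ) {θ : ℕ → ℝ} (hθ : Function.Injective θ) (k n W : ℕ → ℝ[X])
    (Cl : ℕ → Set ℝ) (hC : ∀ l, IsClosed (Cl l)) {j : ℕ} (hj : j ≠ 0) (a b : ℝ)
    (h1 : ∀ l ∈ s, 0 < (k l).eval (θ l) ∧ 0 < (n l).eval (θ l))
    (h2 : ∀ l ∈ s, W l ∣ (X - C (θ l)) ^ 2 ∧ (W l).eval (θ l) = 0)
    (h3 : ∀ τ ∈ Icc a b, ∃ x : ℝ, 0 < x ∧ ∀ l ∈ s,
      (τ = θ l → (k l).eval τ = (n l).eval τ * x ^ j) ∧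
      (τ ∈ Cl l → τ ≠ θ l → 0 < (W l).eval τ * ((k l).eval τ - (n l).eval τ * x ^ j))) :
    ∃ B : ℝ[X], (∀ τ ∈ Icc a b, 0 < B.eval τ) ∧ ∀ l ∈ s, ∃ R : ℝ[X],
      k l - n l * B ^ j = W l * R ∧ ∀ τ ∈ Icc a b, τ ∈ Cl l → 0 < R.eval τ := by
  classical
  choose! c hc hc' using fun l hl => exists_tangent (k l) (n l) (h1 l hl).1 (h1 l hl).2 hj
  obtain ⟨b₀, hb₀⟩ := Ideal.exists_forall_sub_mem_ideal
    (I := fun l : s => Ideal.span {((X - C (θ l)) ^ 2 : ℝ[X])}) (fun l l' h =>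
      (Ideal.isCoprime_span_singleton_iff _ _).2
        ((pairwise_coprime_X_sub_C hθ (Subtype.coe_ne_coe.2 h)).pow)) fun l => c l
  simp only [Ideal.mem_span_singleton] at hb₀
  have hb1 : ∀ l ∈ s, 0 < b₀.eval (θ l) := fun l hl => by
    obtain ⟨r, hr⟩ := hb₀ ⟨l, hl⟩
    have := congrArg (eval (θ l)) hr
    simp only [eval_sub, eval_mul, eval_pow, eval_X, eval_C, sub_self] at this
    linarith [hc l hl]
  have hb2 : ∀ l ∈ s, ∃ R, k l - n l * b₀ ^ j = W l * R := fun l hl => by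
    refine (h2 l hl).1.trans ?_
    have := (hc' l hl).sub
      (((hb₀ ⟨l, hl⟩).trans (sub_dvd_pow_sub_pow b₀ (c l) j)).mul_left (n l))
    rwa [mul_sub, sub_sub, add_sub_cancel] at this
  choose! R hR using hb2
  have hW : ∀ l ∈ s, ∀ τ, τ ≠ θ l → (W l).eval τ ≠ 0 := fun l hl τ hτ h0 => by
    obtain ⟨r, hr⟩ := (h2 l hl).1
    have := congrArg (eval τ) hr
    simp only [eval_sub, eval_mul, eval_pow, eval_X, eval_C, h0, zero_mul] at this
    exact hτ (sub_eq_zero.1 (pow_eq_zero_iff two_ne_zero |>.1 this))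
  set N := ∏ l ∈ s, W l with hN
  have hN' : ∀ l ∈ s, N = W l * ∏ l' ∈ s.erase l, W l' := fun l hl =>
    (Finset.mul_prod_erase s W hl).symm
  let D : ℕ → ℝ → ℝ → ℝ := fun l τ y => (R l).eval τ - (n l).eval τ *
    (∏ l' ∈ s.erase l, W l').eval τ * y *
    ∑ i ∈ Finset.range j, (b₀.eval τ + N.eval τ * y) ^ i * b₀.eval τ ^ (j - 1 - i)
  have hD : ∀ l ∈ s, ∀ τ y, (W l).eval τ * D l τ y =
      (k l).eval τ - (n l).eval τ * (b₀.eval τ + N.eval τ * y) ^ j := fun l hl τ y => by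
    have e1 := congrArg (eval τ) (hR l hl)
    have e2 := congrArg (eval τ) (hN' l hl)
    have e3 := geom_sum₂_mul (b₀.eval τ + N.eval τ * y) (b₀.eval τ) j
    simp only [eval_sub, eval_mul, eval_pow] at e1 e2
    simp only [D]
    linear_combination (-1 : ℝ) * e1 - (n l).eval τ * e3 + (n l).eval τ * y *
      (∑ i ∈ Finset.range j, (b₀.eval τ + N.eval τ * y) ^ i * b₀.eval τ ^ (j - 1 - i)) * e2
  have hD' : ∀ l ∈ s, ∀ τ y, τ ≠ θ l → (0 < D l τ y ↔
      0 < (W l).eval τ * ((k l).eval τ - (n l).eval τ * (b₀.eval τ + N.eval τ * y) ^ j)) :=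
    fun l hl τ y hτ => by
      rw [← hD l hl, ← mul_assoc, mul_pos_iff_of_pos_left (mul_self_pos.2 (hW l hl τ hτ))]
  have hN0 : ∀ l ∈ s, N.eval (θ l) = 0 := fun l hl => by
    rw [hN' l hl, eval_mul, (h2 l hl).2, zero_mul]
  obtain ⟨Q, hQ⟩ := exists_poly_mem (a := a) (b := b)
    (U := {z | 0 < b₀.eval z.1 + N.eval z.1 * z.2 ∧ ∀ l ∈ s, z.1 ∈ Cl l → 0 < D l z.1 z.2})
    (by
      refine IsOpen.inter (s := {z : ℝ × ℝ | 0 < b₀.eval z.1 + N.eval z.1 * z.2})
        (t := {z : ℝ × ℝ | ∀ l ∈ s, z.1 ∈ Cl l → 0 < D l z.1 z.2})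
        (isOpen_lt continuous_const (by fun_prop)) ?_
      rw [show {z : ℝ × ℝ | ∀ l ∈ s, z.1 ∈ Cl l → 0 < D l z.1 z.2} =
        ⋂ l ∈ s, (Prod.fst ⁻¹' (Cl l)ᶜ ∪ {z | 0 < D l z.1 z.2}) by
          ext z; simp [imp_iff_not_or]]
      exact isOpen_biInter_finset fun l _ => ((hC l).isOpen_compl.preimage continuous_fst).union
        (isOpen_lt continuous_const (by simp only [D]; fun_prop)))
    (fun τ _ => by
      refine convex_iff_ordConnected.2 ⟨fun y₁ hy₁ y₂ hy₂ y hy => ?_⟩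
      have aff : ∀ {u v t₁ t₂ t : ℝ}, t ∈ uIcc t₁ t₂ → 0 < u + v * t₁ → 0 < u + v * t₂ →
          0 < u + v * t := fun {u v t₁ t₂ t} ht h₁ h₂ => by
        rcases mem_uIcc.1 ht with ht | ht <;> rcases le_total 0 v with hv | hv <;>
          nlinarith [ht.1, ht.2]
      have hy' : y ∈ uIcc y₁ y₂ := Icc_subset_uIcc hy
      have hpos := aff hy' hy₁.1 hy₂.1
      refine ⟨hpos, fun l hl hτ => ?_⟩
      have k₁ := hy₁.2 l hl hτ
      have k₂ := hy₂.2 l hl hτ
      by_cases hτ' : N.eval τ = 0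
      · simp only [D, hτ', zero_mul, add_zero] at k₁ k₂ ⊢
        have := aff (u := (R l).eval τ) (v := -((n l).eval τ * (∏ l' ∈ s.erase l, W l').eval τ *
          ∑ i ∈ Finset.range j, b₀.eval τ ^ i * b₀.eval τ ^ (j - 1 - i))) hy'
          (by linarith) (by linarith)
        linarith
      · have hne : τ ≠ θ l := fun h => hτ' (h ▸ hN0 l hl)
        simp only [hD' l hl τ _ hne] at k₁ k₂ ⊢
        have hm : (b₀.eval τ + N.eval τ * y) ^ j ∈
            uIcc ((b₀.eval τ + N.eval τ * y₁) ^ j) ((b₀.eval τ + N.eval τ * y₂) ^ j) := by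
          rcases le_total 0 (N.eval τ) with hv | hv
          · exact mem_uIcc_of_le (pow_le_pow_left₀ hy₁.1.le (by nlinarith [hy.1]) j)
              (pow_le_pow_left₀ hpos.le (by nlinarith [hy.2]) j)
          · exact mem_uIcc_of_ge (pow_le_pow_left₀ hy₂.1.le (by nlinarith [hy.2]) j)
              (pow_le_pow_left₀ hpos.le (by nlinarith [hy.1]) j)
        have := aff (u := (W l).eval τ * (k l).eval τ) (v := -((W l).eval τ * (n l).eval τ)) hm
          (by linarith) (by linarith)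
        linarith)
    fun τ hτ => by
      obtain ⟨x, hx, h⟩ := h3 τ hτ
      by_cases hτ' : ∃ l ∈ s, τ = θ l
      · obtain ⟨l, hl, rfl⟩ := hτ'
        have e0 := hD l hl (θ l) 0
        rw [(h2 l hl).2, zero_mul, mul_zero, add_zero, (h l hl).1 rfl, ← mul_sub] at e0
        have e1 : x = b₀.eval (θ l) := (pow_left_inj₀ hx.le (hb1 l hl).le hj).1
          (sub_eq_zero.1 ((mul_eq_zero.1 e0.symm).resolve_left (h1 l hl).2.ne'))
        have e2 : (n l).eval (θ l) * (∏ l' ∈ s.erase l, W l').eval (θ l) *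
            ∑ i ∈ Finset.range j, b₀.eval (θ l) ^ i * b₀.eval (θ l) ^ (j - 1 - i) ≠ 0 := by
          refine mul_ne_zero (mul_ne_zero (h1 l hl).2.ne' ?_) (Finset.sum_pos (fun i _ => ?_)
            (Finset.nonempty_range_iff.2 hj)).ne'
          · rw [eval_prod]
            exact Finset.prod_ne_zero_iff.2 fun l' hl' => hW l' (Finset.mem_of_mem_erase hl') _
              fun e => Finset.ne_of_mem_erase hl' (hθ e).symm
          · have := hb1 l hl
            positivity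
        obtain ⟨y, hy⟩ : ∃ y, D l (θ l) y = 1 := ⟨((R l).eval (θ l) - 1) / _, by
          simp only [D, hN0 l hl, zero_mul, add_zero]
          rw [mul_right_comm, mul_div_cancel₀ _ e2]
          ring⟩
        refine ⟨y, by simpa [hN0 l hl] using hb1 l hl, fun l' hl' hm => ?_⟩
        by_cases e : θ l = θ l'
        · rw [← hθ e, hy]
          exact one_pos
        · rw [hD' l' hl' _ _ e, hN0 l hl, zero_mul, add_zero, ← e1]
          exact (h l' hl').2 hm e
      · push Not at hτ'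
        have hN1 : N.eval τ ≠ 0 := by
          rw [hN, eval_prod]
          exact Finset.prod_ne_zero_iff.2 fun l hl => hW l hl τ (hτ' l hl)
        have e : b₀.eval τ + N.eval τ * ((x - b₀.eval τ) / N.eval τ) = x := by field_simp; ring
        refine ⟨(x - b₀.eval τ) / N.eval τ, by simpa only [e] using hx, fun l hl hm => ?_⟩
        rw [hD' l hl _ _ (hτ' l hl), e]
        exact (h l hl).2 hm (hτ' l hl)
  refine ⟨b₀ + N * Q, fun τ hτ => by simpa using (hQ τ hτ).1, fun l hl =>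
    ⟨R l - n l * (∏ l' ∈ s.erase l, W l') * Q *
      ∑ i ∈ Finset.range j, (b₀ + N * Q) ^ i * b₀ ^ (j - 1 - i), Polynomial.funext fun τ => ?_,
      fun τ hτ hm => ?_⟩⟩
  · simpa [D, eval_finsetSum] using (hD l hl τ (Q.eval τ)).symm
  · simpa [D, eval_finsetSum] using (hQ τ hτ).2 l hl hm

theorem exists_sign_at {θ : ℕ → ℝ} (hθ : StrictMono θ) (ε : ℕ → ℝ)
    (hε : ∀ l, ε l = 1 ∨ ε l = -1) (keep : ℕ → Prop) (L : ℕ)
    (hk : ∀ l, l < L → keep l → ε (l + 1) = ε l) :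
    ∃ F : ℝ[X], (∀ l ≤ L, ∀ τ : ℝ, θ l < τ → (τ < θ (l + 1) ∨ l = L) → 0 < ε l * F.eval τ) ∧
      F.eval (θ 0) = 0 ∧ (∀ l < L, ¬ keep l → F.eval (θ (l + 1)) = 0) ∧
      (∀ l < L, keep l → 0 < ε l * F.eval (θ (l + 1))) := by
  induction L with
  | zero =>
    refine ⟨C (ε 0) * (X - C (θ 0)), fun l hl τ h _ => ?_, by simp, by simp, by simp⟩
    obtain rfl : l = 0 := by omega
    rcases hε 0 with h' | h' <;> simpa [h'] using h
  | succ L ih =>
    obtain ⟨F, h1, h0, h2, h3⟩ := ih fun l hl => hk l (by omega)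
    have hG : ∃ G : ℝ[X], (∀ τ : ℝ, τ < θ (L + 1) → 0 < G.eval τ) ∧
        (∀ τ : ℝ, θ (L + 1) < τ → 0 < ε (L + 1) * ε L * G.eval τ) ∧
        (¬ keep L → G.eval (θ (L + 1)) = 0) ∧ (keep L → 0 < G.eval (θ (L + 1))) := by
      by_cases hkeep : keep L
      · refine ⟨1, by simp, fun μ _ => ?_, fun h => absurd hkeep h, by simp⟩
        rw [hk L (by omega) hkeep]
        rcases hε L with h | h <;> simp [h]
      · by_cases hs : ε (L + 1) * ε L = 1
        · refine ⟨(C (θ (L + 1)) - X) ^ 2, fun μ h => ?_, fun μ h => ?_, by simp,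
            fun h => absurd h hkeep⟩
          · simp only [eval_pow, eval_sub, eval_C, eval_X]
            exact pow_pos (sub_pos.2 h) 2
          · simp only [eval_pow, eval_sub, eval_C, eval_X, hs, one_mul]
            exact even_two.pow_pos (sub_neg.2 h).ne
        · have hs' : ε (L + 1) * ε L = -1 := by
            rcases hε L with h | h <;> rcases hε (L + 1) with h' | h' <;> simp_all
          refine ⟨C (θ (L + 1)) - X, fun μ h => ?_, fun μ h => ?_, by simp,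
            fun h => absurd h hkeep⟩
          · simpa using h
          · simpa [hs'] using h
    obtain ⟨G, g1, g2, g3, g4⟩ := hG
    refine ⟨F * G, fun l hl μ hμ hμ' => ?_, by simp [h0], fun l hl hkl => ?_, fun l hl hkl => ?_⟩
    · rw [eval_mul]
      rcases hl.eq_or_lt with rfl | hl'
      · have a3 := mul_pos (h1 L le_rfl μ ((hθ (lt_add_one L)).trans hμ) (Or.inr rfl)) (g2 μ hμ)
        have a4 : ε L * ε L = 1 := by rcases hε L with h | h <;> simp [h]
        have : ε L * F.eval μ * (ε (L + 1) * ε L * G.eval μ) =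
            (ε L * ε L) * (ε (L + 1) * (F.eval μ * G.eval μ)) := by ring
        rwa [this, a4, one_mul] at a3
      · have hμ2 : μ < θ (l + 1) := hμ'.resolve_right (by omega)
        rw [← mul_assoc]
        exact mul_pos (h1 l (by omega) μ hμ (Or.inl hμ2))
          (g1 μ (hμ2.trans_le (hθ.monotone (by omega))))
    · rw [eval_mul]
      rcases (Nat.lt_succ_iff.1 hl).eq_or_lt with rfl | hl'
      · rw [g3 hkl, mul_zero]
      · rw [h2 l hl' hkl, zero_mul]
    · rw [eval_mul, ← mul_assoc]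
      rcases (Nat.lt_succ_iff.1 hl).eq_or_lt with rfl | hl'
      · exact mul_pos (h1 l le_rfl _ (hθ (lt_add_one l)) (Or.inr rfl)) (g4 hkl)
      · exact mul_pos (h3 l hl' hkl) (g1 _ (hθ (by omega)))

end Pool.Agent.MP_4e44b6_al.H30
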