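import Pool.Agent.MP_4e44b6_al.H30.Chain
import Pool.Agent.MP_4e44b6_al.H30.Sandwich

/-! Polynomials in one parameter that realize a walk. -/

namespace Pool.Agent.MP_4e44b6_al.H30

open Set Polynomial Filter Topology

theorem exists_factor {M N b y : ℝ} (hM : 0 ≤ M) (hN : 0 ≤ N) (h : 0 < M + N * b ^ 2)
    (hy : 0 < y) (hy' : y < 1) : ∃ κ : ℝ, 0 < κ ∧
      (1 - y) ^ 2 * M ^ 2 - y ^ 2 * N ^ 2 * b ^ 4 = κ * (M / (M + N * b ^ 2) - y) := by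
  refine ⟨(M + N * b ^ 2) * ((1 - y) * M + y * (N * b ^ 2)), mul_pos h ?_, by field_simp; ring⟩
  have h1 : 0 ≤ N * b ^ 2 := by positivity
  rcases hM.eq_or_lt with rfl | hM
  · simpa using mul_pos hy (by simpa using h)
  · have := mul_pos (sub_pos.2 hy') hM
    positivity

theorem exists_W (θ : ℝ) {u₁ u₂ : ℝ} (h₁ : u₁ ≠ 0) (h₂ : u₂ ≠ 0) :
    ∃ W : ℝ[X], (W ∣ (X - C θ) ^ 2 ∧ W.eval θ = 0) ∧
      (∀ τ, θ < τ → ∃ κ, 0 < κ ∧ W.eval τ = κ * u₂) ∧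
      ∀ τ, τ < θ → ∃ κ, 0 < κ ∧ W.eval τ = κ * u₁ := by
  have hu := (isUnit_C (R := ℝ)).2 (isUnit_iff_ne_zero.2 h₂)
  rcases lt_or_gt_of_ne (div_ne_zero h₂ h₁) with h | h
  · refine ⟨C u₂ * (X - C θ), ⟨hu.mul_left_dvd.2 (dvd_pow_self _ two_ne_zero), by simp⟩,
      fun τ hτ => ⟨τ - θ, sub_pos.2 hτ, by simp [mul_comm]⟩,
      fun τ hτ => ⟨(τ - θ) * (u₂ / u₁), mul_pos_of_neg_of_neg (sub_neg.2 hτ) h, ?_⟩⟩
    simp only [eval_mul, eval_sub, eval_C, eval_X]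
    field_simp
  · refine ⟨C u₂ * (X - C θ) ^ 2, ⟨hu.mul_left_dvd.2 dvd_rfl, by simp⟩,
      fun τ hτ => ⟨(τ - θ) ^ 2, pow_pos (sub_pos.2 hτ) 2, by simp [mul_comm]⟩,
      fun τ hτ => ⟨(τ - θ) ^ 2 * (u₂ / u₁), mul_pos (even_two.pow_pos (sub_neg.2 hτ).ne) h, ?_⟩⟩
    simp only [eval_mul, eval_sub, eval_C, eval_X, eval_pow]
    field_simp

theorem mem_uIoo_iff_mul {a b t : ℝ} :
    t ∈ uIoo a b ↔ 0 < (b - a) * (t - a) ∧ 0 < (a - b) * (t - b) := by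
  rcases lt_trichotomy a b with h | rfl | h
  · rw [uIoo_of_lt h, mul_pos_iff_of_pos_left (sub_pos.2 h), ← neg_mul_neg, neg_sub, neg_sub,
      mul_pos_iff_of_pos_left (sub_pos.2 h), sub_pos, sub_pos, mem_Ioo]
  · simp
  · rw [uIoo_of_gt h, mul_pos_iff_of_pos_left (sub_pos.2 h), ← neg_mul_neg, neg_sub, neg_sub,
      mul_pos_iff_of_pos_left (sub_pos.2 h), sub_pos, sub_pos, mem_Ioo, and_comm]

theorem exists_seg {θ : ℕ → ℝ} {L : ℕ} {τ : ℝ} (h : θ 0 < τ) (h' : τ ≤ θ L) :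
    ∃ l < L, θ l < τ ∧ τ ≤ θ (l + 1) := by
  induction L with
  | zero => exact absurd h (not_lt.2 h')
  | succ L ih =>
    rcases le_or_gt τ (θ L) with h1 | h1
    · obtain ⟨l, hl, h2⟩ := ih h1
      exact ⟨l, by omega, h2⟩
    · exact ⟨L, lt_add_one L, h1, h'⟩

theorem ne_node {θ : ℕ → ℝ} (hθ : StrictMono θ) {l : ℕ} {τ : ℝ} (h : θ l < τ)
    (h' : τ < θ (l + 1)) (j : ℕ) : τ ≠ θ j := by
  rintro rfl
  rw [hθ.lt_iff_lt] at h h'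
  omega

theorem exists_solve {M N y : ℝ} (hM : 0 < M) (hN : 0 < N) (hy : 0 < y) (hy' : y < 1) :
    ∃ x : ℝ, 0 < x ∧ M / (M + N * x ^ 4) = y := by
  obtain ⟨x, hx, e⟩ := exists_pow_eq (c := M * (1 - y) / (y * N))
    (div_pos (mul_pos hM (sub_pos.2 hy')) (mul_pos hy hN)) four_ne_zero
  refine ⟨x, hx, ?_⟩
  rw [e]
  field_simp
  ring

theorem Walk.Valid.step_abs {w : Walk} (hw : w.Valid) {l : ℕ} (hl : l < w.L) {c : ℝ}
    (hc : c ∈ w.step l) (h : ¬ |c| < 1) :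
    l + 1 < w.L ∧ w.keep l ∧ w.y (l + 1) = 1 ∧ c = w.ε l := by
  have k : ∀ t, |w.ε l * t| = |t| := fun t => by rcases hw.sign l with e | e <;> simp [e]
  rcases hc with ⟨t, ht, rfl⟩ | ⟨h1, h2, rfl⟩
  · have := uIoo_subset_Ioo (hw.mem l hl.le) (hw.mem (l + 1) hl) ht
    exact absurd (by rw [k, abs_of_pos this.1]; exact this.2) h
  · have h3 := hw.mem (l + 1) hl
    rw [k, abs_of_nonneg h3.1] at h
    have h4 := le_antisymm h3.2 (not_lt.1 h)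
    exact ⟨h1, h2, h4, by rw [h4, mul_one]⟩

/-- The node `j` is kept. -/
def Walk.Kept (w : Walk) (j : ℕ) : Prop := ∃ l, j = l + 1 ∧ l + 1 < w.L ∧ w.keep l

theorem exists_root_poly (θ : ℕ → ℝ) (L : ℕ) (p : ℕ → Prop) :
    ∃ N : ℝ[X], ∀ τ, N.eval τ = 0 ↔ ∃ j ≤ L, p j ∧ τ = θ j := by
  classical
  exact ⟨∏ j ∈ Finset.range (L + 1) with p j, (X - C (θ j)), fun τ => by
    simp [eval_prod, Finset.prod_eq_zero_iff, sub_eq_zero, and_assoc]⟩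

theorem exists_perturbed (w : Walk) (hw : w.Valid) {θ : ℕ → ℝ} (hθ : StrictMono θ)
    (h0 : w.y 0 = 0 ∨ w.y 0 = 1) (hL : w.y w.L = 0 ∨ w.y w.L = 1) (Tn : ℕ → Prop)
    (hT : ∀ j, Tn j → w.y j = 1) (M Nn : ℝ → ℝ) (m n : ℝ[X]) (hM0 : ∀ τ, 0 ≤ M τ)
    (hN0 : ∀ τ, 0 ≤ Nn τ) (hm : ∀ τ, m.eval τ = M τ ^ 2) (hn : ∀ τ, n.eval τ = Nn τ ^ 2)
    (hM : ∀ τ, M τ = 0 ↔ ∃ j ≤ w.L, w.y j = 0 ∧ τ = θ j)
    (hN : ∀ τ, Nn τ = 0 ↔ ∃ j ≤ w.L, (w.y j = 1 ∧ ¬ Tn j) ∧ τ = θ j) :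
    ∃ β E : ℝ[X], (∀ τ ∈ Icc (θ 0) (θ w.L), β.eval τ = 0 ↔ ∃ j ≤ w.L, Tn j ∧ τ = θ j) ∧
      (∀ τ, E.eval τ = 0 ↔ ∃ j ≤ w.L, ¬ Tn j ∧ τ = θ j) ∧
      ∀ P : ℝ, |P| ≤ 1 → ∀ b : ℝ → ℝ, (∀ τ, b τ = β.eval τ ^ 2 - E.eval τ ^ 2 * P) →
        (∀ τ ∈ Icc (θ 0) (θ w.L), 0 < M τ + Nn τ * b τ ^ 2) ∧
        (∀ j ≤ w.L, ¬ Tn j → M (θ j) / (M (θ j) + Nn (θ j) * b (θ j) ^ 2) = w.y j) ∧
        (∀ l < w.L, ¬ Tn l → ¬ Tn (l + 1) → ∀ τ ∈ Icc (θ l) (θ (l + 1)), b τ ≠ 0) ∧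
        ∀ l < w.L, ∀ τ, θ l < τ → τ < θ (l + 1) ∨ (τ = θ (l + 1) ∧ Tn (l + 1)) → b τ ≠ 0 →
          M τ / (M τ + Nn τ * b τ ^ 2) ∈ uIoo (w.y l) (w.y (l + 1)) := by
  classical
  obtain ⟨e₂, re⟩ := exists_root_poly θ w.L Tn
  obtain ⟨N, rN⟩ := exists_root_poly θ w.L fun j => ¬ Tn j
  have node : ∀ {p : ℕ → Prop} {i : ℕ}, (∃ j ≤ w.L, p j ∧ θ i = θ j) → p i :=
    fun ⟨j, _, h, e⟩ => hθ.injective e ▸ h
  have sub : ∀ l < w.L, Icc (θ l) (θ (l + 1)) ⊆ Icc (θ 0) (θ w.L) := fun l hl =>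
    Icc_subset_Icc (hθ.monotone (Nat.zero_le l)) (hθ.monotone hl)
  have nodeI : ∀ j ≤ w.L, θ j ∈ Icc (θ 0) (θ w.L) := fun j hj =>
    ⟨hθ.monotone (Nat.zero_le j), hθ.monotone hj⟩
  let s := (Finset.range (w.L + 1)).filter fun l => 0 < w.y l ∧ w.y l < 1
  have hs : ∀ l, l ∈ s ↔ l ≤ w.L ∧ 0 < w.y l ∧ w.y l < 1 := fun l => by
    simp [s]
  have hs' : ∀ l ∈ s, 0 < l ∧ l < w.L := fun l hl => by
    obtain ⟨h1, h2, h3⟩ := (hs l).1 hl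
    constructor
    · by_contra h
      obtain rfl : l = 0 := by omega
      rcases h0 with h | h <;> linarith
    · by_contra h
      obtain rfl : l = w.L := by omega
      rcases hL with h | h <;> linarith
  have tri : ∀ j ≤ w.L, w.y j = 0 ∨ w.y j = 1 ∨ j ∈ s := fun j hj => by
    have := hw.mem j hj
    rcases this.1.eq_or_lt with h | h
    · exact Or.inl h.symm
    · exact Or.inr (this.2.eq_or_lt.imp_right fun h' => (hs j).2 ⟨hj, h, h'⟩)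
  choose! W hW hW₂ hW₁ using fun l (hl : l ∈ s) => exists_W (θ l)
    (u₁ := w.y (l - 1) - w.y l) (u₂ := w.y (l + 1) - w.y l)
    (sub_ne_zero.2 (by
      have := hw.ne (l - 1) (by have := hs' l hl; omega)
      rwa [Nat.sub_add_cancel (hs' l hl).1] at this))
    (sub_ne_zero.2 (hw.ne l (hs' l hl).2).symm)
  have pos : ∀ τ, (¬ ∃ j ≤ w.L, (w.y j = 0 ∨ w.y j = 1) ∧ τ = θ j) →
      0 < M τ ∧ 0 < Nn τ ∧ e₂.eval τ ≠ 0 := fun τ h =>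
    ⟨(hM0 τ).lt_of_ne' fun e => h (((hM τ).1 e).imp fun j k => ⟨k.1, Or.inl k.2.1, k.2.2⟩),
      (hN0 τ).lt_of_ne' fun e => h (((hN τ).1 e).imp fun j k => ⟨k.1, Or.inr k.2.1.1, k.2.2⟩),
      fun e => h (((re τ).1 e).imp fun j k => ⟨k.1, Or.inr (hT j k.2.1), k.2.2⟩)⟩
  have den : ∀ τ c, (M τ = 0 → c ≠ 0) → 0 < M τ + Nn τ * c ^ 2 := fun τ c h => by
    rcases (hM0 τ).eq_or_lt with e | e
    · obtain ⟨j, hj, h1, rfl⟩ := (hM τ).1 e.symm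
      have h2 : 0 < Nn (θ j) := (hN0 _).lt_of_ne' fun k => by linarith [(node ((hN _).1 k)).1]
      have := h e.symm
      rw [← e]
      positivity
    · have := hN0 τ
      positivity
  have he₂0 : ∀ τ, M τ = 0 → e₂.eval τ ≠ 0 := fun τ e k => by
    obtain ⟨j, hj, h1, rfl⟩ := (hM τ).1 e
    linarith [hT j (node ((re _).1 k))]
  have v0 : ∀ j ≤ w.L, w.y j = 0 → ∀ c, M (θ j) / (M (θ j) + Nn (θ j) * c ^ 2) = w.y j :=
    fun j hj h c => by rw [(hM _).2 ⟨j, hj, h, rfl⟩, h, zero_div]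
  have v1 : ∀ j ≤ w.L, w.y j = 1 → ∀ c, (Tn j → c = 0) →
      M (θ j) / (M (θ j) + Nn (θ j) * c ^ 2) = w.y j := fun j hj h c hc => by
    have h1 : M (θ j) ≠ 0 := fun k => by linarith [node ((hM _).1 k)]
    have h2 : Nn (θ j) * c ^ 2 = 0 := by
      by_cases k : Tn j
      · simp [hc k]
      · rw [(hN _).2 ⟨j, hj, ⟨h, k⟩, rfl⟩, zero_mul]
    rw [h2, add_zero, div_self h1, h]
  have target : ∀ τ ∈ Icc (θ 0) (θ w.L), ∃ x : ℝ, 0 < x ∧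
      (∀ j ≤ w.L, τ = θ j → M τ / (M τ + Nn τ * ((e₂.eval τ * x) ^ 2) ^ 2) = w.y j) ∧
      ∀ l < w.L, θ l < τ → τ < θ (l + 1) →
        M τ / (M τ + Nn τ * ((e₂.eval τ * x) ^ 2) ^ 2) ∈ uIoo (w.y l) (w.y (l + 1)) := by
    have solve : ∀ τ y, (¬ ∃ j ≤ w.L, (w.y j = 0 ∨ w.y j = 1) ∧ τ = θ j) → 0 < y → y < 1 →
        ∃ x : ℝ, 0 < x ∧ M τ / (M τ + Nn τ * ((e₂.eval τ * x) ^ 2) ^ 2) = y := by
      intro τ y h h1 h2
      obtain ⟨k1, k2, k3⟩ := pos τ h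
      obtain ⟨x, hx, e⟩ := exists_solve k1 (mul_pos k2 (even_two.mul_right 2 |>.pow_pos k3)) h1 h2
      refine ⟨x, hx, ?_⟩
      rw [← e]
      ring
    intro τ hτ
    by_cases h : ∃ j ≤ w.L, τ = θ j
    · obtain ⟨j, hj, rfl⟩ := h
      suffices ∃ x : ℝ, 0 < x ∧
          M (θ j) / (M (θ j) + Nn (θ j) * ((e₂.eval (θ j) * x) ^ 2) ^ 2) = w.y j by
        obtain ⟨x, hx, e⟩ := this
        exact ⟨x, hx, fun i _ k => hθ.injective k ▸ e,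
          fun l _ k1 k2 => absurd rfl (ne_node hθ k1 k2 j)⟩
      rcases tri j hj with h | h | h
      · exact ⟨1, one_pos, v0 j hj h _⟩
      · exact ⟨1, one_pos, v1 j hj h _ fun k => by simp [(re _).2 ⟨j, hj, k, rfl⟩]⟩
      · obtain ⟨-, h1, h2⟩ := (hs j).1 h
        exact solve _ _ (fun k => by rcases node k with k | k <;> linarith) h1 h2
    · obtain ⟨l, hl, k1, k2⟩ := exists_seg
        (hτ.1.lt_of_ne fun e => h ⟨0, Nat.zero_le _, e.symm⟩) hτ.2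
      have k3 : τ < θ (l + 1) := k2.lt_of_ne fun e => h ⟨l + 1, hl, e⟩
      have k4 : (w.y l + w.y (l + 1)) / 2 ∈ uIoo (w.y l) (w.y (l + 1)) := by
        have := mul_self_pos.2 (sub_ne_zero.2 (hw.ne l hl))
        rw [mem_uIoo_iff_mul]
        constructor <;> nlinarith
      have k5 := uIoo_subset_Ioo (hw.mem l hl.le) (hw.mem (l + 1) hl) k4
      obtain ⟨x, hx, e⟩ := solve τ _ (fun ⟨j, hj, _, k⟩ => h ⟨j, hj, k⟩) k5.1 k5.2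
      refine ⟨x, hx, fun j hj k => absurd ⟨j, hj, k⟩ h, fun l' _ k6 k7 => ?_⟩
      obtain rfl : l' = l := by
        have := hθ.lt_iff_lt.1 (k6.trans k3)
        have := hθ.lt_iff_lt.1 (k1.trans k7)
        omega
      exact e ▸ k4
  obtain ⟨B, hB, hR⟩ := exists_zig s hθ.injective (fun l => C ((1 - w.y l) ^ 2) * m)
    (fun l => C (w.y l ^ 2) * n * e₂ ^ 8) W (fun l => Icc (θ (l - 1)) (θ (l + 1)))
    (fun _ => isClosed_Icc) (j := 8) (by norm_num) (θ 0) (θ w.L)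
    (fun l hl => by
      obtain ⟨-, h1, h2⟩ := (hs l).1 hl
      obtain ⟨k1, k2, k3⟩ := pos (θ l) fun k => by rcases node k with k | k <;> linarith
      have := sub_pos.2 h2
      simp only [eval_mul, eval_C, eval_pow, hm, hn]
      exact ⟨by positivity, by positivity⟩) hW
    fun τ hτ => by
      obtain ⟨x, hx, k1, k2⟩ := target τ hτ
      refine ⟨x, hx, fun l hl => ?_⟩
      obtain ⟨h1, h2, h3⟩ := (hs l).1 hl
      obtain ⟨κ, hκ, e⟩ := exists_factor (hM0 τ) (hN0 τ) (den τ ((e₂.eval τ * x) ^ 2)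
        fun k => pow_ne_zero 2 (mul_ne_zero (he₂0 τ k) hx.ne')) h2 h3
      have e' : (C ((1 - w.y l) ^ 2) * m).eval τ - (C (w.y l ^ 2) * n * e₂ ^ 8).eval τ * x ^ 8 =
          κ * (M τ / (M τ + Nn τ * ((e₂.eval τ * x) ^ 2) ^ 2) - w.y l) := by
        rw [← e]
        simp only [eval_mul, eval_C, eval_pow, hm, hn]
        ring
      refine ⟨fun k => by rwa [k1 l h1 k, sub_self, mul_zero, sub_eq_zero] at e', fun k3 k4 => ?_⟩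
      rw [e']
      obtain ⟨l0, lL⟩ := hs' l hl
      rcases lt_or_gt_of_ne k4 with k5 | k5
      · obtain ⟨κ', hκ', e''⟩ := hW₁ l hl τ k5
        rw [e'', mul_mul_mul_comm]
        refine mul_pos (mul_pos hκ' hκ) ?_
        obtain ⟨l, rfl⟩ : ∃ i, l = i + 1 := ⟨l - 1, by omega⟩
        rw [Nat.add_sub_cancel] at k3 ⊢
        rcases k3.1.eq_or_lt with k6 | k6
        · rw [k1 l (by omega) k6.symm]
          exact mul_self_pos.2 (sub_ne_zero.2 (hw.ne l (by omega)))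
        · exact (mem_uIoo_iff_mul.1 (k2 l (by omega) k6 k5)).2
      · obtain ⟨κ', hκ', e''⟩ := hW₂ l hl τ k5
        rw [e'', mul_mul_mul_comm]
        refine mul_pos (mul_pos hκ' hκ) ?_
        rcases k3.2.eq_or_lt with k6 | k6
        · rw [k1 (l + 1) lL k6]
          exact mul_self_pos.2 (sub_ne_zero.2 (hw.ne l lL).symm)
        · exact (mem_uIoo_iff_mul.1 (k2 l lL k5 k6)).1
  choose! R hR hR' using hR
  have hβ : ∀ τ ∈ Icc (θ 0) (θ w.L), (e₂ * B).eval τ = 0 ↔ ∃ j ≤ w.L, Tn j ∧ τ = θ j :=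
    fun τ hτ => by rw [eval_mul, mul_eq_zero, or_iff_left (hB τ hτ).ne', re]
  have hdiv : ∀ l ∈ s, ∃ Q, N ^ 2 = W l * Q := fun l hl => (hW l hl).1.trans (pow_dvd_pow_of_dvd
    (dvd_iff_isRoot.2 ((rN _).2
      ⟨l, ((hs l).1 hl).1, fun k => ((hs l).1 hl).2.2.ne (hT l k), rfl⟩)) 2)
  choose! Q hQ using hdiv
  let r : ℕ → ℝ → ℝ → ℝ := fun l η τ => (R l).eval τ - η * (w.y l ^ 2 * n.eval τ * (Q l).eval τ *
    (4 * ((e₂ * B).eval τ ^ 2) ^ 3 + 6 * ((e₂ * B).eval τ ^ 2) ^ 2 * (η * N.eval τ ^ 2) +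
      4 * (e₂ * B).eval τ ^ 2 * (η * N.eval τ ^ 2) ^ 2 + (η * N.eval τ ^ 2) ^ 3))
  have ev1 : ∀ᶠ η in 𝓝 (0 : ℝ), ∀ l ∈ s,
      ∀ τ ∈ Icc (θ 0) (θ w.L) ∩ Icc (θ (l - 1)) (θ (l + 1)), 0 < r l η τ := by
    rw [eventually_all_finset]
    intro l hl
    refine (isCompact_Icc.inter_right isClosed_Icc).eventually_forall_of_forall_eventually
      (P := fun η τ => 0 < r l η τ) fun τ hτ => ?_
    have hc : Continuous fun z : ℝ × ℝ => r l z.1 z.2 := by simp only [r]; fun_prop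
    exact hc.continuousAt.eventually (lt_mem_nhds (by simpa [r] using hR' l hl τ hτ.1 hτ.2))
  have ev2 : ∀ᶠ η in 𝓝 (0 : ℝ), ∀ l ∈ (Finset.range w.L).filter fun l => ¬ Tn l ∧ ¬ Tn (l + 1),
      ∀ τ ∈ Icc (θ l) (θ (l + 1)), 0 < (e₂ * B).eval τ ^ 2 + η * N.eval τ ^ 2 := by
    rw [eventually_all_finset]
    intro l hl
    rw [Finset.mem_filter, Finset.mem_range] at hl
    refine isCompact_Icc.eventually_forall_of_forall_eventually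
      (P := fun η τ => 0 < (e₂ * B).eval τ ^ 2 + η * N.eval τ ^ 2) fun τ hτ => ?_
    have hc : Continuous fun z : ℝ × ℝ => (e₂ * B).eval z.2 ^ 2 + z.1 * N.eval z.2 ^ 2 := by
      fun_prop
    refine hc.continuousAt.eventually (lt_mem_nhds ?_)
    simp only [zero_mul, add_zero]
    refine even_two.pow_pos fun k => ?_
    obtain ⟨j, -, k1, rfl⟩ := (hβ τ (sub l hl.1 hτ)).1 k
    have k2 := hθ.le_iff_le.1 hτ.1
    have k3 := hθ.le_iff_le.1 hτ.2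
    rcases (by omega : j = l ∨ j = l + 1) with rfl | rfl
    · exact hl.2.1 k1
    · exact hl.2.2 k1
  obtain ⟨δ, hδ, hev⟩ := Metric.eventually_nhds_iff.1 (ev1.and ev2)
  have hδ' := Real.sqrt_pos.2 (half_pos hδ)
  refine ⟨e₂ * B, C √(δ / 2) * N, hβ, fun τ => by
    rw [eval_mul, eval_C, mul_eq_zero, or_iff_right hδ'.ne', rN], fun P hP b hb => ?_⟩
  obtain ⟨η, hη, hb'⟩ : ∃ η : ℝ, dist η 0 < δ ∧
      ∀ τ, b τ = (e₂ * B).eval τ ^ 2 + η * N.eval τ ^ 2 := by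
    refine ⟨-(δ / 2 * P), ?_, fun τ => ?_⟩
    · rw [Real.dist_eq, sub_zero, abs_neg, abs_mul, abs_of_pos (half_pos hδ)]
      nlinarith
    · rw [hb, eval_mul (p := C _), eval_C, mul_pow, Real.sq_sqrt (half_pos hδ).le]
      ring
  obtain ⟨c1, c2⟩ := hev hη
  have d0 : ∀ τ ∈ Icc (θ 0) (θ w.L), 0 < M τ + Nn τ * b τ ^ 2 := fun τ hτ => den τ _ fun k => by
    obtain ⟨j, hj, h1, rfl⟩ := (hM τ).1 k
    have h2 : ¬ Tn j := fun h => by linarith [hT j h]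
    rw [hb', (rN _).2 ⟨j, hj, h2, rfl⟩, zero_pow two_ne_zero, mul_zero, add_zero]
    exact pow_ne_zero 2 fun h => h2 (node ((hβ _ hτ).1 h))
  have d1 : ∀ l ∈ s, ∀ τ ∈ Icc (θ 0) (θ w.L), ∃ κ, 0 < κ ∧
      (W l).eval τ * r l η τ = κ * (M τ / (M τ + Nn τ * b τ ^ 2) - w.y l) := fun l hl τ hτ => by
    obtain ⟨κ, hκ, e⟩ := exists_factor (hM0 τ) (hN0 τ) (d0 τ hτ) ((hs l).1 hl).2.1
      ((hs l).1 hl).2.2
    refine ⟨κ, hκ, ?_⟩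
    have e1 := congrArg (eval τ) (hR l hl)
    have e2 := congrArg (eval τ) (hQ l hl)
    simp only [eval_mul, eval_C, eval_pow, eval_sub, hm, hn] at e1 e2
    rw [← e, hb']
    simp only [r, eval_mul, hn]
    linear_combination (-1 : ℝ) * e1 + η * w.y l ^ 2 * Nn τ ^ 2 *
      (4 * ((e₂.eval τ * B.eval τ) ^ 2) ^ 3 +
        6 * ((e₂.eval τ * B.eval τ) ^ 2) ^ 2 * (η * N.eval τ ^ 2) +
        4 * (e₂.eval τ * B.eval τ) ^ 2 * (η * N.eval τ ^ 2) ^ 2 + (η * N.eval τ ^ 2) ^ 3) * e2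
  refine ⟨d0, fun j hj h => ?_, fun l hl h1 h2 τ hτ => ?_, fun l hl τ h1 h2 h3 => ?_⟩
  · rcases tri j hj with k | k | k
    · exact v0 j hj k _
    · exact v1 j hj k _ fun k' => absurd k' h
    · obtain ⟨κ, hκ, e⟩ := d1 j k _ (nodeI j hj)
      rw [(hW j k).2, zero_mul] at e
      exact sub_eq_zero.1 ((mul_eq_zero.1 e.symm).resolve_left hκ.ne')
  · rw [hb']
    exact (c2 l (Finset.mem_filter.2 ⟨Finset.mem_range.2 hl, h1, h2⟩) τ hτ).ne'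
  · have k0 : τ ≤ θ (l + 1) := h2.elim le_of_lt fun h => h.1.le
    have hτ := sub l hl ⟨h1.le, k0⟩
    have k1 : 0 < M τ ∧ 0 < Nn τ := by
      rcases h2 with h2 | ⟨rfl, h2⟩
      · have := pos τ fun ⟨j, _, _, k⟩ => ne_node hθ h1 h2 j k
        exact ⟨this.1, this.2.1⟩
      · exact ⟨(hM0 _).lt_of_ne' fun k => by linarith [node ((hM _).1 k), hT _ h2],
          (hN0 _).lt_of_ne' fun k => (node ((hN _).1 k)).2 h2⟩
    have k2 : 0 < Nn τ * b τ ^ 2 := mul_pos k1.2 (even_two.pow_pos h3)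
    have k3 : 0 < M τ / (M τ + Nn τ * b τ ^ 2) := div_pos k1.1 (d0 τ hτ)
    have k4 : M τ / (M τ + Nn τ * b τ ^ 2) < 1 := (div_lt_one (d0 τ hτ)).2 (by linarith)
    have y0 := hw.mem l hl.le
    have y1 := hw.mem (l + 1) hl
    have y2 := hw.ne l hl
    have fin : ∀ {κ κ' ρ u v : ℝ}, 0 < κ → 0 < κ' → 0 < ρ → u ≠ 0 → κ' * u * ρ = κ * v →
        0 < u * v := fun {κ κ' ρ u v} a1 a2 a3 a4 a5 => by
      refine (mul_pos_iff_of_pos_left a1).1 ?_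
      rw [mul_left_comm, ← a5, show u * (κ' * u * ρ) = u * u * (κ' * ρ) by ring]
      exact mul_pos (mul_self_pos.2 a4) (mul_pos a2 a3)
    rw [mem_uIoo_iff_mul]
    constructor
    · rcases tri l hl.le with k | k | k
      · rw [k] at y2 ⊢
        exact mul_pos (sub_pos.2 (y1.1.lt_of_ne y2)) (sub_pos.2 k3)
      · rw [k] at y2 ⊢
        exact mul_pos_of_neg_of_neg (sub_neg.2 (y1.2.lt_of_ne y2.symm)) (sub_neg.2 k4)
      · obtain ⟨κ, hκ, e⟩ := d1 l k τ hτ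
        obtain ⟨κ', hκ', e'⟩ := hW₂ l k τ h1
        exact fin hκ hκ' (c1 l k τ ⟨hτ, (hθ.monotone (Nat.sub_le l 1)).trans h1.le, k0⟩)
          (sub_ne_zero.2 y2.symm) (e' ▸ e)
    · rcases tri (l + 1) hl with k | k | k
      · rw [k] at y2 ⊢
        exact mul_pos (sub_pos.2 (y0.1.lt_of_ne' y2)) (sub_pos.2 k3)
      · rw [k] at y2 ⊢
        exact mul_pos_of_neg_of_neg (sub_neg.2 (y0.2.lt_of_ne y2)) (sub_neg.2 k4)
      · obtain ⟨κ, hκ, e⟩ := d1 (l + 1) k τ hτ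
        obtain ⟨κ', hκ', e'⟩ := hW₁ (l + 1) k τ
          (h2.resolve_right fun h => ((hs _).1 k).2.2.ne (hT _ h.2))
        exact fin hκ hκ' (c1 (l + 1) k τ ⟨hτ, h1.le, k0.trans (hθ.monotone (Nat.le_succ _))⟩)
          (sub_ne_zero.2 y2) (e' ▸ e)

/-- The absolute value of `dir` at `A + c v` when `v² = π`. -/
noncomputable def vl (A π c : ℝ) : ℝ := A ^ 2 / (A ^ 2 + |π| * c ^ 2)

theorem exists_oneDim (w : Walk) (hw : w.Valid) {θ : ℕ → ℝ} (hθ : StrictMono θ)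
    (h0 : w.y 0 = 0 ∨ w.y 0 = 1) (hL : w.y w.L = 0 ∨ w.y w.L = 1) (Tn : ℕ → Prop)
    (hT : ∀ j, Tn j → w.Kept j ∧ w.y j = 1) (π₁ π₂ : ℝ[X]) (π : ℝ → ℝ)
    (hπ : ∀ τ, π τ = π₁.eval τ * π₂.eval τ)
    (h₁ : ∀ τ, π₁.eval τ = 0 → ∃ j ≤ w.L, τ = θ j ∧ w.y j = 0 ∧ ¬ w.Kept j)
    (h₂ : ∀ τ, π₂.eval τ = 0 → ∃ j ≤ w.L, τ = θ j ∧ w.y j = 1 ∧ ¬ w.Kept j) :
    ∃ F A e β E : ℝ[X], (∀ τ, 0 ≤ A.eval τ) ∧
      (∀ τ ∈ Icc (θ 0) (θ w.L), F.eval τ ≠ 0 → ∃ l < w.L, θ l < τ ∧ τ ≤ θ (l + 1) ∧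
        0 < w.ε l * F.eval τ ∧ π τ ≠ 0 ∧ ∀ P : ℝ, |P| ≤ 1 →
          (e.eval τ * (β.eval τ ^ 2 - E.eval τ ^ 2 * P) ≠ 0 → w.ε l * vl (A.eval τ) (π τ)
            (e.eval τ * (β.eval τ ^ 2 - E.eval τ ^ 2 * P)) ∈ w.step l) ∧
          (e.eval τ * (β.eval τ ^ 2 - E.eval τ ^ 2 * P) = 0 → A.eval τ ≠ 0 ∧
            ((e.eval τ = 0 ∧ w.ε l ∈ w.step l ∧ w.Kept (l + 1) ∧ w.y (l + 1) = 1 ∧ ¬ Tn (l + 1)) ∨
            (e.eval τ ≠ 0 ∧ ∃ j, Tn j ∧ w.ε j = w.ε l ∧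
              (β.eval τ = 0 → τ = θ j ∧ E.eval τ ≠ 0))))) ∧
      (∀ l < w.L, ∀ c ∈ w.step l, |c| < 1 → ∃ τ, θ l < τ ∧ τ ≤ θ (l + 1) ∧ τ < θ w.L ∧
        0 < w.ε l * F.eval τ ∧ π τ ≠ 0 ∧ (∀ j, Tn j → τ ≠ θ j) ∧ e.eval τ * β.eval τ ^ 2 ≠ 0 ∧
        c = w.ε l * vl (A.eval τ) (π τ) (e.eval τ * β.eval τ ^ 2)) ∧
      (∀ l, l + 1 < w.L → w.keep l → w.y (l + 1) = 1 → 0 < w.ε l * F.eval (θ (l + 1)) ∧
        A.eval (θ (l + 1)) ≠ 0 ∧ e.eval (θ (l + 1)) * β.eval (θ (l + 1)) ^ 2 = 0) ∧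
      ∀ l, Tn (l + 1) → ∃ τ, θ l < τ ∧ τ < θ (l + 1) ∧ 0 < w.ε l * F.eval τ ∧ π τ ≠ 0 ∧
        A.eval τ ≠ 0 ∧ e.eval τ ≠ 0 ∧ β.eval τ ≠ 0 ∧
        ∃ P ∈ Icc (0 : ℝ) (1 / 4), β.eval τ ^ 2 - E.eval τ ^ 2 * P = 0 := by
  obtain ⟨a₀, ra⟩ := exists_root_poly θ w.L fun j => w.y j = 0
  obtain ⟨e, re⟩ := exists_root_poly θ w.L fun j => w.y j = 1 ∧ ¬ Tn j
  set M : ℝ → ℝ := fun τ => |π₁.eval τ| ^ 3 * a₀.eval τ ^ 4 with hMd
  set Nn : ℝ → ℝ := fun τ => |π₂.eval τ| * e.eval τ ^ 2 with hNd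
  have hM : ∀ τ, M τ = 0 ↔ ∃ j ≤ w.L, w.y j = 0 ∧ τ = θ j := fun τ => by
    simp only [hMd, mul_eq_zero, pow_eq_zero_iff three_ne_zero, pow_eq_zero_iff four_ne_zero,
      abs_eq_zero, ra]
    exact or_iff_right_of_imp fun h => (h₁ τ h).imp fun j k => ⟨k.1, k.2.2.1, k.2.1⟩
  obtain ⟨β, E, hβ, hE, H⟩ := exists_perturbed w hw hθ h0 hL Tn (fun j h => (hT j h).2) M Nn
    (π₁ ^ 6 * a₀ ^ 8) (π₂ ^ 2 * e ^ 4) (fun τ => by positivity) (fun τ => by positivity)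
    (fun τ => by
      simp only [hMd, eval_mul, eval_pow, mul_pow, ← pow_mul]
      rw [Even.pow_abs ⟨3, rfl⟩])
    (fun τ => by simp only [hNd, eval_mul, eval_pow, mul_pow, ← pow_mul, sq_abs]) hM
    fun τ => by
      simp only [hNd, mul_eq_zero, pow_eq_zero_iff two_ne_zero, abs_eq_zero, re]
      exact or_iff_right_of_imp fun h => (h₂ τ h).imp fun j k =>
        ⟨k.1, ⟨k.2.2.1, fun k' => k.2.2.2 (hT j k').1⟩, k.2.1⟩
  obtain ⟨F, f1, f0, f2, f3⟩ := exists_sign_at hθ w.ε hw.sign (fun l => l + 1 < w.L ∧ w.keep l) w.L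
    fun l _ h => hw.keep l h.1 h.2
  have node : ∀ {p : ℕ → Prop} {i : ℕ}, (∃ j ≤ w.L, p j ∧ θ i = θ j) → p i :=
    fun ⟨j, _, h, e⟩ => hθ.injective e ▸ h
  have sub : ∀ l < w.L, Icc (θ l) (θ (l + 1)) ⊆ Icc (θ 0) (θ w.L) := fun l hl =>
    Icc_subset_Icc (hθ.monotone (Nat.zero_le l)) (hθ.monotone hl)
  have seg : ∀ {l j : ℕ} {τ : ℝ}, θ l < τ → τ ≤ θ (l + 1) → τ = θ j → j = l + 1 := by
    rintro l j _ k1 k2 rfl
    have := hθ.lt_iff_lt.1 k1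
    have := hθ.le_iff_le.1 k2
    omega
  have hπ0 : ∀ {l : ℕ} {τ : ℝ}, θ l < τ → τ ≤ θ (l + 1) → (τ = θ (l + 1) → w.Kept (l + 1)) →
      π τ ≠ 0 := fun {l τ} k1 k2 k3 h => by
    rw [hπ] at h
    obtain ⟨j, -, k4, k5⟩ : ∃ j ≤ w.L, τ = θ j ∧ ¬ w.Kept j :=
      (mul_eq_zero.1 h).elim (fun h => (h₁ τ h).imp fun j k => ⟨k.1, k.2.1, k.2.2.2⟩)
        fun h => (h₂ τ h).imp fun j k => ⟨k.1, k.2.1, k.2.2.2⟩
    obtain rfl := seg k1 k2 k4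
    exact k5 (k3 k4)
  have hv : ∀ τ b, π τ ≠ 0 →
      vl (((π₁ * a₀) ^ 2).eval τ) (π τ) (e.eval τ * b) = M τ / (M τ + Nn τ * b ^ 2) := by
    intro τ b h
    rw [hπ] at h
    have k := abs_ne_zero.2 (left_ne_zero_of_mul h)
    have e1 : ((π₁ * a₀) ^ 2).eval τ ^ 2 = |π₁.eval τ| * M τ := by
      simp only [hMd, eval_mul, eval_pow, mul_pow, ← pow_mul]
      rw [← Even.pow_abs (a := π₁.eval τ) ⟨2, rfl⟩]
      ring
    rw [vl, e1, hπ, abs_mul, ← mul_div_mul_left (M τ) _ k]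
    simp only [hNd]
    ring
  have hA : ∀ τ, π τ ≠ 0 → (¬ ∃ j ≤ w.L, w.y j = 0 ∧ τ = θ j) → ((π₁ * a₀) ^ 2).eval τ ≠ 0 :=
    fun τ h h' => by
      rw [hπ] at h
      rw [eval_pow, eval_mul]
      exact pow_ne_zero 2 (mul_ne_zero (left_ne_zero_of_mul h) (mt (ra τ).1 h'))
  refine ⟨F, (π₁ * a₀) ^ 2, e, β, E, fun τ => by rw [eval_pow]; positivity, fun τ hτ hF => ?_,
    fun l hl c hc hc1 => ?_, fun l hl hk hy => ?_, fun l hl => ?_⟩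
  · obtain ⟨l, hl, k1, k2⟩ := exists_seg (hτ.1.lt_of_ne fun h => hF (h ▸ f0)) hτ.2
    have k3 : τ = θ (l + 1) → l + 1 < w.L ∧ w.keep l := fun h => by
      by_contra k
      exact hF (h ▸ f2 l hl k)
    have k4 := hπ0 k1 k2 fun h => ⟨l, rfl, k3 h⟩
    refine ⟨l, hl, k1, k2, ?_, k4, fun P hP => ?_⟩
    · rcases k2.eq_or_lt with h | h
      · exact h ▸ f3 l hl (k3 h)
      · exact f1 l hl.le τ k1 (Or.inl h)
    obtain ⟨-, c2, c3, c4⟩ := H P hP _ fun _ => rfl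
    refine ⟨fun h => ?_, fun h => ⟨hA τ k4 ?_, ?_⟩⟩
    · rw [hv _ _ k4]
      by_cases k5 : τ < θ (l + 1) ∨ (τ = θ (l + 1) ∧ Tn (l + 1))
      · exact Or.inl ⟨_, c4 l hl τ k1 k5 (right_ne_zero_of_mul h), rfl⟩
      · obtain ⟨k5, k6⟩ := not_or.1 k5
        obtain rfl := k2.antisymm (not_lt.1 k5)
        rw [c2 (l + 1) hl fun k => k6 ⟨rfl, k⟩]
        exact Or.inr ⟨(k3 rfl).1, (k3 rfl).2, rfl⟩
    · rintro ⟨j, hj, k5, rfl⟩
      have k6 : ¬ Tn j := fun k => by linarith [(hT j k).2]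
      rw [(hE _).2 ⟨j, hj, k6, rfl⟩, zero_pow two_ne_zero, zero_mul, sub_zero] at h
      rcases mul_eq_zero.1 h with h | h
      · linarith [(node ((re _).1 h)).1]
      · exact k6 (node ((hβ _ hτ).1 (pow_eq_zero_iff two_ne_zero |>.1 h)))
    · by_cases k5 : e.eval τ = 0
      · obtain ⟨j, -, k6, k7⟩ := (re τ).1 k5
        obtain rfl := seg k1 k2 k7
        exact Or.inl ⟨k5, Or.inr ⟨(k3 k7).1, (k3 k7).2, by rw [k6.1, mul_one]⟩, ⟨l, rfl, k3 k7⟩,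
          k6.1, k6.2⟩
      · have k6 := (mul_eq_zero.1 h).resolve_left k5
        have k7 : β.eval τ = 0 → τ = θ (l + 1) ∧ Tn (l + 1) := fun k => by
          obtain ⟨j, -, k8, k9⟩ := (hβ τ hτ).1 k
          obtain rfl := seg k1 k2 k9
          exact ⟨k9, k8⟩
        refine Or.inr ⟨k5, ?_⟩
        by_cases k8 : Tn (l + 1)
        · obtain ⟨i, hi, k9⟩ := (hT _ k8).1
          obtain rfl : l = i := by omega
          refine ⟨l + 1, k8, hw.keep l k9.1 k9.2, fun k => ⟨(k7 k).1, fun k' => ?_⟩⟩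
          rw [(k7 k).1] at k'
          exact node ((hE _).1 k') k8
        · exact ⟨l, by_contra fun k => c3 l hl k k8 τ ⟨k1.le, k2⟩ k6, rfl,
            fun k => absurd (k7 k).2 k8⟩
  · obtain ⟨c1, c2, -, -⟩ := H 0 (by simp) (fun τ => β.eval τ ^ 2) fun _ => by simp
    rcases hc with ⟨t, ht, rfl⟩ | ⟨k1, k2, rfl⟩
    · have hg : ContinuousOn (fun τ => M τ / (M τ + Nn τ * (β.eval τ ^ 2) ^ 2))
          (Icc (θ l) (θ (l + 1))) :=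
        ContinuousOn.div (by simp only [hMd]; fun_prop) (by simp only [hMd, hNd]; fun_prop)
          fun τ hτ => (c1 τ (sub l hl hτ)).ne'
      have ends : ∀ j ≤ w.L, M (θ j) / (M (θ j) + Nn (θ j) * (β.eval (θ j) ^ 2) ^ 2) = w.y j := by
        intro j hj
        by_cases k : Tn j
        · have k1 : M (θ j) ≠ 0 := fun h => by linarith [node ((hM _).1 h), (hT j k).2]
          rw [(hβ _ ⟨hθ.monotone (Nat.zero_le j), hθ.monotone hj⟩).2 ⟨j, hj, k, rfl⟩, (hT j k).2]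
          simp [k1]
        · exact c2 j hj k
      obtain ⟨τ, hτ, rfl⟩ : t ∈ (fun τ => M τ / (M τ + Nn τ * (β.eval τ ^ 2) ^ 2)) ''
          Ioo (θ l) (θ (l + 1)) := by
        rw [← ends l hl.le, ← ends (l + 1) hl] at ht
        rcases le_total (w.y l) (w.y (l + 1)) with k | k <;> rw [← ends l hl.le,
          ← ends (l + 1) hl] at k
        · exact intermediate_value_Ioo (hθ (lt_add_one l)).le hg (uIoo_of_le k ▸ ht)
        · exact intermediate_value_Ioo' (hθ (lt_add_one l)).le hg (uIoo_of_ge k ▸ ht)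
      have k1 := ne_node hθ hτ.1 hτ.2
      have k2 := hπ0 hτ.1 hτ.2.le fun h => absurd h hτ.2.ne
      exact ⟨τ, hτ.1, hτ.2.le, hτ.2.trans_le (hθ.monotone hl), f1 l hl.le τ hτ.1 (Or.inl hτ.2), k2,
        fun j _ => k1 j, mul_ne_zero (fun h => ((re τ).1 h).elim fun j k => k1 j k.2.2)
          (pow_ne_zero 2 fun h => ((hβ τ (sub l hl (Ioo_subset_Icc_self hτ))).1 h).elim
            fun j k => k1 j k.2.2), by rw [hv _ _ k2]⟩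
    · have k3 : w.y (l + 1) ≠ 1 := fun h => by
        rcases hw.sign l with k | k <;> simp [k, h] at hc1
      have k4 : ¬ Tn (l + 1) := fun h => k3 (hT _ h).2
      have k5 := hπ0 (hθ (lt_add_one l)) le_rfl fun _ => ⟨l, rfl, k1, k2⟩
      exact ⟨_, hθ (lt_add_one l), le_rfl, hθ k1, f3 l hl ⟨k1, k2⟩, k5,
        fun j h e => k4 (hθ.injective e ▸ h), mul_ne_zero (fun h => k3 (node ((re _).1 h)).1)
          (pow_ne_zero 2 fun h => k4 (node ((hβ _ (sub l hl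
            (right_mem_Icc.2 (hθ (lt_add_one l)).le))).1 h))),
        by rw [hv _ _ k5, c2 (l + 1) hl k4]⟩
  · refine ⟨f3 l (by omega) ⟨hl, hk⟩, hA _ (hπ0 (hθ (lt_add_one l)) le_rfl fun _ =>
      ⟨l, rfl, hl, hk⟩) fun h => by linarith [node h], ?_⟩
    by_cases k : Tn (l + 1)
    · rw [(hβ _ ⟨hθ.monotone (Nat.zero_le _), hθ.monotone hl.le⟩).2 ⟨_, hl.le, k, rfl⟩]
      simp
    · rw [(re _).2 ⟨_, hl.le, ⟨hy, k⟩, rfl⟩, zero_mul]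
  · obtain ⟨i, hi, k1, -⟩ := (hT _ hl).1
    obtain rfl : l = i := by omega
    have k2 : β.eval (θ (l + 1)) = 0 :=
      (hβ _ ⟨hθ.monotone (Nat.zero_le _), hθ.monotone k1.le⟩).2 ⟨_, k1.le, hl, rfl⟩
    have k3 : E.eval (θ (l + 1)) ≠ 0 := fun h => node ((hE _).1 h) hl
    have k4 : ∀ᶠ τ in 𝓝 (θ (l + 1)), β.eval τ ^ 2 < E.eval τ ^ 2 / 4 :=
      ContinuousAt.eventually_lt (by fun_prop) (by fun_prop)
        (by rw [k2, zero_pow two_ne_zero]; positivity)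
    obtain ⟨τ, k5, hτ⟩ := ((k4.filter_mono nhdsWithin_le_nhds).and
      (Ioo_mem_nhdsLT (hθ (lt_add_one l)))).exists
    have k6 := ne_node hθ hτ.1 hτ.2
    have k7 := hπ0 hτ.1 hτ.2.le fun h => absurd h hτ.2.ne
    have k8 : 0 < E.eval τ ^ 2 := by nlinarith [sq_nonneg (β.eval τ)]
    refine ⟨τ, hτ.1, hτ.2, f1 l (by omega) τ hτ.1 (Or.inl hτ.2), k7,
      hA τ k7 fun ⟨j, _, _, k⟩ => k6 j k, fun h => ((re τ).1 h).elim fun j k => k6 j k.2.2,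
      fun h => ((hβ τ (sub l (by omega) (Ioo_subset_Icc_self hτ))).1 h).elim
        fun j k => k6 j k.2.2, β.eval τ ^ 2 / E.eval τ ^ 2,
      ⟨by positivity, by rw [div_le_iff₀ k8]; linarith⟩, ?_⟩
    rw [mul_div_cancel₀ _ k8.ne', sub_self]

end Pool.Agent.MP_4e44b6_al.H30
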