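import Pool.Agent.MP_4e44b6_al.H30.RG
import Pool.Agent.MP_4e44b6_al.H30.OneDim

/-! Every admissible subset of `M₂(ℝ)` is the image of a semihomogeneous polynomial. -/

namespace Pool.Agent.MP_4e44b6_al.H30

open Set Matrix Polynomial Pointwise

theorem touch {v : M2} (hv : v.trace = 0) (u : M2) (β κ : ℝ) {W : M2}
    (hW : W = (β • (1 : M2) + κ • (v * u - u * v)) * ((β • (1 : M2) + κ • (v * u - u * v)) * v)) :
    W.trace = 0 ∧ -W.det = (β ^ 2 - κ ^ 2 * -(v * u - u * v).det) ^ 2 * -v.det ∧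
      (v.det ≠ 0 → W = 0 → β = 0) := by
  have h1 : (κ • (v * u - u * v)).trace = 0 := by rw [trace_smul, trace_comm, smul_zero]
  have h2 : κ • (v * u - u * v) * v = -(v * κ • (v * u - u * v)) := by
    rw [smul_mul_assoc, comm_anti hv, mul_smul_comm, smul_neg]
  obtain ⟨h3, h4⟩ := twist hv h2 β
  refine ⟨hW ▸ (twist h3 h4 β).1, ?_, fun h5 h6 => ?_⟩
  · rw [hW, det_mul, det_mul, det_add_traceless h1, det_smul, Fintype.card_fin]
    ring
  · have h7 : (β • (1 : M2) + κ • (v * u - u * v)).trace = 2 * β := by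
      rw [trace_add, h1, trace_smul, trace_one]
      simp [mul_comm]
    generalize β • (1 : M2) + κ • (v * u - u * v) = Z at hW h7
    have h8 : Z * Z = 0 := by
      rw [← mul_nonsing_inv_cancel_right v (Z * Z) (isUnit_iff_ne_zero.2 h5), Matrix.mul_assoc Z Z,
        ← hW, h6, zero_mul]
    have h9 : Z.det = 0 := by simpa using congrArg Matrix.det h8
    have := congrArg Matrix.trace h8
    rw [mul_self_eq, h9, zero_smul, sub_zero, trace_smul, h7, trace_zero] at this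
    simpa using this

theorem val_mat {W M : M2} (hW : W.trace = 0) {π b l A e : ℝ} (hd : -W.det = b ^ 2 * π)
    (hM : M = l • (A • (1 : M2) + e • W)) :
    M.trace = 2 * l * A ∧ disc M = (2 * l * (e * b)) ^ 2 * π ∧
      ∀ ε : ℝ, ε = 1 ∨ ε = -1 → 0 < ε * l → 0 ≤ A → dir M = ε * vl A π (e * b) := by
  have h1 : M.trace = 2 * l * A := by
    rw [hM, trace_smul, trace_add, trace_smul, trace_smul, hW, trace_one]
    simp only [smul_eq_mul, Fintype.card_fin]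
    push_cast
    ring
  have h2 : disc M = (2 * l * (e * b)) ^ 2 * π := by
    rw [disc, h1, hM, det_smul, det_add_traceless (by rw [trace_smul, hW, smul_zero]), det_smul,
      Fintype.card_fin]
    linear_combination (4 * l ^ 2 * e ^ 2) * hd
  refine ⟨h1, h2, fun ε hε hl hA => ?_⟩
  have h3 : |l| = ε * l := by
    rw [← abs_of_pos hl, abs_mul]
    rcases hε with rfl | rfl <;> simp
  have h4 : 4 * l ^ 2 ≠ 0 := fun h => by
    have : l = 0 := by simpa using h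
    simp [this] at hl
  rw [dir, h1, h2, vl, abs_mul, abs_mul, abs_mul, h3, abs_of_nonneg hA, abs_two,
    abs_of_nonneg (sq_nonneg _), mul_div_assoc', ← mul_div_mul_left (ε * A ^ 2) _ h4]
  congr 1 <;> ring

theorem NS.add_smul {W : M2} (hW : W.trace = 0) (h0 : W ≠ 0) {l e : ℝ} (hl : l ≠ 0) (he : e ≠ 0)
    (A : ℝ) : NS (l • (A • (1 : M2) + e • W)) := by
  simpa [NS, hl, he] using NS.of_trace hW h0

theorem exists_core {T : Set M2} (h0 : 0 ∈ T) (hI : Inv T) (hp : FinInt (side 1 T))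
    (hm : FinInt (side (-1) T)) (harc : (arc T).OrdConnected ∨ (Icc (-1) 1 \ arc T).OrdConnected)
    (hfl : ∀ M ∈ T, disc M = 0 → M.trace ≠ 0 → dir M ∈ closure (side 1 T ∪ side (-1) T)) :
    ∃ Φ : M2 → M2 → M2 → M2 → M2, (RG fun y : Fin 6 → M2 => Φ (y 0) (y 1) (y 2) (y 3)) ∧
      (∀ x y z u, Φ x y z u ∈ T) ∧ ∀ T', Inv T' → (∀ x y z u, Φ x y z u ∈ T') →
        ∀ M ∈ T, M.trace ≠ 0 ∨ disc M ≠ 0 → M ∈ T' := by
  classical
  let S : ℝ → Set ℝ := fun s => side s T ∪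
    {c | c ∈ closure (side s T) ∧ ∃ M ∈ T, disc M = 0 ∧ M.trace ≠ 0 ∧ dir M = c}
  have hS : ∀ s, FinInt (side s T) → FU (S s) ∧ (S s).Nonempty := by
    rintro s ⟨F, ⟨I, hF0⟩, hF, e⟩
    refine ⟨FU.union_closure ⟨F, F.finite_toSet, hF, by rw [e, sUnion_eq_biUnion]; rfl⟩
      fun c hc => hc.1, Nonempty.inl ?_⟩
    obtain ⟨c, hc⟩ := (hF I hF0).2.nonempty
    exact ⟨c, e ▸ mem_biUnion hF0 hc⟩
  have hS0 : ∀ s, S s ⊆ closure (side s T) := fun s =>
    union_subset subset_closure fun c hc => hc.1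
  have hS1 : ∀ s, S s ⊆ Icc (-1) 1 := fun s => (hS0 s).trans
    (closure_minimal (fun c hc => abs_le.1 (side_subset hc).le) isClosed_Icc)
  have hS2 : ∀ s, closure ((fun c => |c|) '' S s) = closure ((fun c => |c|) '' side s T) :=
    fun s => subset_antisymm (closure_minimal ((image_mono (hS0 s)).trans
      (image_closure_subset_closure_image continuous_abs)) isClosed_closure)
      (closure_mono (image_mono subset_union_left))
  have hS3 : ∀ s, ∀ c ∈ S s, |c| < 1 → c ∈ side s T := by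
    rintro s c (h | ⟨-, M, -, h1, h2, rfl⟩) hc
    · exact h
    · rcases (dir_of_disc h1 h2).1 with h | h <;> simp [h] at hc
  have ha : arc T = closure ((fun c => |c|) '' S 1) ∪ -closure ((fun c => |c|) '' S (-1)) := by
    rw [hS2, hS2, arc, closure_union, neg_closure, ← image_neg_eq_neg, image_image]
  obtain ⟨σ, hσ, h3⟩ : ∃ σ : ℝ, (σ = 1 ∨ σ = -1) ∧ Three (S σ) (S (-σ)) := by
    rcases exists_three (hS 1 hp).1 (hS _ hm).1 (hS1 _) (hS1 _) (hS 1 hp).2 (hS _ hm).2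
      (ha ▸ harc) with h | h
    · exact ⟨1, Or.inl rfl, h⟩
    · exact ⟨-1, Or.inr rfl, by rwa [neg_neg]⟩
  obtain ⟨th, v, a, b, ha1, hb1, rth, rv, hv, hΘ⟩ := exists_seed hσ
  obtain ⟨w, θ, i₁, i₂, hw, hθ, e0, e1, e2, e3, hy, hk, c1, c2⟩ := h3.chain ha1 hb1
  have hσ2 : σ * σ = 1 := by rcases hσ with rfl | rfl <;> norm_num
  have sg : ∀ l < w.L, ∃ s, (s = σ ∨ s = -σ) ∧ w.step l ⊆ S s ∧
      ∀ τ, θ l < τ → τ ≤ θ (l + 1) → σ * (τ * (τ + 1)) ≠ 0 → 0 < s * (σ * (τ * (τ + 1))) := by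
    intro l hl
    by_cases h : l < i₁ ∨ i₂ ≤ l
    · refine ⟨σ, Or.inl rfl, fun c hc => (c1 c).2 ⟨l, hl, h, hc⟩, fun τ k1 k2 k3 => ?_⟩
      rw [← mul_assoc, hσ2, one_mul]
      rcases h with h | h
      · have : τ ≤ -1 := e1 ▸ k2.trans (hθ.monotone h)
        exact (mul_nonneg_of_nonpos_of_nonpos (by linarith) (by linarith)).lt_of_ne'
          (right_ne_zero_of_mul k3)
      · have : 0 < τ := e2 ▸ (hθ.monotone h).trans_lt k1
        positivity
    · refine ⟨-σ, Or.inr rfl, fun c hc => (c2 c).2 ⟨l, hl, by omega, hc⟩, fun τ k1 k2 k3 => ?_⟩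
      rw [← mul_assoc, neg_mul, hσ2, neg_one_mul, neg_pos]
      have : -1 < τ := e1 ▸ (hθ.monotone (by omega)).trans_lt k1
      have : τ ≤ 0 := e2 ▸ k2.trans (hθ.monotone (by omega))
      exact (mul_nonpos_of_nonpos_of_nonneg (by linarith) (by linarith)).lt_of_ne
        (right_ne_zero_of_mul k3)
  have sg' : ∀ s, s = 1 ∨ s = -1 → ∀ c ∈ S s, ∃ l < w.L, c ∈ w.step l ∧
      ∀ τ, θ l < τ → τ ≤ θ (l + 1) → σ * (τ * (τ + 1)) ≠ 0 → 0 < s * (σ * (τ * (τ + 1))) := by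
    intro s hs c hc
    have : s = σ ∨ s = -σ := by rcases hσ with rfl | rfl <;> rcases hs with rfl | rfl <;> simp
    rcases this with rfl | rfl
    · obtain ⟨l, hl, h, k⟩ := (c1 c).1 hc
      refine ⟨l, hl, k, fun τ k1 k2 k3 => ?_⟩
      rw [← mul_assoc, hσ2, one_mul]
      rcases h with h | h
      · have : τ ≤ -1 := e1 ▸ k2.trans (hθ.monotone h)
        exact (mul_nonneg_of_nonpos_of_nonpos (by linarith) (by linarith)).lt_of_ne'
          (right_ne_zero_of_mul k3)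
      · have : 0 < τ := e2 ▸ (hθ.monotone h).trans_lt k1
        positivity
    · obtain ⟨l, hl, h, k⟩ := (c2 c).1 hc
      refine ⟨l, hl, k, fun τ k1 k2 k3 => ?_⟩
      rw [← mul_assoc, neg_mul, hσ2, neg_one_mul, neg_pos]
      have : -1 < τ := e1 ▸ (hθ.monotone h.1).trans_lt k1
      have : τ ≤ 0 := e2 ▸ k2.trans (hθ.monotone h.2)
      exact (mul_nonpos_of_nonpos_of_nonneg (by linarith) (by linarith)).lt_of_ne
        (right_ne_zero_of_mul k3)
  let tJ : ℝ → Prop := fun ε => ∃ M ∈ T, NS M ∧ disc M = 0 ∧ 0 < ε * M.trace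
  let tI : ℝ → Prop := fun ε => ∃ M ∈ T, ¬ NS M ∧ disc M = 0 ∧ 0 < ε * M.trace
  let Tn : ℕ → Prop := fun j => w.Kept j ∧ w.y j = 1 ∧ tJ (w.ε j)
  have n₁ : i₁ ≤ w.L ∧ ¬ w.Kept i₁ := ⟨hθ.le_iff_le.1 (by linarith),
    fun ⟨l, k1, _, k2⟩ => hk l (Or.inl k1.symm) k2⟩
  have n₂ : i₂ ≤ w.L ∧ ¬ w.Kept i₂ := ⟨hθ.le_iff_le.1 (by linarith),
    fun ⟨l, k1, _, k2⟩ => hk l (Or.inr k1.symm) k2⟩
  have hσ0 : σ ≠ 0 := fun h => by simp [h] at hσ2
  obtain ⟨F, A, e, β, E, hA, O2, O3a, O3b, O3c⟩ := exists_oneDim w hw hθ (hy 0 (by simp))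
    (hy _ (by simp)) Tn (fun j h => ⟨h.1, h.2.1⟩)
    ((if w.y i₁ = 0 then X + 1 else 1) * if w.y i₂ = 0 then X else 1)
    (C σ * ((if w.y i₁ = 0 then 1 else X + 1) * if w.y i₂ = 0 then 1 else X))
    (fun τ => σ * (τ * (τ + 1))) (fun τ => by
      split_ifs <;> simp only [eval_mul, eval_add, eval_X, eval_one, eval_C] <;> ring)
    (fun τ h => by
      rw [eval_mul, mul_eq_zero] at h
      rcases h with h | h <;> split_ifs at h with k
      · exact ⟨i₁, n₁.1, by simp at h; linarith, k, n₁.2⟩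
      · simp at h
      · exact ⟨i₂, n₂.1, by simp at h; linarith, k, n₂.2⟩
      · simp at h)
    fun τ h => by
      rw [eval_mul, eval_C, mul_eq_zero, or_iff_right hσ0, eval_mul, mul_eq_zero] at h
      rcases h with h | h <;> split_ifs at h with k
      · simp at h
      · exact ⟨i₁, n₁.1, by simp at h; linarith, (hy i₁ (by simp)).resolve_left k, n₁.2⟩
      · simp at h
      · exact ⟨i₂, n₂.1, by simp at h; linarith, (hy i₂ (by simp)).resolve_left k, n₂.2⟩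
  obtain ⟨E₃, hE₃⟩ := exists_root_poly θ w.L fun j => Tn j ∧ ¬ tI (w.ε j)
  let P₀ : M2 → M2 → ℝ := fun v u => -(v * u - u * v).det
  let W : ℝ → M2 → M2 → M2 := fun τ v u =>
    (β.eval τ • (1 : M2) + (E.eval τ * (1 + P₀ v u ^ 2)⁻¹) • (v * u - u * v)) *
      ((β.eval τ • (1 : M2) + (E.eval τ * (1 + P₀ v u ^ 2)⁻¹) • (v * u - u * v)) * v)
  let Ψ : ℝ → M2 → M2 → M2 := fun τ v u => (F.eval τ * (P₀ v u ^ 2 + E₃.eval τ ^ 2)) •
    (A.eval τ • (1 : M2) + e.eval τ • W τ v u)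
  have hW : ∀ x y z u, (W (th x y z) (v x y z) u).trace = 0 ∧
      -(W (th x y z) (v x y z) u).det = (β.eval (th x y z) ^ 2 - E.eval (th x y z) ^ 2 *
        (((1 + P₀ (v x y z) u ^ 2)⁻¹) ^ 2 * P₀ (v x y z) u)) ^ 2 *
          (σ * (th x y z * (th x y z + 1))) ∧
      (σ * (th x y z * (th x y z + 1)) ≠ 0 → W (th x y z) (v x y z) u = 0 →
        β.eval (th x y z) = 0) := fun x y z u => by
    obtain ⟨k1, k2, k3⟩ := touch (hv x y z).1 u _ _ (W := W (th x y z) (v x y z) u) rfl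
    rw [← (hv x y z).2.1]
    exact ⟨k1, by rw [k2]; ring, fun k => k3 (neg_ne_zero.1 k)⟩
  have pos : ∀ {ε f p q : ℝ}, 0 < ε * f → p ^ 2 + q ^ 2 ≠ 0 → 0 < ε * (f * (p ^ 2 + q ^ 2)) :=
    fun k1 k2 => by
      rw [← mul_assoc]
      exact mul_pos k1 (lt_of_le_of_ne (by positivity) k2.symm)
  have pos' : ∀ {ε l a : ℝ}, 0 < ε * l → 0 ≤ a → a ≠ 0 → 0 < ε * (2 * l * a) := fun k1 k2 k3 => by
    nlinarith [mul_pos k1 (k2.lt_of_ne' k3)]
  refine ⟨fun x y z u => Ψ (th x y z) (v x y z) u, ?_, fun x y z u => ?_,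
    fun T' hT' hΨ M hM hM' => ?_⟩
  · have r0 := rv.comm (RG.var 3)
    have r1 : RG fun y : Fin 6 → M2 => P₀ (v (y 0) (y 1) (y 2)) (y 3) • (1 : M2) :=
      r0.negDet fun _ => trace_comm _ _
    have r2 := ((RG.const 1).sadd (r1.smul' r1)).inv fun _ =>
      add_pos_of_pos_of_nonneg one_pos (mul_self_nonneg _)
    have r3 := (rth.poly β).add (((rth.poly E).smul' r2).smul r0)
    simpa only [Ψ, W, pow_two] using ((rth.poly F).smul' ((r1.smul' r1).sadd
      ((rth.poly E₃).smul' (rth.poly E₃)))).smul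
        ((rth.poly A).add ((rth.poly e).smul (r3.mul (r3.mul rv))))
  · obtain ⟨w1, w2, w3⟩ := hW x y z u
    obtain ⟨t1, t2, t3⟩ := val_mat w1 w2 (M := Ψ (th x y z) (v x y z) u) rfl
    by_cases hl : F.eval (th x y z) * (P₀ (v x y z) u ^ 2 + E₃.eval (th x y z) ^ 2) = 0
    · simpa only [Ψ, hl, zero_smul] using h0
    obtain ⟨l, hl', k1, k2, k3, k4, k5⟩ := O2 (th x y z) (e0 ▸ e3 ▸ (hv x y z).2.2)
      (left_ne_zero_of_mul hl)
    have k6 := pos k3 (right_ne_zero_of_mul hl)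
    obtain ⟨k7, k8⟩ := k5 (((1 + P₀ (v x y z) u ^ 2)⁻¹) ^ 2 * P₀ (v x y z) u) (by
      rw [abs_mul, abs_of_nonneg (sq_nonneg _), inv_pow, inv_mul_le_iff₀ (by positivity), abs_le]
      constructor <;> nlinarith [sq_nonneg (P₀ (v x y z) u ^ 2), sq_nonneg (P₀ (v x y z) u + 1),
        sq_nonneg (P₀ (v x y z) u - 1)])
    obtain ⟨s, -, s1, s2⟩ := sg l hl'
    by_cases hb : e.eval (th x y z) * (β.eval (th x y z) ^ 2 - E.eval (th x y z) ^ 2 *
      (((1 + P₀ (v x y z) u ^ 2)⁻¹) ^ 2 * P₀ (v x y z) u)) = 0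
    · obtain ⟨k9, k10⟩ := k8 hb
      have d0 : disc (Ψ (th x y z) (v x y z) u) = 0 := by rw [t2, hb]; simp
      have d1 := pos' k6 (hA _) k9
      rw [← t1] at d1
      have scal : e.eval (th x y z) • W (th x y z) (v x y z) u = 0 → tI (w.ε l) →
          Ψ (th x y z) (v x y z) u ∈ T := fun k ⟨M, hM, m1, m2, m3⟩ =>
        hI.mem_of_jordan hM (iff_of_false m1 (by
          simp only [Ψ, k, add_zero, smul_smul]
          exact not_NS_smul_one _)) m2 d0 m3 d1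
      rcases k10 with ⟨a1, a2, a3, a4, a5⟩ | ⟨a1, j, a2, a3, a4⟩
      · refine scal (by rw [a1, zero_smul]) ?_
        rcases s1 a2 with h | ⟨-, M, hM, m1, m2, m3⟩
        · have := side_subset h
          rcases hw.sign l with k | k <;> simp [k] at this
        · have m4 := m3 ▸ (dir_of_disc m1 m2).2
          obtain ⟨i, hi, a6⟩ := id a3
          obtain rfl : l = i := by omega
          exact ⟨M, hM, fun k => a5 ⟨a3, a4, M, hM, k, m1, hw.keep l a6.1 a6.2 ▸ m4⟩, m1, m4⟩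
      · by_cases hW0 : W (th x y z) (v x y z) u = 0
        · refine scal (by rw [hW0, smul_zero]) (a3 ▸ by_contra fun k => ?_)
          have b1 := w3 k4 hW0
          obtain ⟨b2, b3⟩ := a4 b1
          obtain ⟨i, rfl, b4, -⟩ := a2.1
          have b5 : P₀ (v x y z) u = 0 := by
            have : (1 + P₀ (v x y z) u ^ 2) ≠ 0 := by positivity
            simpa [a1, b1, b3, this] using hb
          exact hl (by rw [b5, (hE₃ _).2 ⟨_, b4.le, ⟨a2, k⟩, b2⟩]; simp)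
        · obtain ⟨M, hM, m1, m2, m3⟩ := a2.2.2
          exact hI.mem_of_jordan hM (iff_of_true m1 (NS.add_smul w1 hW0 hl a1 _)) m2 d0 (a3 ▸ m3) d1
    · have d0 : 0 < s * disc (Ψ (th x y z) (v x y z) u) := by
        rw [t2, mul_left_comm]
        exact mul_pos (even_two.pow_pos (mul_ne_zero (mul_ne_zero two_ne_zero hl) hb))
          (s2 _ k1 k2 k4)
      refine hI.mem_side d0 (hS3 s _ (s1 ?_) (abs_dir_lt fun h => by simp [h] at d0))
      rw [t3 _ (hw.sign l) k6 (hA _)]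
      exact k7 hb
  have hP0 : ∀ v, P₀ v 0 = 0 := fun v => by simp [P₀]
  by_cases hD : disc M = 0
  · have ht := hM'.resolve_right (not_not.2 hD)
    obtain ⟨m1, m2⟩ := dir_of_disc hD ht
    obtain ⟨s, hs, m3⟩ : ∃ s : ℝ, (s = 1 ∨ s = -1) ∧ dir M ∈ S s := by
      have := hfl M hM hD ht
      rw [closure_union] at this
      rcases this with h | h
      · exact ⟨1, Or.inl rfl, Or.inr ⟨h, M, hM, hD, ht, rfl⟩⟩
      · exact ⟨-1, Or.inr rfl, Or.inr ⟨h, M, hM, hD, ht, rfl⟩⟩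
    obtain ⟨l, hl, m4, -⟩ := sg' s hs _ m3
    obtain ⟨k1, k2, k3, k4⟩ := hw.step_abs hl m4 (by rcases m1 with h | h <;> simp [h])
    rw [k4] at m2
    by_cases hNS : NS M
    · obtain ⟨τ, a1, a2, a3, a4, a5, a6, a7, P, a8, a9⟩ := O3c l
        ⟨⟨l, rfl, k1, k2⟩, k3, M, hM, hNS, hD, hw.keep l k1 k2 ▸ m2⟩
      obtain ⟨x, y, z, rfl⟩ := hΘ τ ⟨e0 ▸ (hθ.monotone (Nat.zero_le l)).trans_lt a1,
        e3 ▸ a2.trans (hθ k1)⟩
      obtain ⟨u, hu⟩ := exists_comm_det (hv x y z).1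
        (neg_ne_zero.1 ((hv x y z).2.1 ▸ a4)) a8
      obtain ⟨w1, w2, w3⟩ := hW x y z u
      obtain ⟨t1, t2, -⟩ := val_mat w1 w2 (M := Ψ (th x y z) (v x y z) u) rfl
      have b1 : E₃.eval (th x y z) ≠ 0 := fun h =>
        ((hE₃ _).1 h).elim fun j k => ne_node hθ a1 a2 j k.2.2
      have b2 := pos (p := P₀ (v x y z) u) (q := E₃.eval (th x y z)) a3 (by positivity)
      exact hT'.mem_of_jordan (hΨ x y z u) (iff_of_true (NS.add_smul w1 (fun h => a7 (w3 a4 h))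
        (fun h => by simp [h] at b2) a6 _) hNS) (by rw [t2, hu, a9]; simp) hD
        (t1 ▸ pos' b2 (hA _) a5) m2
    · obtain ⟨a1, a2, a3⟩ := O3b l k1 k2 k3
      obtain ⟨x, y, z, h⟩ := hΘ (θ (l + 1)) ⟨e0 ▸ hθ (Nat.succ_pos l), e3 ▸ hθ k1⟩
      rw [← h] at a1 a2 a3
      obtain ⟨w1, w2, -⟩ := hW x y z 0
      obtain ⟨t1, t2, -⟩ := val_mat w1 w2 (M := Ψ (th x y z) (v x y z) 0) rfl
      have b1 : E₃.eval (th x y z) ≠ 0 := fun k => by
        obtain ⟨j, -, b2, b3⟩ := (hE₃ _).1 k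
        obtain rfl := hθ.injective (h.symm.trans b3)
        exact b2.2 ⟨M, hM, hNS, hD, hw.keep l k1 k2 ▸ m2⟩
      have b2 := pos (p := P₀ (v x y z) 0) (q := E₃.eval (th x y z)) a1 (by positivity)
      refine hT'.mem_of_jordan (hΨ x y z 0) (iff_of_false ?_ hNS) (by rw [t2, hP0]; simp [a3]) hD
        (t1 ▸ pos' b2 (hA _) a2) m2
      have b3 : e.eval (th x y z) • W (th x y z) (v x y z) 0 = 0 := by
        simp [W, smul_smul, ← pow_two, a3]
      simp only [Ψ, b3, add_zero, smul_smul]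
      exact not_NS_smul_one _
  · obtain ⟨s, hs, m1⟩ : ∃ s : ℝ, (s = 1 ∨ s = -1) ∧ 0 < s * disc M := by
      rcases lt_or_gt_of_ne hD with h | h
      · exact ⟨-1, Or.inr rfl, by linarith⟩
      · exact ⟨1, Or.inl rfl, by linarith⟩
    obtain ⟨l, hl, m2, m3⟩ := sg' s hs (dir M) (Or.inl ⟨M, hM, m1, rfl⟩)
    obtain ⟨τ, a1, a2, a3, a4, a5, a6, a7, a8⟩ := O3a l hl _ m2 (abs_dir_lt hD)
    obtain ⟨x, y, z, rfl⟩ := hΘ τ ⟨e0 ▸ (hθ.monotone (Nat.zero_le l)).trans_lt a1, e3 ▸ a3⟩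
    obtain ⟨w1, w2, -⟩ := hW x y z 0
    rw [hP0, mul_zero, mul_zero, sub_zero] at w2
    obtain ⟨-, t2, t3⟩ := val_mat w1 w2 (M := Ψ (th x y z) (v x y z) 0) rfl
    have b1 : E₃.eval (th x y z) ≠ 0 := fun h => ((hE₃ _).1 h).elim fun j k => a6 j k.2.1.1 k.2.2
    have b2 := pos (p := P₀ (v x y z) 0) (q := E₃.eval (th x y z)) a4 (by positivity)
    refine hT'.mem_of_dir (hΨ x y z 0) (s := s) ?_ m1 (by rw [t3 _ (hw.sign l) b2 (hA _), a8])
    rw [t2, mul_left_comm]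
    exact mul_pos (even_two.pow_pos (mul_ne_zero (mul_ne_zero two_ne_zero
      fun h => by simp [h] at b2) a7)) (m3 _ a1 a2 a5)

end Pool.Agent.MP_4e44b6_al.H30
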