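import Pool.Agent.MP_4e44b6_al.H30.M2Conj

/-! Matrix functions that are quotients of semihomogeneous polynomials by positive central ones. -/

namespace Pool.Agent.MP_4e44b6_al.H30

open Set Matrix Polynomial

theorem mul_self_eq (M : M2) : M * M = M.trace • M - M.det • (1 : M2) := by
  rw [trace_fin_two, det_fin_two]
  ext i j
  fin_cases i <;> fin_cases j <;> simp [Matrix.mul_apply, Fin.sum_univ_two] <;> ring

theorem sq_traceless {M : M2} (h : M.trace = 0) : M * M = (-M.det) • (1 : M2) := by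
  rw [mul_self_eq, h]; simp

theorem trace_comm (x y : M2) : (x * y - y * x).trace = 0 := by
  rw [trace_sub, trace_mul_comm, sub_self]

theorem comm_anti {x : M2} (h : x.trace = 0) (y : M2) :
    (x * y - y * x) * x = -(x * (x * y - y * x)) := by
  rw [sub_mul, mul_sub, Matrix.mul_assoc y, ← Matrix.mul_assoc x x, sq_traceless h,
    Matrix.mul_assoc x y]
  simp

theorem det_add_traceless {u : M2} (h : u.trace = 0) (l : ℝ) :
    (l • (1 : M2) + u).det = l ^ 2 + u.det := by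
  rw [trace_fin_two] at h
  rw [det_fin_two, det_fin_two]
  simp only [Matrix.add_apply, Matrix.smul_apply, one_apply_eq, smul_eq_mul, mul_one, ne_eq,
    zero_ne_one, not_false_eq_true, one_apply_ne, mul_zero, zero_add, one_ne_zero]
  linear_combination l * h

theorem twist {u v : M2} (hv : v.trace = 0) (h : u * v = -(v * u)) (l : ℝ) :
    ((l • (1 : M2) + u) * v).trace = 0 ∧
      u * ((l • (1 : M2) + u) * v) = -((l • (1 : M2) + u) * v * u) := by
  constructor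
  · have := congrArg Matrix.trace h
    rw [trace_neg, trace_mul_comm v] at this
    rw [add_mul, trace_add, smul_mul_assoc, one_mul, trace_smul, hv]
    simp only [smul_eq_mul]
    linarith
  · rw [Matrix.mul_assoc, ← mul_neg, ← h, ← Matrix.mul_assoc, ← Matrix.mul_assoc]
    simp [mul_add, add_mul]

/-- The weights: two variables of weight one, the others of weight four. -/
def wt (n : ℕ) : Fin (n + 2) → ℕ := Fin.cons 1 (Fin.cons 1 fun _ => 4)

/-- The value of the central polynomial `[x₀, x₁]²`. -/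
def rr {n : ℕ} (a : Fin (n + 2) → M2) : ℝ := -(a 0 * a 1 - a 1 * a 0).det

/-- The central polynomial `[x₀, x₁]²`. -/
noncomputable def rP (n : ℕ) : FreeAlgebra ℝ (Fin (n + 2)) :=
  (FreeAlgebra.ι ℝ 0 * FreeAlgebra.ι ℝ 1 - FreeAlgebra.ι ℝ 1 * FreeAlgebra.ι ℝ 0) *
    (FreeAlgebra.ι ℝ 0 * FreeAlgebra.ι ℝ 1 - FreeAlgebra.ι ℝ 1 * FreeAlgebra.ι ℝ 0)

theorem rP_hom (n : ℕ) : IsWHom (fun i => (wt n i : ℤ)) 4 (rP n) := by
  have h0 : IsWHom (fun i => (wt n i : ℤ)) 1 (FreeAlgebra.ι ℝ 0) :=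
    (IsWHom.ι (fun i => (wt n i : ℤ)) 0).of_eq (by simp [wt])
  have h1 : IsWHom (fun i => (wt n i : ℤ)) 1 (FreeAlgebra.ι ℝ 1) :=
    (IsWHom.ι (fun i => (wt n i : ℤ)) 1).of_eq (by simp [wt])
  exact (((h0.mul h1).sub (h1.mul h0)).mul ((h0.mul h1).sub (h1.mul h0))).of_eq (by norm_num)

theorem lift_rP {n : ℕ} (a : Fin (n + 2) → M2) : FreeAlgebra.lift ℝ a (rP n) = rr a • (1 : M2) := by
  simp only [rP, map_mul, map_sub, FreeAlgebra.lift_ι_apply]
  exact sq_traceless (trace_comm _ _)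

/-- `φ` is a quotient of a semihomogeneous polynomial by a positive central one. -/
def RG {n : ℕ} (φ : (Fin n → M2) → M2) : Prop :=
  ∃ (d : ℤ) (p q : FreeAlgebra ℝ (Fin (n + 2))) (δ : (Fin (n + 2) → M2) → ℝ), 0 ≤ d ∧
    IsWHom (fun i => (wt n i : ℤ)) d p ∧ IsWHom (fun i => (wt n i : ℤ)) d q ∧
    ∀ a, rr a ≠ 0 → 0 < δ a ∧ FreeAlgebra.lift ℝ a q = δ a • (1 : M2) ∧
      FreeAlgebra.lift ℝ a p = δ a • φ fun i => (rr a)⁻¹ • a i.succ.succ

namespace RG

variable {n : ℕ} {φ ψ : (Fin n → M2) → M2} {s t : (Fin n → M2) → ℝ}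

theorem var (i : Fin n) : RG fun y : Fin n → M2 => y i := by
  have h : IsWHom (fun i => (wt n i : ℤ)) 4 (FreeAlgebra.ι ℝ i.succ.succ) :=
    (IsWHom.ι (fun i => (wt n i : ℤ)) i.succ.succ).of_eq (by simp [wt])
  refine ⟨4 + 4, rP n * FreeAlgebra.ι ℝ i.succ.succ, rP n * rP n, fun a => rr a * rr a,
    by norm_num, (rP_hom n).mul h, (rP_hom n).mul (rP_hom n), fun a ha =>
      ⟨mul_self_pos.2 ha, ?_, ?_⟩⟩
  · simp [lift_rP, smul_smul]
  · simp [lift_rP, smul_smul, ha]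

theorem const (c : ℝ) : RG fun _ : Fin n → M2 => c • (1 : M2) :=
  ⟨0, c • 1, 1, fun _ => 1, le_rfl, (IsWHom.one _).smul c, IsWHom.one _, fun _ _ => by simp⟩

theorem add (h : RG φ) (h' : RG ψ) : RG fun y => φ y + ψ y := by
  obtain ⟨d, p, q, δ, hd, hp, hq, h⟩ := h
  obtain ⟨d', p', q', δ', hd', hp', hq', h'⟩ := h'
  refine ⟨d + d', p * q' + q * p', q * q', fun a => δ a * δ' a, add_nonneg hd hd',
    (hp.mul hq').add (hq.mul hp'), hq.mul hq', fun a ha => ?_⟩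
  obtain ⟨a1, a2, a3⟩ := h a ha
  obtain ⟨b1, b2, b3⟩ := h' a ha
  simp [a2, a3, b2, b3, mul_pos a1 b1, smul_smul, mul_comm]

theorem mul (h : RG φ) (h' : RG ψ) : RG fun y => φ y * ψ y := by
  obtain ⟨d, p, q, δ, hd, hp, hq, h⟩ := h
  obtain ⟨d', p', q', δ', hd', hp', hq', h'⟩ := h'
  refine ⟨d + d', p * p', q * q', fun a => δ a * δ' a, add_nonneg hd hd', hp.mul hp', hq.mul hq',
    fun a ha => ?_⟩
  obtain ⟨a1, a2, a3⟩ := h a ha
  obtain ⟨b1, b2, b3⟩ := h' a ha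
  simp [a2, a3, b2, b3, mul_pos a1 b1, smul_smul, mul_comm]

theorem smul (h : RG fun y => s y • (1 : M2)) (h' : RG φ) : RG fun y => s y • φ y := by
  simpa using h.mul h'

theorem sub (h : RG φ) (h' : RG ψ) : RG fun y => φ y - ψ y := by
  simpa [sub_eq_add_neg] using h.add ((const (-1)).smul h')

theorem comm (h : RG φ) (h' : RG ψ) : RG fun y => φ y * ψ y - ψ y * φ y :=
  (h.mul h').sub (h'.mul h)

theorem sadd (h : RG fun y => s y • (1 : M2)) (h' : RG fun y => t y • (1 : M2)) :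
    RG fun y => (s y + t y) • (1 : M2) := by
  simpa only [add_smul] using h.add h'

theorem smul' (h : RG fun y => s y • (1 : M2)) (h' : RG fun y => t y • (1 : M2)) :
    RG fun y => (s y * t y) • (1 : M2) := by
  simpa only [mul_smul] using h.smul h'

theorem poly (h : RG fun y => s y • (1 : M2)) (P : ℝ[X]) :
    RG fun y => P.eval (s y) • (1 : M2) := by
  induction P using Polynomial.induction_on with
  | C a => simpa only [eval_C] using const a
  | add p q hp hq => simpa only [eval_add] using hp.sadd hq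
  | monomial n a ih => simpa only [pow_succ, eval_mul, eval_X, mul_assoc] using ih.smul' h

theorem inv (h : RG fun y => s y • (1 : M2)) (hs : ∀ y, 0 < s y) :
    RG fun y => (s y)⁻¹ • (1 : M2) := by
  obtain ⟨d, p, q, δ, hd, hp, hq, h⟩ := h
  refine ⟨d, q, p, fun a => δ a * s fun i => (rr a)⁻¹ • a i.succ.succ, hd, hq, hp, fun a ha => ?_⟩
  obtain ⟨a1, a2, a3⟩ := h a ha
  refine ⟨mul_pos a1 (hs _), by rw [a3, smul_smul], ?_⟩
  rw [a2, smul_smul, mul_inv_cancel_right₀ (hs _).ne']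

theorem negDet (h : RG φ) (h0 : ∀ y, (φ y).trace = 0) : RG fun y => (-(φ y).det) • (1 : M2) := by
  simpa only [sq_traceless (h0 _)] using h.mul h

theorem image_eq (h : RG φ) {T : Set M2} (h0 : 0 ∈ T) (hT : Inv T) (h1 : ∀ y, φ y ∈ T)
    (h2 : ∀ T', Inv T' → 0 ∈ T' → (∀ y, φ y ∈ T') → T ⊆ T') :
    ∃ (d : ℤ) (p : FreeAlgebra ℝ (Fin (n + 2))), 0 < d ∧ IsWHom (fun i => (wt n i : ℤ)) d p ∧
      image M2 p = T := by
  obtain ⟨d, p, q, δ, hd, hp, -, h⟩ := h
  have hP := ((rP_hom n).mul (rP_hom n)).mul hp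
  have hd' : 0 < 4 + 4 + d := by omega
  have hI := inv_image hP hd'.ne'
  refine ⟨_, _, hd', hP, subset_antisymm ?_
    (h2 _ hI ⟨fun _ => 0, hP.lift_zero hd'.ne'⟩ fun y => ?_)⟩
  · rintro _ ⟨a, rfl⟩
    simp only [map_mul, lift_rP]
    by_cases ha : rr a = 0
    · simpa [ha] using h0
    · rw [(h a ha).2.2]
      simpa [smul_smul, mul_assoc] using hT.smul (h1 _) (mul_pos (h a ha).1 (mul_self_pos.2 ha))
  · let a : Fin (n + 2) → M2 := Fin.cons !![0, 1; 0, 0] (Fin.cons !![0, 0; 1, 0] y)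
    have ha : rr a = 1 := by simp [rr, a, det_fin_two]
    obtain ⟨a1, -, a3⟩ := h a (by simp [ha])
    have := hI.smul ⟨a, rfl⟩ (inv_pos.2 a1)
    simpa [lift_rP, ha, a3, smul_smul, a1.ne', a] using this

end RG

theorem exists_seed {σ : ℝ} (hσ : σ = 1 ∨ σ = -1) :
    ∃ (th : M2 → M2 → M2 → ℝ) (v : M2 → M2 → M2 → M2) (a b : ℝ), a < -1 ∧ 0 < b ∧
      (RG fun y : Fin 6 → M2 => th (y 0) (y 1) (y 2) • (1 : M2)) ∧
      (RG fun y : Fin 6 → M2 => v (y 0) (y 1) (y 2)) ∧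
      (∀ x y z, (v x y z).trace = 0 ∧ -(v x y z).det = σ * (th x y z * (th x y z + 1)) ∧
        th x y z ∈ Icc a b) ∧ ∀ τ ∈ Ioo a b, ∃ x y z, th x y z = τ := by
  let g : ℝ → ℝ → ℝ := fun ξ P => (P + (ξ + 1) ^ 2) ^ 2 - P - ξ
  have hg : ∀ ξ P, ξ ^ 2 + ξ + 3 / 4 ≤ g ξ P := fun ξ P => by
    simp only [g]
    nlinarith [sq_nonneg (P + (ξ + 1) ^ 2 - 1 / 2)]
  have hg0 : ∀ ξ P, 0 < g ξ P := fun ξ P => by nlinarith [hg ξ P, sq_nonneg (ξ + 1 / 2)]
  let ξ : M2 → M2 → ℝ := fun x y => σ * -(x * y - y * x).det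
  let P : M2 → M2 → M2 → ℝ := fun x y z => -((x * y - y * x) * z - z * (x * y - y * x)).det
  let th : M2 → M2 → M2 → ℝ := fun x y z => (g (ξ x y) (P x y z))⁻¹ * ξ x y
  let Θ : Set ℝ := {τ | ∃ x y z, th x y z = τ}
  have hb : ∀ τ ∈ Θ, |τ| ≤ 2 := by
    rintro _ ⟨x, y, z, rfl⟩
    have h1 := hg0 (ξ x y) (P x y z)
    have h2 := hg (ξ x y) (P x y z)
    rw [abs_le, le_inv_mul_iff₀ h1, inv_mul_le_iff₀ h1]
    constructor <;> nlinarith [sq_nonneg (ξ x y + 3 / 4), sq_nonneg (ξ x y + 1 / 4)]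
  have hlo : BddBelow Θ := ⟨-2, fun τ h => (abs_le.1 (hb τ h)).1⟩
  have hhi : BddAbove Θ := ⟨2, fun τ h => (abs_le.1 (hb τ h)).2⟩
  have star : ∀ τ ∈ Θ, uIcc 0 τ ⊆ Θ := by
    rintro _ ⟨x, y, z, rfl⟩
    have e1 : ∀ s : ℝ, s • x * y - y * s • x = s • (x * y - y * x) := fun s => by
      simp [smul_sub]
    have e2 : ∀ s : ℝ, th (s • x) y z =
        (g (s ^ 2 * ξ x y) (s ^ 2 * P x y z))⁻¹ * (s ^ 2 * ξ x y) := fun s => by
      have a1 : ξ (s • x) y = s ^ 2 * ξ x y := by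
        simp only [ξ, e1, det_smul, Fintype.card_fin]; ring
      have a2 : P (s • x) y z = s ^ 2 * P x y z := by
        simp only [P, smul_mul_assoc, mul_smul_comm, ← smul_sub, det_smul, Fintype.card_fin]
        ring
      simp only [th, a1, a2]
    have hc : Continuous fun s : ℝ => (g (s ^ 2 * ξ x y) (s ^ 2 * P x y z))⁻¹ * (s ^ 2 * ξ x y) :=
      (Continuous.inv₀ (by simp only [g]; fun_prop) fun s => (hg0 _ _).ne').mul (by fun_prop)
    have := intermediate_value_uIcc (a := 0) (b := 1) hc.continuousOn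
    simp only [← e2, one_smul] at this
    rw [e2 0] at this
    simp only [zero_pow two_ne_zero, zero_mul, mul_zero] at this
    refine this.trans ?_
    rintro _ ⟨s, -, rfl⟩
    exact ⟨_, _, _, rfl⟩
  have m1 : (-81 / 61 : ℝ) ∈ Θ := by
    rcases hσ with rfl | rfl
    · refine ⟨!![1 / 2, 0; 0, -1 / 2], !![0, 1; 1, 0], !![1 / 3, 0; 0, -1 / 3], ?_⟩
      simp [th, g, ξ, P, det_fin_two]
      norm_num
    · refine ⟨!![0, 1; 0, 0], !![0, 0; 1, 0], !![0, 1 / 3; -1 / 3, 0], ?_⟩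
      simp [th, g, ξ, P, det_fin_two]
      norm_num
  have m2 : (1 / 15 : ℝ) ∈ Θ := by
    rcases hσ with rfl | rfl
    · refine ⟨!![0, 1; 0, 0], !![0, 0; 1, 0], 0, ?_⟩
      simp [th, g, ξ, P, det_fin_two]
      norm_num
    · refine ⟨!![1 / 2, 0; 0, -1 / 2], !![0, 1; 1, 0], 0, ?_⟩
      simp [th, g, ξ, P, det_fin_two]
      norm_num
  have rx : RG fun y : Fin 6 → M2 => y 0 * y 1 - y 1 * y 0 := (RG.var 0).comm (RG.var 1)
  have ru := rx.comm (RG.var 2)
  have rξ : RG fun y : Fin 6 → M2 => ξ (y 0) (y 1) • (1 : M2) :=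
    (RG.const σ).smul' (rx.negDet fun _ => trace_comm _ _)
  have rp : RG fun y : Fin 6 → M2 => P (y 0) (y 1) (y 2) • (1 : M2) :=
    ru.negDet fun _ => trace_comm _ _
  have rl : RG fun y : Fin 6 → M2 =>
      (P (y 0) (y 1) (y 2) + (ξ (y 0) (y 1) + 1) ^ 2) • (1 : M2) := by
    simpa only [pow_two] using rp.sadd ((rξ.sadd (RG.const 1)).smul' (rξ.sadd (RG.const 1)))
  have rg : RG fun y : Fin 6 → M2 => (g (ξ (y 0) (y 1)) (P (y 0) (y 1) (y 2)))⁻¹ • (1 : M2) := by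
    refine RG.inv ?_ fun _ => hg0 _ _
    simpa only [g, sub_smul, pow_two] using ((rl.smul' rl).sub rp).sub rξ
  refine ⟨th, fun x y z => (g (ξ x y) (P x y z))⁻¹ • (((P x y z + (ξ x y + 1) ^ 2) • (1 : M2) +
      ((x * y - y * x) * z - z * (x * y - y * x))) * (x * y - y * x)), sInf Θ, sSup Θ,
    (csInf_le hlo m1).trans_lt (by norm_num), lt_of_lt_of_le (by norm_num) (le_csSup hhi m2),
    rg.smul' rξ, rg.smul ((rl.add ru).mul rx), fun x y z => ⟨?_, ?_, csInf_le hlo ⟨x, y, z, rfl⟩,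
      le_csSup hhi ⟨x, y, z, rfl⟩⟩, fun τ hτ => ?_⟩
  · rw [trace_smul, (twist (trace_comm _ _) (comm_anti (trace_comm _ _) z) _).1, smul_zero]
  · have h1 := (hg0 (ξ x y) (P x y z)).ne'
    have h2 : (x * y - y * x).det = -(σ * ξ x y) := by
      rcases hσ with rfl | rfl <;> simp [ξ]
    have h3 : (P x y z + (ξ x y + 1) ^ 2) ^ 2 + ((x * y - y * x) * z - z * (x * y - y * x)).det =
        g (ξ x y) (P x y z) + ξ x y := by
      simp only [g, P]; ring
    rw [det_smul, det_mul, det_add_traceless (trace_comm _ _), h2, h3, Fintype.card_fin]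
    simp only [th]
    field_simp
    ring
  · rcases le_total 0 τ with h | h
    · obtain ⟨t, ht, h'⟩ := exists_lt_of_lt_csSup ⟨_, m1⟩ hτ.2
      exact star t ht (mem_uIcc_of_le h h'.le)
    · obtain ⟨t, ht, h'⟩ := exists_lt_of_csInf_lt ⟨_, m1⟩ hτ.1
      exact star t ht (mem_uIcc_of_ge h'.le h)

theorem exists_comm_det {v : M2} (hv : v.trace = 0) (hd : v.det ≠ 0) {P : ℝ}
    (hP : P ∈ Icc (0 : ℝ) (1 / 4)) :
    ∃ y : M2, ((1 + (-(v * y - y * v).det) ^ 2)⁻¹) ^ 2 * -(v * y - y * v).det = P := by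
  obtain ⟨y, hy⟩ : ∃ y : M2, 0 < -(v * y - y * v).det := by
    rw [trace_fin_two] at hv
    rw [det_fin_two] at hd
    by_cases h1 : v 1 0 = 0
    · by_cases h2 : v 0 1 = 0
      · refine ⟨!![0, 1; -1, 0], ?_⟩
        have h3 : v 0 0 ≠ 0 := fun h => hd (by simp [h, h1])
        have h4 : v 1 1 = -v 0 0 := by linarith
        simp [det_fin_two, Matrix.mul_apply, Fin.sum_univ_two, vecMul, dotProduct, h1, h2, h4]
        nlinarith [mul_self_pos.2 h3]
      · refine ⟨!![0, 0; 1, 0], ?_⟩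
        simpa [det_fin_two, Matrix.mul_apply, Fin.sum_univ_two, vecMul, dotProduct] using h2
    · refine ⟨!![0, 1; 0, 0], ?_⟩
      simpa [det_fin_two, Matrix.mul_apply, Fin.sum_univ_two, vecMul, dotProduct] using h1
  have hc : Continuous fun c : ℝ => ((1 + c ^ 2)⁻¹) ^ 2 * c :=
    ((Continuous.inv₀ (by fun_prop) fun c => by positivity).pow 2).mul continuous_id
  obtain ⟨c, hc1, rfl⟩ := intermediate_value_Icc zero_le_one hc.continuousOn
    (show P ∈ _ by norm_num at hP ⊢; exact hP)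
  refine ⟨√(c / -(v * y - y * v).det) • y, ?_⟩
  have : -(v * √(c / -(v * y - y * v).det) • y - √(c / -(v * y - y * v).det) • y * v).det = c := by
    rw [mul_smul_comm, smul_mul_assoc, ← smul_sub, det_smul, Fintype.card_fin,
      Real.sq_sqrt (div_nonneg hc1.1 hy.le), ← mul_neg, div_mul_cancel₀ _ hy.ne']
  rw [this]

end Pool.Agent.MP_4e44b6_al.H30
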