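import Pool.Agent.MP_4e44b6_al.H30.Necessity

/-! Every admissible set is a set of directions. -/

namespace Pool.Agent.MP_4e44b6_al.H30

open Set Polynomial

theorem cset_const {a : ℝ} (ha : a = 1 ∨ a = -1) : cset (C a) 0 = {a} := by
  ext c
  rcases ha with rfl | rfl
  · simp [cset, exists_gt]
  · simp [cset, exists_gt]

theorem exists_cset_of_admissible {S : Set ℝ} (hS : Admissible S) : ∃ A B : ℝ[X], cset A B = S := by
  classical
  rcases hS with h | rfl | ⟨h1, ⟨F, hF, hSF⟩, hconn, hend⟩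
  · by_cases h1 : (1 : ℝ) ∈ S <;> by_cases h2 : (-1 : ℝ) ∈ S
    · refine ⟨1 - X, 0, ?_⟩
      ext c
      simp only [cset, eval_sub, eval_one, eval_X, eval_zero, mul_zero, mem_ofPred_eq]
      constructor
      · rintro ⟨ν, -, hne, rfl⟩
        have hne' : 1 - ν ^ 2 ≠ 0 := fun h0 => hne (by simp [h0])
        rw [zero_pow two_ne_zero, add_zero, Real.sqrt_sq_eq_abs]
        rcases lt_or_gt_of_ne hne' with h3 | h3
        · rw [abs_of_neg h3, div_neg, div_self hne']; exact h2
        · rw [abs_of_pos h3, div_self hne']; exact h1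
      · intro hc
        rcases h hc with rfl | rfl
        · refine ⟨2, two_pos, by norm_num, ?_⟩
          rw [zero_pow two_ne_zero, add_zero, Real.sqrt_sq_eq_abs]; norm_num
        · refine ⟨1 / 2, by norm_num, by norm_num, ?_⟩
          rw [zero_pow two_ne_zero, add_zero, Real.sqrt_sq_eq_abs]; norm_num
    · refine ⟨C 1, 0, ?_⟩
      rw [cset_const (Or.inl rfl)]
      ext c
      refine ⟨fun hc => hc ▸ h1, fun hc => ?_⟩
      rcases h hc with rfl | rfl
      · exact absurd hc h2
      · rfl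
    · refine ⟨C (-1), 0, ?_⟩
      rw [cset_const (Or.inr rfl)]
      ext c
      refine ⟨fun hc => hc ▸ h2, fun hc => ?_⟩
      rcases h hc with rfl | rfl
      · rfl
      · exact absurd hc h1
    · refine ⟨0, 0, ?_⟩
      ext c
      refine ⟨fun hc => by simp [cset] at hc, fun hc => ?_⟩
      rcases h hc with rfl | rfl
      · exact absurd hc h2
      · exact absurd hc h1
  · refine ⟨0, 1, ?_⟩
    ext c
    simp only [cset, eval_zero, eval_one, mul_one, zero_div, mem_ofPred_eq, mem_singleton_iff]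
    exact ⟨fun ⟨_, _, _, h⟩ => h, fun h => ⟨1, one_pos, by norm_num, h⟩⟩
  · let J : Set ℝ × ℝ → Set ℝ := fun z => {t | 0 ≤ t ∧ z.2 * t ∈ z.1}
    let s : Set (Set ℝ × ℝ) := {z | z.1 ∈ F ∧ (z.2 = 1 ∨ z.2 = -1) ∧ (J z).Nontrivial}
    have hs : s.Finite := (F.finite_toSet.prod (toFinite ({1, -1} : Set ℝ))).subset
      fun z hz => ⟨hz.1, hz.2.1⟩
    have hIS : ∀ I ∈ F, I ⊆ S := fun I hI => by
      rw [hSF]; exact subset_biUnion_of_mem (u := fun I => I) hI
    have hcover : ∀ c ∈ S, ∃ z ∈ s, |c| ∈ J z ∧ z.2 * |c| = c := by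
      intro c hc
      rw [hSF] at hc
      simp only [mem_iUnion] at hc
      obtain ⟨I, hI, hc⟩ := hc
      obtain ⟨hO, hN⟩ := hF I hI
      obtain ⟨c', hc', hne⟩ := hN.exists_ne c
      rcases lt_trichotomy c 0 with h | rfl | h
      · refine ⟨(I, -1), ⟨hI, Or.inr rfl, -c, ⟨by linarith, by simpa using hc⟩, ?_⟩,
          ⟨abs_nonneg _, by simpa [abs_of_neg h] using hc⟩, by simp [abs_of_neg h]⟩
        by_cases h' : c' ≤ 0
        · exact ⟨-c', ⟨by linarith, by simpa using hc'⟩, fun h => hne (neg_injective h).symm⟩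
        · exact ⟨0, ⟨le_rfl, by simpa using hO.out hc hc' ⟨h.le, (not_le.1 h').le⟩⟩, by linarith⟩
      · rcases lt_or_gt_of_ne hne with h' | h'
        · exact ⟨(I, -1), ⟨hI, Or.inr rfl, 0, ⟨le_rfl, by simpa using hc⟩, -c',
            ⟨by linarith, by simpa using hc'⟩, by linarith⟩, ⟨by simp, by simpa using hc⟩, by simp⟩
        · exact ⟨(I, 1), ⟨hI, Or.inl rfl, 0, ⟨le_rfl, by simpa using hc⟩, c',
            ⟨h'.le, by simpa using hc'⟩, h'.ne⟩, ⟨by simp, by simpa using hc⟩, by simp⟩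
      · refine ⟨(I, 1), ⟨hI, Or.inl rfl, c, ⟨h.le, by simpa using hc⟩, ?_⟩,
          ⟨abs_nonneg _, by simpa [abs_of_pos h] using hc⟩, by simp [abs_of_pos h]⟩
        by_cases h' : 0 ≤ c'
        · exact ⟨c', ⟨h', by simpa using hc'⟩, hne.symm⟩
        · exact ⟨0, ⟨le_rfl, by simpa using hO.out hc' hc ⟨(not_le.1 h').le, h.le⟩⟩, h.ne'⟩
    have hU : (⋃ z ∈ s, J z) = (fun c => |c|) '' S := by
      ext t
      simp only [mem_iUnion]
      constructor
      · rintro ⟨z, hz, ht⟩
        refine ⟨z.2 * t, hIS _ hz.1 ht.2, ?_⟩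
        rcases hz.2.1 with h | h <;> simp [h, abs_of_nonneg ht.1]
      · rintro ⟨c, hc, rfl⟩
        obtain ⟨z, hz, h, -⟩ := hcover c hc
        exact ⟨z, hz, h⟩
    have hcl : (⋃ z ∈ s, closure (J z)) = closure ((fun c => |c|) '' S) := by
      rw [← hU, hs.closure_biUnion]
    have hS' : (⋃ z ∈ s, (fun t => z.2 * t) '' J z) = S := by
      ext c
      simp only [mem_iUnion]
      constructor
      · rintro ⟨z, hz, t, ht, rfl⟩
        exact hIS _ hz.1 ht.2
      · intro hc
        obtain ⟨z, hz, h, h'⟩ := hcover c hc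
        exact ⟨z, hz, _, h, h'⟩
    have hreach : ∀ b₀ ∈ closure ((fun c => |c|) '' S), Reach b₀ S b₀ := by
      intro b₀ hb₀
      rw [← hS']
      refine reach_of_family hs J (fun z => z.2) (fun z hz => ⟨fun a ha b hb t ht => ?_⟩)
        (fun z hz => hz.2.2) (fun z hz t ht => ⟨ht.1, ?_⟩) (fun z hz => hz.2.1)
        (by rw [hcl]; exact hconn.isPreconnected) (by rw [hcl]; exact hb₀)
      · refine ⟨ha.1.trans ht.1, ?_⟩
        have hO := (hF _ hz.1).1
        rcases hz.2.1 with h | h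
        · have h1 := ha.2
          have h2 := hb.2
          rw [h, one_mul] at h1 h2 ⊢
          exact hO.out h1 h2 ht
        · have h1 := ha.2
          have h2 := hb.2
          rw [h] at h1 h2 ⊢
          exact hO.out h2 h1 ⟨by linarith [ht.2], by linarith [ht.1]⟩
      · have := h1 (hIS _ hz.1 ht.2)
        rcases hz.2.1 with h | h <;> rw [h] at this
        · linarith [this.2]
        · linarith [this.1]
    rcases hend with h | h
    · obtain ⟨w, hw, h0, -, hT⟩ := hreach 0 h
      rw [← hT]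
      exact realize_walk w hw (Or.inl h0)
    · obtain ⟨w, hw, h0, -, hT⟩ := hreach 1 h
      rw [← hT]
      exact realize_walk w hw (Or.inr h0)

end Pool.Agent.MP_4e44b6_al.H30
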