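import Mathlib

/-! Even polynomials with prescribed signs and odd polynomials with a prescribed zigzag. -/

namespace Pool.Agent.MP_4e44b6_al.H30

open Set Polynomial Filter Topology

theorem exists_sign_poly_aux (ε : ℕ → ℝ) (hε : ∀ l, ε l = 1 ∨ ε l = -1) (keep : ℕ → Prop)
    (L : ℕ) (hk : ∀ l, l < L → keep l → ε (l + 1) = ε l) :
    ∃ F : ℝ[X], (∀ l ≤ L, ∀ μ : ℝ, l < μ → (μ < l + 1 ∨ l = L) → 0 < ε l * F.eval (μ ^ 2)) ∧
      (∀ l < L, ¬ keep l → F.eval ((l + 1 : ℝ) ^ 2) = 0) ∧
      (∀ l < L, keep l → 0 < ε l * F.eval ((l + 1 : ℝ) ^ 2)) := by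
  induction L with
  | zero =>
    refine ⟨C (ε 0), fun l hl μ _ _ => ?_, by simp, by simp⟩
    obtain rfl : l = 0 := by omega
    rcases hε 0 with h | h <;> simp [h]
  | succ L ih =>
    obtain ⟨F, h1, h2, h3⟩ := ih fun l hl => hk l (by omega)
    have hG : ∃ G : ℝ[X], (∀ μ : ℝ, 0 ≤ μ → μ < L + 1 → 0 < G.eval (μ ^ 2)) ∧
        (∀ μ : ℝ, L + 1 < μ → 0 < ε (L + 1) * ε L * G.eval (μ ^ 2)) ∧
        (¬ keep L → G.eval ((L + 1 : ℝ) ^ 2) = 0) ∧
        (keep L → 0 < G.eval ((L + 1 : ℝ) ^ 2)) := by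
      have hL : (0 : ℝ) ≤ L := Nat.cast_nonneg L
      by_cases hkeep : keep L
      · refine ⟨1, by simp, fun μ _ => ?_, fun h => absurd hkeep h, by simp⟩
        rw [hk L (by omega) hkeep]
        rcases hε L with h | h <;> simp [h]
      · by_cases hs : ε (L + 1) * ε L = 1
        · refine ⟨(C ((L + 1 : ℝ) ^ 2) - X) ^ 2, fun μ h0 h => ?_, fun μ h => ?_, by simp,
            fun h => absurd h hkeep⟩
          · have : 0 < (L + 1 : ℝ) ^ 2 - μ ^ 2 := by nlinarith
            simp only [eval_pow, eval_sub, eval_C, eval_X]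
            positivity
          · have : 0 < μ ^ 2 - (L + 1 : ℝ) ^ 2 := by nlinarith
            simp only [eval_pow, eval_sub, eval_C, eval_X, hs, one_mul]
            nlinarith
        · have hs' : ε (L + 1) * ε L = -1 := by
            rcases hε L with h | h <;> rcases hε (L + 1) with h' | h' <;> simp_all
          refine ⟨C ((L + 1 : ℝ) ^ 2) - X, fun μ h0 h => ?_, fun μ h => ?_, by simp,
            fun h => absurd h hkeep⟩
          · simp only [eval_sub, eval_C, eval_X]
            nlinarith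
          · simp only [eval_sub, eval_C, eval_X, hs']
            nlinarith
    obtain ⟨G, g1, g2, g3, g4⟩ := hG
    refine ⟨F * G, fun l hl μ hμ hμ' => ?_, fun l hl hkl => ?_, fun l hl hkl => ?_⟩
    · rw [eval_mul]
      rcases hl.eq_or_lt with rfl | hl'
      · push_cast at hμ
        have a1 := h1 L le_rfl μ (by linarith) (Or.inr rfl)
        have a2 := g2 μ hμ
        have a3 := mul_pos a1 a2
        have a4 : ε L * ε L = 1 := by rcases hε L with h | h <;> simp [h]
        have : ε L * F.eval (μ ^ 2) * (ε (L + 1) * ε L * G.eval (μ ^ 2)) =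
            (ε L * ε L) * (ε (L + 1) * (F.eval (μ ^ 2) * G.eval (μ ^ 2))) := by ring
        rwa [this, a4, one_mul] at a3
      · have hμ2 : μ < l + 1 := hμ'.resolve_right (by omega)
        have hl2 : (l : ℝ) ≤ L := by exact_mod_cast (by omega : l ≤ L)
        have a1 := h1 l (by omega) μ hμ (Or.inl hμ2)
        have a2 := g1 μ (le_trans (Nat.cast_nonneg l) hμ.le) (by linarith)
        rw [← mul_assoc]
        exact mul_pos a1 a2
    · rw [eval_mul]
      rcases (Nat.lt_succ_iff.1 hl).eq_or_lt with rfl | hl'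
      · rw [g3 hkl, mul_zero]
      · rw [h2 l hl' hkl, zero_mul]
    · rw [eval_mul, ← mul_assoc]
      rcases (Nat.lt_succ_iff.1 hl).eq_or_lt with rfl | hl'
      · exact mul_pos (h1 l le_rfl _ (by linarith) (Or.inr rfl)) (g4 hkl)
      · have hl2 : (l : ℝ) < L := by exact_mod_cast hl'
        exact mul_pos (h3 l hl' hkl) (g1 _ (by positivity) (by linarith))

theorem exists_sign_poly (ε : ℕ → ℝ) (hε : ∀ l, ε l = 1 ∨ ε l = -1) (keep : ℕ → Prop)
    (L : ℕ) (hk : ∀ l, l + 1 < L → keep l → ε (l + 1) = ε l) :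
    ∃ F : ℝ[X], (∀ l < L, ∀ μ ∈ Ioo (l : ℝ) (l + 1), 0 < ε l * F.eval (μ ^ 2)) ∧
      (∀ l < L, ¬ (l + 1 < L ∧ keep l) → F.eval ((l + 1 : ℝ) ^ 2) = 0) ∧
      (∀ l, l + 1 < L → keep l → 0 < ε l * F.eval ((l + 1 : ℝ) ^ 2)) := by
  obtain ⟨F, h1, h2, h3⟩ := exists_sign_poly_aux ε hε (fun l => l + 1 < L ∧ keep l) L
    (fun l _ h => hk l h.1 h.2)
  exact ⟨F, fun l hl μ hμ => h1 l hl.le μ hμ.1 (Or.inl hμ.2), h2,
    fun l hl hkl => h3 l (by omega) ⟨hl, hkl⟩⟩

theorem one_mem_of_cone {L : ℕ} (hL : 0 < L) {K : Set (Fin L → ℝ)}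
    (hadd : ∀ x ∈ K, ∀ y ∈ K, x + y ∈ K) (hsmul : ∀ c : ℝ, 0 < c → ∀ x ∈ K, c • x ∈ K)
    (he : ∀ l, ∃ c : ℝ, 0 < c ∧ Pi.single l c ∈ closure K) : (fun _ => 1) ∈ K := by
  classical
  have hconv : Convex ℝ K := by
    intro x hx y hy a b ha hb hab
    rcases ha.eq_or_lt with rfl | ha'
    · have : b = 1 := by linarith
      simpa [this] using hy
    rcases hb.eq_or_lt with rfl | hb'
    · have : a = 1 := by linarith
      simpa [this] using hx
    exact hadd _ (hsmul a ha' x hx) _ (hsmul b hb' y hy)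
  have hO : IsOpen {x : Fin L → ℝ | ∀ l, 0 < x l} := by
    rw [ofPred_forall]
    exact isOpen_iInter_of_finite fun l => isOpen_lt continuous_const (continuous_apply l)
  have hsub : {x : Fin L → ℝ | ∀ l, 0 < x l} ⊆ closure K := by
    intro x hx
    choose c hc hcK using he
    have hx' : x = ∑ l, (x l / c l) • (Pi.single l (c l) : Fin L → ℝ) := by
      funext j
      rw [Finset.sum_apply, Finset.sum_eq_single j]
      · simp [div_mul_cancel₀ _ (hc j).ne']
      · intro l _ hl
        simp [Pi.single_eq_of_ne (Ne.symm hl)]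
      · simp
    rw [hx']
    have : Nonempty (Fin L) := ⟨⟨0, hL⟩⟩
    refine Finset.sum_induction_nonempty _ (· ∈ closure K) (fun a b ha hb => ?_)
      Finset.univ_nonempty fun l _ => ?_
    · exact map_mem_closure₂ continuous_add ha hb hadd
    · exact map_mem_closure (continuous_const_smul _) (hcK l)
        (hsmul _ (div_pos (hx l) (hc l)))
  have h1 : (fun _ => 1 : Fin L → ℝ) ∈ interior (closure K) :=
    interior_maximal hsub hO fun _ => one_pos
  have htop : affineSpan ℝ K = ⊤ := by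
    have h2 : closure K ⊆ affineSpan ℝ K :=
      closure_minimal (subset_affineSpan ℝ K) (affineSpan ℝ K).closed_of_finiteDimensional
    have h3 : affineSpan ℝ (interior (closure K)) = ⊤ :=
      isOpen_interior.affineSpan_eq_top ⟨_, h1⟩
    rw [eq_top_iff, ← h3]
    exact affineSpan_le.2 (interior_subset.trans h2)
  have hne := hconv.interior_nonempty_iff_affineSpan_eq_top.2 htop
  rw [hconv.interior_closure_eq_interior_of_nonempty_interior hne] at h1
  exact interior_subset h1

theorem exists_odd_primitive (G : ℝ[X]) : ∃ H : ℝ[X], ∀ μ : ℝ,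
    HasDerivAt (fun μ : ℝ => μ * H.eval (μ ^ 2)) (G.eval (μ ^ 2)) μ := by
  induction G using Polynomial.induction_on' with
  | add p q hp hq =>
    obtain ⟨H, hH⟩ := hp
    obtain ⟨H', hH'⟩ := hq
    refine ⟨H + H', fun μ => ?_⟩
    simp only [eval_add, mul_add]
    exact (hH μ).add (hH' μ)
  | monomial n a =>
    refine ⟨monomial n (a / (2 * n + 1)), fun μ => ?_⟩
    simp only [eval_monomial]
    have h1 := (hasDerivAt_pow (2 * n + 1) μ).const_mul (a / (2 * n + 1))
    have e1 : (fun μ : ℝ => μ * (a / (2 * n + 1) * (μ ^ 2) ^ n)) =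
        fun y => a / (2 * n + 1) * y ^ (2 * n + 1) := by
      funext t
      rw [← pow_mul]; ring
    have e2 : a * (μ ^ 2) ^ n =
        a / (2 * n + 1) * (((2 * n + 1 : ℕ) : ℝ) * μ ^ (2 * n + 1 - 1)) := by
      have : (2 * (n : ℝ) + 1) ≠ 0 := by positivity
      rw [← pow_mul, Nat.add_sub_cancel]
      push_cast
      field_simp
    rw [e1, e2]
    exact h1

theorem exists_pos_poly {L : ℕ} (hL : 0 < L) (W : ℝ[X]) (d : ℕ → ℝ)
    (hW : ∀ l < L, ∀ μ ∈ Ioo (l : ℝ) (l + 1), 0 < d l * W.eval (μ ^ 2)) :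
    ∃ Q : ℝ[X], (∀ t ∈ Icc (0 : ℝ) (L ^ 2), 0 < Q.eval t) ∧
      ∀ l < L, ∫ t in (l : ℝ)..(l + 1), W.eval (t ^ 2) * Q.eval (t ^ 2) = d l := by
  have hd : ∀ l < L, d l ≠ 0 := fun l hl h0 => by
    have := hW l hl (l + 1 / 2) ⟨by linarith, by linarith⟩
    simp [h0] at this
  have hint : ∀ (f : ℝ → ℝ), Continuous f → ∀ a b : ℝ,
      IntervalIntegrable (fun t => W.eval (t ^ 2) * f (t ^ 2)) MeasureTheory.volume a b :=
    fun f hf a b => Continuous.intervalIntegrable (by fun_prop) a b
  let K : Set (Fin L → ℝ) := {v | ∃ Q : ℝ[X], (∀ t ∈ Icc (0 : ℝ) (L ^ 2), 0 < Q.eval t) ∧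
    ∀ l : Fin L, v l = (∫ t in ((l : ℕ) : ℝ)..((l : ℕ) + 1),
      W.eval (t ^ 2) * Q.eval (t ^ 2)) / d l}
  have h1 : (fun _ => 1) ∈ K := by
    refine one_mem_of_cone hL ?_ ?_ ?_
    · rintro x ⟨P, hP, hx⟩ y ⟨Q, hQ, hy⟩
      refine ⟨P + Q, fun t ht => by rw [eval_add]; exact add_pos (hP t ht) (hQ t ht), fun l => ?_⟩
      rw [Pi.add_apply, hx, hy, ← add_div, ← intervalIntegral.integral_add
        (hint _ P.continuous _ _) (hint _ Q.continuous _ _)]
      simp only [eval_add, mul_add]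
    · rintro c hc x ⟨P, hP, hx⟩
      refine ⟨C c * P, fun t ht => by rw [eval_mul, eval_C]; exact mul_pos hc (hP t ht),
        fun l => ?_⟩
      rw [Pi.smul_apply, hx, smul_eq_mul, ← mul_div_assoc, ← intervalIntegral.integral_const_mul]
      simp only [eval_mul, eval_C]
      congr 2
      funext t
      ring
    · intro l
      let h : ℝ → ℝ := fun n => max 0 ((n - (l : ℕ) ^ 2) * (((l : ℕ) + 1) ^ 2 - n))
      have hh : Continuous h := by fun_prop
      have hl0 : (0 : ℝ) ≤ (l : ℕ) := Nat.cast_nonneg _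
      refine ⟨(∫ t in ((l : ℕ) : ℝ)..((l : ℕ) + 1), W.eval (t ^ 2) * h (t ^ 2)) / d l, ?_, ?_⟩
      · have hpos : 0 < ∫ t in ((l : ℕ) : ℝ)..((l : ℕ) + 1),
            d l * (W.eval (t ^ 2) * h (t ^ 2)) := by
          refine intervalIntegral.intervalIntegral_pos_of_pos_on
            ((hint h hh _ _).const_mul _) (fun t ht => ?_) (by linarith)
          rw [← mul_assoc]
          refine mul_pos (hW l l.2 t ht) (lt_max_of_lt_right (mul_pos ?_ ?_))
          · nlinarith [ht.1]
          · nlinarith [ht.1, ht.2]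
        rw [intervalIntegral.integral_const_mul] at hpos
        have hd2 : 0 < d l ^ 2 := by have := hd l l.2; positivity
        have := div_pos hpos hd2
        rwa [pow_two (d l), mul_div_mul_left _ _ (hd l l.2)] at this
      · obtain ⟨M, hM⟩ := (isCompact_Icc (a := (0 : ℝ)) (b := L)).exists_bound_of_continuousOn
          (f := fun t => W.eval (t ^ 2)) (by fun_prop)
        have hM0 : 0 ≤ M := (norm_nonneg _).trans (hM 0 ⟨le_rfl, Nat.cast_nonneg _⟩)
        obtain ⟨B, hB0, hB⟩ : ∃ B : ℝ, 0 < B ∧ ∀ j : Fin L, 1 / |d j| ≤ B :=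
          ⟨1 + ∑ j : Fin L, 1 / |d j|, by positivity, fun j => by
            have := Finset.single_le_sum (f := fun j : Fin L => 1 / |d j|)
              (fun _ _ => by positivity) (Finset.mem_univ j)
            linarith⟩
        rw [Metric.mem_closure_iff]
        intro ε hε
        set η := ε / (2 * (M + 1) * B + 1) with hη
        have hη0 : 0 < η := by positivity
        obtain ⟨Q, hQ⟩ := exists_polynomial_near_of_continuousOn 0 (L ^ 2) (fun n => h n + η)
          (by fun_prop) η hη0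
        refine ⟨_, ⟨Q, fun t ht => ?_, fun _ => rfl⟩, ?_⟩
        · have := abs_lt.1 (hQ t ht)
          have h0 : 0 ≤ h t := le_max_left _ _
          linarith [this.1]
        · rw [dist_pi_lt_iff hε]
          intro j
          have hj0 : (0 : ℝ) ≤ (j : ℕ) := Nat.cast_nonneg _
          have hjL : ((j : ℕ) : ℝ) + 1 ≤ L := by exact_mod_cast j.2
          have e1 : (Pi.single l ((∫ t in ((l : ℕ) : ℝ)..((l : ℕ) + 1),
              W.eval (t ^ 2) * h (t ^ 2)) / d l) : Fin L → ℝ) j =
              (∫ t in ((j : ℕ) : ℝ)..((j : ℕ) + 1), W.eval (t ^ 2) * h (t ^ 2)) / d j := by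
            by_cases hjl : j = l
            · subst hjl; simp
            · rw [Pi.single_eq_of_ne hjl]
              have : ∫ t in ((j : ℕ) : ℝ)..((j : ℕ) + 1), W.eval (t ^ 2) * h (t ^ 2) =
                  ∫ t in ((j : ℕ) : ℝ)..((j : ℕ) + 1), (0 : ℝ) := by
                apply intervalIntegral.integral_congr
                intro t ht
                rw [uIcc_of_le (by linarith)] at ht
                have : h (t ^ 2) = 0 := by
                  apply max_eq_left
                  rcases lt_or_gt_of_ne (Fin.val_ne_of_ne hjl) with h' | h'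
                  · have h2 : ((j : ℕ) : ℝ) + 1 ≤ (l : ℕ) := by exact_mod_cast h'
                    have h3 : t ^ 2 ≤ ((l : ℕ) : ℝ) ^ 2 := by nlinarith [ht.1, ht.2]
                    apply mul_nonpos_of_nonpos_of_nonneg <;> nlinarith
                  · have h2 : ((l : ℕ) : ℝ) + 1 ≤ (j : ℕ) := by exact_mod_cast h'
                    have h3 : (((l : ℕ) : ℝ) + 1) ^ 2 ≤ t ^ 2 := by nlinarith [ht.1, ht.2]
                    apply mul_nonpos_of_nonneg_of_nonpos <;> nlinarith
                simp [this]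
              simp [this]
          rw [e1, Real.dist_eq, ← sub_div, ← intervalIntegral.integral_sub (hint h hh _ _)
            (hint _ Q.continuous _ _), abs_div]
          have e2 : ‖∫ t in ((j : ℕ) : ℝ)..((j : ℕ) + 1),
              (W.eval (t ^ 2) * h (t ^ 2) - W.eval (t ^ 2) * Q.eval (t ^ 2))‖ ≤
              M * (2 * η) * |((j : ℕ) : ℝ) + 1 - (j : ℕ)| := by
            apply intervalIntegral.norm_integral_le_of_norm_le_const
            intro t ht
            rw [uIoc_of_le (by linarith)] at ht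
            have ht' : t ∈ Icc (0 : ℝ) L := ⟨by linarith [ht.1], by linarith [ht.2]⟩
            have h2 := abs_lt.1 (hQ (t ^ 2) ⟨by positivity, by nlinarith [ht'.1, ht'.2]⟩)
            rw [← mul_sub, norm_mul]
            refine mul_le_mul (hM t ht') ?_ (norm_nonneg _) hM0
            rw [Real.norm_eq_abs, abs_le]
            constructor <;> linarith [h2.1, h2.2]
          rw [Real.norm_eq_abs, add_sub_cancel_left, abs_one, mul_one] at e2
          have e3 : η * (2 * (M + 1) * B + 1) = ε := by rw [hη]; field_simp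
          calc _ = _ * (1 / |d j|) := by rw [mul_one_div]
            _ ≤ M * (2 * η) * B := mul_le_mul e2 (hB j) (by positivity) (by positivity)
            _ < ε := by nlinarith [mul_pos hη0 hB0]
  obtain ⟨Q, hQ, hv⟩ := h1
  refine ⟨Q, hQ, fun l hl => ?_⟩
  have := hv ⟨l, hl⟩
  simp only at this
  rw [eq_div_iff (hd l hl), one_mul] at this
  exact this.symm

theorem exists_zigzag (L : ℕ) (z : ℕ → ℝ) (hz0 : z 0 = 0) (hz : ∀ l < L, z l ≠ z (l + 1)) :
    ∃ H : ℝ[X], (∀ l ≤ L, (l : ℝ) * H.eval ((l : ℝ) ^ 2) = z l) ∧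
      ∀ l < L, (fun μ : ℝ => μ * H.eval (μ ^ 2)) '' Ioo (l : ℝ) (l + 1) =
        uIoo (z l) (z (l + 1)) := by
  classical
  rcases Nat.eq_zero_or_pos L with rfl | hL
  · refine ⟨0, fun l hl => ?_, by simp⟩
    obtain rfl : l = 0 := by omega
    simp [hz0]
  obtain ⟨W, hW, -, -⟩ := exists_sign_poly (fun l => if z l < z (l + 1) then 1 else -1)
    (fun l => by by_cases h : z l < z (l + 1) <;> simp [h]) (fun _ => False) L (by simp)
  have hW' : ∀ l < L, ∀ μ ∈ Ioo (l : ℝ) (l + 1), 0 < (z (l + 1) - z l) * W.eval (μ ^ 2) := by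
    intro l hl μ hμ
    have := hW l hl μ hμ
    by_cases h : z l < z (l + 1)
    · simp only [h, if_true, one_mul] at this
      exact mul_pos (sub_pos.2 h) this
    · simp only [h, if_false] at this
      have h' : z (l + 1) < z l := lt_of_le_of_ne (not_lt.1 h) (hz l hl).symm
      nlinarith
  obtain ⟨Q, hQ, hint⟩ := exists_pos_poly hL W (fun l => z (l + 1) - z l) hW'
  obtain ⟨H, hH⟩ := exists_odd_primitive (W * Q)
  have hval : ∀ l ≤ L, (l : ℝ) * H.eval ((l : ℝ) ^ 2) = z l := by
    intro l hl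
    induction l with
    | zero => simp [hz0]
    | succ l ih =>
      have h1 := intervalIntegral.integral_eq_sub_of_hasDerivAt (a := (l : ℝ)) (b := l + 1)
        (fun x _ => hH x) (Continuous.intervalIntegrable (by fun_prop) _ _)
      simp only [eval_mul] at h1
      rw [hint l (by omega), ih (by omega)] at h1
      push_cast
      linarith
  refine ⟨H, hval, fun l hl => ?_⟩
  have hcont : ContinuousOn (fun μ : ℝ => μ * H.eval (μ ^ 2)) (Icc (l : ℝ) (l + 1)) := by fun_prop
  have hl0 : (0 : ℝ) ≤ l := Nat.cast_nonneg _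
  have hlL : (l : ℝ) + 1 ≤ L := by exact_mod_cast hl
  have hder : ∀ μ ∈ interior (Icc (l : ℝ) (l + 1)),
      0 < (z (l + 1) - z l) * deriv (fun μ : ℝ => μ * H.eval (μ ^ 2)) μ := by
    intro μ hμ
    rw [interior_Icc] at hμ
    rw [(hH μ).deriv, eval_mul, ← mul_assoc]
    exact mul_pos (hW' l hl μ hμ) (hQ _ ⟨by positivity, by nlinarith [hμ.1, hμ.2]⟩)
  have e1 := hval l hl.le
  have e2 := hval (l + 1) hl
  push_cast at e2
  rcases lt_or_gt_of_ne (hz l hl) with h | h
  · rw [hcont.image_Ioo_of_strictMonoOn (by linarith) (strictMonoOn_of_deriv_pos (convex_Icc _ _)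
      hcont fun μ hμ => (pos_iff_pos_of_mul_pos (hder μ hμ)).1 (sub_pos.2 h)), uIoo_of_lt h, e1, e2]
  · rw [hcont.image_Ioo_of_strictAntiOn (by linarith) (strictAntiOn_of_deriv_neg (convex_Icc _ _)
      hcont fun μ hμ => by have := hder μ hμ; nlinarith), uIoo_of_gt h, e1, e2]

end Pool.Agent.MP_4e44b6_al.H30
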